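import Mathlib

/-! # The sharp local Weil criterion: tails of the negative binomial distribution -/

set_option autoImplicit false

namespace Pool.Agent.Zk2.LX

/-- the partial sum of the negative binomial series -/
def nb {R : Type} [CommRing R] (u q : ℕ) (s : R) : R := ∑ j ∈ Finset.range q, ((u + j).choose j : R) * s ^ j

/-- the lower tail -/
def lo {R : Type} [CommRing R] (u q : ℕ) (s : R) : R := (1 - s) ^ (u + 1) * nb u q s

/-- the upper tail -/
def hi {R : Type} [CommRing R] (u q : ℕ) (s : R) : R := s ^ (q + 1) * nb q (u + 1) (1 - s)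

lemma nb_step {R : Type} [CommRing R] (q p : ℕ) (v : R) :
    nb q (p + 1) v - (1 - v) * nb (q + 1) (p + 1) v = ((q + 1 + p).choose p : R) * v ^ (p + 1) := by
  induction p with
  | zero => simp [nb]
  | succ p ih =>
    have e1 : nb q (p + 1 + 1) v = nb q (p + 1) v + ((q + (p + 1)).choose (p + 1) : R) * v ^ (p + 1) :=
      Finset.sum_range_succ _ _
    have e2 : nb (q + 1) (p + 1 + 1) v = nb (q + 1) (p + 1) v + ((q + 1 + (p + 1)).choose (p + 1) : R) * v ^ (p + 1) :=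
      Finset.sum_range_succ _ _
    have e3 : ((q + 1 + (p + 1)).choose (p + 1) : R) = ((q + 1 + p).choose p : R) + ((q + 1 + p).choose (p + 1) : R) := by
      have : q + 1 + (p + 1) = (q + 1 + p) + 1 := by ring
      rw [this, Nat.choose_succ_succ]
      push_cast
      rfl
    have e4 : q + (p + 1) = q + 1 + p := by ring
    rw [e1, e2, e3, e4]
    linear_combination ih

lemma lo_add_hi {R : Type} [CommRing R] (u q : ℕ) (s : R) : lo u (q + 1) s + hi u q s = 1 := by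
  induction q with
  | zero =>
    unfold lo hi nb
    simp only [Finset.sum_range_succ, Finset.range_zero, Finset.sum_empty, zero_add, Nat.choose_self, Nat.cast_one,
      pow_zero, mul_one, pow_one, one_mul, Nat.choose_zero_right, add_zero]
    have h := mul_neg_geom_sum (1 - s) (u + 1)
    have e : ∑ i ∈ Finset.range (u + 1), (1 - s) ^ i = ∑ j ∈ Finset.range (u + 1), (1 - s) ^ j := rfl
    rw [sub_sub_cancel] at h
    have h2 : ∑ x ∈ Finset.range u, (1 - s) ^ x + (1 - s) ^ u = ∑ i ∈ Finset.range (u + 1), (1 - s) ^ i :=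
      (Finset.sum_range_succ _ _).symm
    rw [h2, h]
    ring
  | succ q ih =>
    have e1 : nb u (q + 1 + 1) s = nb u (q + 1) s + ((u + (q + 1)).choose (q + 1) : R) * s ^ (q + 1) :=
      Finset.sum_range_succ _ _
    have h := nb_step q u (1 - s)
    rw [sub_sub_cancel] at h
    have e2 : ((q + 1 + u).choose u : R) = ((u + (q + 1)).choose (q + 1) : R) := by
      rw [add_comm (q + 1) u]
      have := Nat.choose_symm_add (a := u) (b := q + 1)
      rw [this]
    unfold lo hi at ih ⊢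
    rw [e1]
    rw [e2] at h
    linear_combination ih - s ^ (q + 1) * h

lemma nb_nonneg {u q : ℕ} {s : ℝ} (h0 : 0 ≤ s) : 0 ≤ nb u q s := Finset.sum_nonneg fun j _ => by positivity

lemma one_le_nb {u q : ℕ} {s : ℝ} (h0 : 0 ≤ s) (hq : 1 ≤ q) : 1 ≤ nb u q s := by
  obtain ⟨q, rfl⟩ := Nat.exists_eq_add_of_le' hq
  unfold nb
  rw [Finset.sum_range_succ']
  have : 0 ≤ ∑ k ∈ Finset.range q, ((u + (k + 1)).choose (k + 1) : ℝ) * s ^ (k + 1) := Finset.sum_nonneg fun j _ => by positivity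
  simp only [add_zero, Nat.choose_zero_right, Nat.cast_one, pow_zero, mul_one]
  linarith

lemma nb_mono {u q : ℕ} {s t : ℝ} (h0 : 0 ≤ s) (h : s ≤ t) : nb u q s ≤ nb u q t :=
  Finset.sum_le_sum fun j _ => mul_le_mul_of_nonneg_left (pow_le_pow_left₀ h0 h j) (by positivity)

lemma lo_nonneg {u q : ℕ} {s : ℝ} (h0 : 0 ≤ s) (h1 : s ≤ 1) : 0 ≤ lo u q s := by
  unfold lo
  have : 0 ≤ 1 - s := by linarith
  exact mul_nonneg (by positivity) (nb_nonneg h0)

lemma hi_nonneg {u q : ℕ} {s : ℝ} (h0 : 0 ≤ s) (h1 : s ≤ 1) : 0 ≤ hi u q s :=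
  mul_nonneg (by positivity) (nb_nonneg (by linarith))

lemma lo_le_one {u q : ℕ} {s : ℝ} (h0 : 0 ≤ s) (h1 : s ≤ 1) : lo u (q + 1) s ≤ 1 := by
  have := lo_add_hi u q s
  linarith [hi_nonneg (u := u) (q := q) h0 h1]

lemma pow_le_lo {u q : ℕ} {s : ℝ} (h0 : 0 ≤ s) (h1 : s ≤ 1) : (1 - s) ^ (u + 1) ≤ lo u (q + 1) s := by
  have h2 : 0 ≤ 1 - s := by linarith
  have h3 : 1 ≤ nb u (q + 1) s := one_le_nb h0 (by omega)
  unfold lo
  nlinarith [pow_nonneg h2 (u + 1)]

lemma lo_le {u q : ℕ} {s : ℝ} (h0 : 0 ≤ s) (h1 : s ≤ 1) : lo u q s ≤ nb u q 1 * (1 - s) ^ (u + 1) := by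
  have h2 : 0 ≤ 1 - s := by linarith
  unfold lo
  rw [mul_comm]
  exact mul_le_mul_of_nonneg_right (nb_mono h0 h1) (by positivity)

/-- the total weight -/
lemma nb_one_le {u q : ℕ} {x : ℝ} (h0 : 0 < x) (h1 : x < 1) : nb u (q + 1) 1 ≤ (1 / x) ^ q * (1 / (1 - x)) ^ (u + 1) := by
  have h2 : 0 < 1 - x := by linarith
  have h3 := lo_le_one (u := u) (q := q) h0.le h1.le
  have h4 : x ^ q * nb u (q + 1) 1 ≤ nb u (q + 1) x := by
    unfold nb
    rw [Finset.mul_sum]
    refine Finset.sum_le_sum fun j hj => ?_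
    have hj' : j ≤ q := by
      have := Finset.mem_range.1 hj
      omega
    rw [one_pow, mul_one, mul_comm]
    exact mul_le_mul_of_nonneg_left (pow_le_pow_of_le_one h0.le h1.le hj') (by positivity)
  unfold lo at h3
  have h5 : (1 - x) ^ (u + 1) * (x ^ q * nb u (q + 1) 1) ≤ 1 :=
    (mul_le_mul_of_nonneg_left h4 (by positivity)).trans h3
  rw [one_div, one_div, inv_pow, inv_pow, ← mul_inv, ← one_div, le_div_iff₀ (by positivity)]
  linarith

lemma norm_nb_le (u q : ℕ) (s : ℂ) : ‖nb u q s‖ ≤ nb u q ‖s‖ := by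
  unfold nb
  refine norm_sum_le_of_le _ fun j _ => ?_
  rw [norm_mul, norm_pow, Complex.norm_natCast]

lemma nb_scale {u q : ℕ} {s : ℝ} (h1 : 1 ≤ s) : nb u (q + 1) s ≤ s ^ q * nb u (q + 1) 1 := by
  unfold nb
  rw [Finset.mul_sum]
  refine Finset.sum_le_sum fun j hj => ?_
  have hj' : j ≤ q := by
    have := Finset.mem_range.1 hj
    omega
  rw [one_pow, mul_one, mul_comm]
  exact mul_le_mul_of_nonneg_right (pow_le_pow_right₀ h1 hj') (by positivity)

lemma norm_hi_le {u q : ℕ} {s : ℂ} {y : ℝ} (h : ‖s‖ ≤ y) :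
    ‖hi u q s‖ ≤ ‖s‖ * (y ^ q * ((1 + y) ^ u * nb q (u + 1) 1)) := by
  have hy : 0 ≤ y := (norm_nonneg _).trans h
  have h1 : ‖1 - s‖ ≤ 1 + y := by
    refine (norm_sub_le _ _).trans ?_
    rw [norm_one]; linarith
  unfold hi
  rw [norm_mul, norm_pow, pow_succ, mul_comm (‖s‖ ^ q), mul_assoc]
  refine mul_le_mul_of_nonneg_left ?_ (norm_nonneg _)
  refine mul_le_mul (pow_le_pow_left₀ (norm_nonneg _) h q) ?_ (norm_nonneg _) (by positivity)
  exact (norm_nb_le _ _ _).trans ((nb_mono (norm_nonneg _) h1).trans (nb_scale (by linarith)))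

lemma norm_lo_le {u q : ℕ} {s : ℂ} {y : ℝ} (h : ‖1 - s‖ ≤ y) :
    ‖lo u (q + 1) s‖ ≤ y ^ (u + 1) * ((1 + y) ^ q * nb u (q + 1) 1) := by
  have hy : 0 ≤ y := (norm_nonneg _).trans h
  have h1 : ‖s‖ ≤ 1 + y := by
    have : s = 1 - (1 - s) := by ring
    rw [this]
    refine (norm_sub_le _ _).trans ?_
    rw [norm_one]; linarith
  unfold lo
  rw [norm_mul, norm_pow]
  refine mul_le_mul (pow_le_pow_left₀ (norm_nonneg _) h _) ?_ (norm_nonneg _) (by positivity)
  exact (norm_nb_le _ _ _).trans ((nb_mono (norm_nonneg _) h1).trans (nb_scale (by linarith)))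

end Pool.Agent.Zk2.LX
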