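import Pool.Agent.Zk2.LW.E
import Pool.Agent.Zk2.LX.B

/-! # The sharp local Weil criterion: the filters -/

set_option autoImplicit false
set_option linter.unusedSectionVars false
set_option maxHeartbeats 1000000

open Complex Filter Topology Set MeasureTheory
open scoped ComplexConjugate

namespace Pool.Agent.Zk2.LX

open Pool.Agent.Y23 (TT Fa N2 plancherel N2_nonneg norm_TT_le TT_sub)
open Pool.Agent.Y23.G (gsq gsq_nonneg gsq_cont gsq_int CC CC_zero Fa_shift Lg one_le_Lg Hd TT_shift GG)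
open Pool.Agent.Zk2.WP (Av sg Av_Fa TT_Av zL)
open Pool.Agent.Zk2.LW (sg_line sg_mul sg_conj Ai Ai_Fa TT_Ai sq sq_nonneg' sq_le_one sq_cont gsq_Ai Hd_Ai GG_Ai Hd_mono)

/-- the multiplier far from the real axis -/
lemma sg_far {ε : ℝ} (hε : 0 < ε) {w : ℂ} (hw : |w.re| ≤ 1) : ‖w‖ * ‖sg ε w‖ ≤ Real.exp ε / ε := by
  rw [← norm_mul, sg_mul hε, norm_div, norm_mul, Complex.norm_two, Complex.norm_real, Real.norm_of_nonneg hε.le]
  have h9 : |(w * ε).re| ≤ ε := by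
    have : (w * (ε : ℂ)).re = w.re * ε := by simp
    rw [this, abs_mul, abs_of_pos hε]
    nlinarith
  have h6 : ‖cexp (w * ε) - cexp (-(w * ε))‖ ≤ 2 * Real.exp ε := by
    refine (norm_sub_le _ _).trans ?_
    rw [Complex.norm_exp, Complex.norm_exp, Complex.neg_re]
    have h7 : Real.exp (w * ε).re ≤ Real.exp ε := Real.exp_le_exp.2 ((le_abs_self _).trans h9)
    have h8 : Real.exp (-(w * ε).re) ≤ Real.exp ε := Real.exp_le_exp.2 ((neg_le_abs _).trans h9)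
    linarith
  calc ‖cexp (w * ε) - cexp (-(w * ε))‖ / (2 * ε) ≤ 2 * Real.exp ε / (2 * ε) := div_le_div_of_nonneg_right h6 (by positivity)
    _ = Real.exp ε / ε := by field_simp

/-- the bound of the multiplier -/
lemma sq_frac (ε v : ℝ) : sq ε v * (4 + (ε * v) ^ 2) ≤ 4 := by
  unfold LW.sq
  set u : ℝ := ε * v
  have key : ∀ x : ℝ, 0 ≤ x → Real.sinc x ^ 2 * (4 + x ^ 2) ≤ 4 := by
    intro x hx
    rcases hx.eq_or_lt with h0 | h0
    · rw [← h0, Real.sinc_zero]; norm_num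
    · rw [Real.sinc_of_ne_zero h0.ne', div_pow, div_mul_eq_mul_div, div_le_iff₀ (by positivity)]
      rcases le_or_gt x Real.pi with h | h
      · have h1 : Real.cos (x / 2) ≤ 1 / Real.sqrt ((x / 2) ^ 2 + 1) :=
          Real.cos_le_one_div_sqrt_sq_add_one (by have := Real.pi_pos; linarith) (by linarith)
        have h3 : 0 ≤ Real.cos (x / 2) := Real.cos_nonneg_of_neg_pi_div_two_le_of_le (by have := Real.pi_pos; linarith) (by linarith)
        have h4 : Real.sin x = 2 * Real.sin (x / 2) * Real.cos (x / 2) := by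
          rw [← Real.sin_two_mul]; congr 1; ring
        have h5 : Real.cos (x / 2) ^ 2 ≤ 1 / ((x / 2) ^ 2 + 1) := by
          have := pow_le_pow_left₀ h3 h1 2
          rwa [div_pow, one_pow, Real.sq_sqrt (by positivity)] at this
        have h6 : Real.sin (x / 2) ^ 2 ≤ (x / 2) ^ 2 := Real.sin_sq_le_sq
        have h7 : Real.cos (x / 2) ^ 2 * ((x / 2) ^ 2 + 1) ≤ 1 := by
          rwa [le_div_iff₀ (by positivity)] at h5
        have h8 : Real.sin x ^ 2 * (4 + x ^ 2) = 16 * Real.sin (x / 2) ^ 2 * (Real.cos (x / 2) ^ 2 * ((x / 2) ^ 2 + 1)) := by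
          rw [h4]; ring
        rw [h8]
        calc 16 * Real.sin (x / 2) ^ 2 * (Real.cos (x / 2) ^ 2 * ((x / 2) ^ 2 + 1)) ≤ 16 * Real.sin (x / 2) ^ 2 * 1 :=
              mul_le_mul_of_nonneg_left h7 (by positivity)
          _ ≤ 4 * x ^ 2 := by linarith
      · have h1 := Real.sin_sq_le_one x
        have h2 := Real.pi_gt_three
        have h3 : 9 ≤ x ^ 2 := by nlinarith
        nlinarith [mul_le_mul_of_nonneg_right h1 (show 0 ≤ 4 + x ^ 2 by positivity)]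
  have h1 := key |u| (abs_nonneg u)
  have h2 : Real.sinc |u| = Real.sinc u := by
    rcases abs_choice u with h | h <;> rw [h]
    exact Real.sinc_neg u
  rw [h2, sq_abs] at h1
  exact h1

/-- the difference multiplier is bounded by the high-pass multiplier -/
lemma diff_le {ε : ℝ} (hε : 0 < ε) (v : ℝ) : v ^ 2 * sq ε v ≤ 4 / ε ^ 2 * (1 - sq ε v) := by
  have e : ε ^ 2 * (v ^ 2 * sq ε v) = (ε * v) ^ 2 * sq ε v := by ring
  rw [div_mul_eq_mul_div, le_div_iff₀ (by positivity), mul_comm, e]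
  have := sq_frac ε v
  linarith

/-- the elementary high-pass filter -/
noncomputable def Qf (ε : ℝ) (f : ℝ → ℂ) (x : ℝ) : ℂ := f x - Av ε (Av ε f) x

lemma Qf_Hd {ε b : ℝ} (hε : 0 < ε) {f : ℝ → ℂ} (hf : Hd b f) : Hd (b + 2 * ε) (Qf ε f) := by
  have h1 : Hd (b + 2 * ε) f := Hd_mono hf (by linarith)
  have h2 := Hd_Ai hε hf 2
  push_cast at h2
  exact h1.sub h2

lemma TT_Qf {ε b : ℝ} (hε : 0 < ε) {f : ℝ → ℂ} (hf : Fa b f) (w : ℂ) : TT (Qf ε f) w = TT f w * (1 - sg ε w ^ 2) := by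
  have h1 : Fa (b + 2 * ε) f := hf.mono (by linarith)
  have h2 := Ai_Fa hε hf 2
  push_cast at h2
  have h3 := TT_sub h1 h2 w
  rw [TT_Ai hε hf] at h3
  have h4 : TT (Qf ε f) w = TT (fun x => f x - Ai ε f 2 x) w := rfl
  rw [h4, h3]
  ring

/-- the iterated high-pass filter -/
noncomputable def Qi (ε : ℝ) (f : ℝ → ℂ) : ℕ → ℝ → ℂ
  | 0 => f
  | r + 1 => Qf ε (Qi ε f r)

lemma Qi_Hd {ε b : ℝ} (hε : 0 < ε) {f : ℝ → ℂ} (hf : Hd b f) : ∀ r : ℕ, Hd (b + 2 * r * ε) (Qi ε f r)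
  | 0 => by simpa [Qi] using hf
  | r + 1 => by
    have h := Qf_Hd hε (Qi_Hd hε hf r)
    have e : b + 2 * r * ε + 2 * ε = b + 2 * ((r + 1 : ℕ) : ℝ) * ε := by push_cast; ring
    rw [e] at h
    exact h

lemma TT_Qi {ε b : ℝ} (hε : 0 < ε) {f : ℝ → ℂ} (hf : Hd b f) (w : ℂ) : ∀ r : ℕ, TT (Qi ε f r) w = TT f w * (1 - sg ε w ^ 2) ^ r
  | 0 => by simp [Qi]
  | r + 1 => by
    have h := TT_Qf hε (Qi_Hd hε hf r).1 w
    rw [TT_Qi hε hf w r] at h
    rw [pow_succ, ← mul_assoc]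
    exact h

/-- the functions of the partition -/
noncomputable def Gj (ε : ℝ) (f : ℝ → ℂ) (r j : ℕ) : ℝ → ℂ := Ai ε (Qi ε f r) j

lemma Gj_Hd {ε b : ℝ} (hε : 0 < ε) {f : ℝ → ℂ} (hf : Hd b f) (r j : ℕ) : Hd (b + (2 * r + j) * ε) (Gj ε f r j) := by
  have h := Hd_Ai hε (Qi_Hd hε hf r) j
  have e : b + 2 * r * ε + j * ε = b + (2 * r + j) * ε := by ring
  rw [e] at h
  exact h

lemma GG_Gj {ε b : ℝ} (hε : 0 < ε) {f : ℝ → ℂ} (hf : Hd b f) (r j : ℕ) (w : ℂ) :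
    GG (Gj ε f r j) (Gj ε f r j) w = GG f f w * ((1 - sg ε w ^ 2) ^ (2 * r) * (sg ε w ^ 2) ^ j) := by
  unfold Gj
  rw [GG_Ai hε (Qi_Hd hε hf r).1]
  unfold GG
  rw [TT_Qi hε hf, TT_Qi hε hf, map_mul, map_pow, map_sub, map_pow, sg_conj hε, map_one]
  ring

lemma gsq_Gj {ε b : ℝ} (hε : 0 < ε) {f : ℝ → ℂ} (hf : Hd b f) (r j : ℕ) (v : ℝ) :
    gsq (Gj ε f r j) v = (1 - sq ε v) ^ (2 * r) * sq ε v ^ j * gsq f v := by
  unfold Gj
  rw [gsq_Ai hε (Qi_Hd hε hf r).1]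
  have h1 : gsq (Qi ε f r) v = (1 - sq ε v) ^ (2 * r) * gsq f v := by
    unfold gsq
    rw [TT_Qi hε hf, norm_mul, norm_pow, sg_line hε]
    have h2 : (1 : ℂ) - ((Real.sinc (ε * v) : ℝ) : ℂ) ^ 2 = ((1 - sq ε v : ℝ) : ℂ) := by
      unfold LW.sq
      push_cast
      rfl
    have h3 : 0 ≤ 1 - sq ε v := by linarith [sq_le_one ε v]
    rw [h2, Complex.norm_real, Real.norm_of_nonneg h3, mul_pow, ← pow_mul, mul_comm r 2, mul_comm]
  rw [h1]
  ring

end Pool.Agent.Zk2.LX
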