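import Pool.Agent.Zk2.LX.A

/-! # The sharp local Weil criterion: the side of the zeros -/

set_option autoImplicit false
set_option linter.unusedSectionVars false
set_option maxHeartbeats 1000000

open Complex Filter Topology Set MeasureTheory
open scoped ComplexConjugate

namespace Pool.Agent.Zk2.LX

open Pool.Agent.Y23 (TT Fa N2 plancherel N2_nonneg norm_TT_le)
open Pool.Agent.Y23.G (gsq gsq_nonneg gsq_cont gsq_int CC CC_zero Fa_shift Lg one_le_Lg Hd TT_shift GG GG_line QQ QB QB_self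
  summable_GG Dom dom_of_Hd Zt mu ZD ZC zsummable half_re rfZ rfZ_sub)
open Pool.Agent.Zk2.WP (Av sg Av_Fa TT_Av zL)
open Pool.Agent.Zk2.LW (sg_line sg_mul sg_conj Ai Ai_Fa TT_Ai sq sq_nonneg' sq_le_one sq_cont gsq_Ai Hd_Ai GG_Ai Hd_mono
  norm_GG)

/-- a map of rings and the upper tail -/
lemma nb_map {R S : Type} [CommRing R] [CommRing S] (φ : R →+* S) (u q : ℕ) (s : R) : φ (nb u q s) = nb u q (φ s) := by
  unfold nb
  rw [map_sum]
  refine Finset.sum_congr rfl fun j _ => ?_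
  simp

lemma hi_map {R S : Type} [CommRing R] [CommRing S] (φ : R →+* S) (u q : ℕ) (s : R) : φ (hi u q s) = hi u q (φ s) := by
  unfold hi
  rw [map_mul, map_pow, nb_map, map_sub, map_one]

/-- the total of the filtered forms -/
noncomputable def WP [D : ZD] (ε : ℝ) (u q r : ℕ) (f : ℝ → ℂ) : ℝ :=
  ∑ j ∈ Finset.range (q + 1), ((u + j).choose j : ℝ) * QQ (Gj ε f r j)

section
variable [D : ZD] [EC : ZC]

/-- the high part of the form, over the zeros -/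
lemma hi_sum {a ε : ℝ} (ha : 0 < a) (hε : 0 < ε) {f : ℝ → ℂ} (hf : Hd a f) (u q r : ℕ) (hu : u + 1 = 2 * r) :
    HasSum (fun ρ : Zt => (mu ρ : ℂ) * (GG f f ((ρ : ℂ) - 1 / 2) * hi u q (sg ε ((ρ : ℂ) - 1 / 2) ^ 2)))
      ((QQ f - WP ε u q r f : ℝ) : ℂ) := by
  have hs : ∀ {c : ℝ} {g : ℝ → ℂ}, 0 < c → Hd c g → HasSum (fun ρ : Zt => (mu ρ : ℂ) * GG g g ((ρ : ℂ) - 1 / 2)) (QQ g : ℂ) := by
    intro c g hc hg
    obtain ⟨C, _, h⟩ := dom_of_Hd (D := D) hc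
    have hD := (h _ hg).1
    have h2 := (summable_GG hD hD).hasSum
    have h3 := QB_self hD
    unfold QB at h3
    rwa [h3] at h2
  have h1 : ∀ j ∈ Finset.range (q + 1), HasSum (fun ρ : Zt => (((u + j).choose j : ℝ) : ℂ) * ((mu ρ : ℂ) *
      GG (Gj ε f r j) (Gj ε f r j) ((ρ : ℂ) - 1 / 2))) ((((u + j).choose j : ℝ) : ℂ) * (QQ (Gj ε f r j) : ℂ)) :=
    fun j _ => (hs (by positivity) (Gj_Hd hε hf r j)).mul_left _
  have h2 := (hs ha hf).sub (hasSum_sum h1)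
  have e1 : (QQ f : ℂ) - ∑ j ∈ Finset.range (q + 1), (((u + j).choose j : ℝ) : ℂ) * (QQ (Gj ε f r j) : ℂ) =
      ((QQ f - WP ε u q r f : ℝ) : ℂ) := by
    unfold WP
    push_cast
    rfl
  rw [e1] at h2
  suffices hfun : (fun ρ : Zt => (mu ρ : ℂ) * (GG f f ((ρ : ℂ) - 1 / 2) * hi u q (sg ε ((ρ : ℂ) - 1 / 2) ^ 2))) =
      fun ρ : Zt => (mu ρ : ℂ) * GG f f ((ρ : ℂ) - 1 / 2) - ∑ j ∈ Finset.range (q + 1), (((u + j).choose j : ℝ) : ℂ) * ((mu ρ : ℂ) *
      GG (Gj ε f r j) (Gj ε f r j) ((ρ : ℂ) - 1 / 2)) by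
    rw [hfun]
    exact h2
  funext ρ
  have h3 := lo_add_hi u q (sg ε ((ρ : ℂ) - 1 / 2) ^ 2)
  have h4 : ∑ j ∈ Finset.range (q + 1), (((u + j).choose j : ℝ) : ℂ) * ((mu ρ : ℂ) *
      GG (Gj ε f r j) (Gj ε f r j) ((ρ : ℂ) - 1 / 2)) = (mu ρ : ℂ) * (GG f f ((ρ : ℂ) - 1 / 2) * lo u (q + 1) (sg ε ((ρ : ℂ) - 1 / 2) ^ 2)) := by
    unfold lo nb
    rw [Finset.mul_sum, Finset.mul_sum, Finset.mul_sum]
    refine Finset.sum_congr rfl fun j _ => ?_
    rw [GG_Gj hε hf, hu]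
    push_cast
    ring
  rw [h4]
  linear_combination (mu ρ : ℂ) * GG f f ((ρ : ℂ) - 1 / 2) * h3

/-- the lower bound of the high part -/
theorem zero_side {a ε T y : ℝ} (ha : 0 < a) (hε : 0 < ε) (hT : 1 ≤ T) (hy : (Real.exp ε / (ε * T)) ^ 2 ≤ y)
    {f : ℝ → ℂ} (hf : Hd a f) (u q r : ℕ) (hu : u + 1 = 2 * r)
    (hz : ∀ ρ : Zt, 1 / 2 < (ρ : ℂ).re → |(ρ : ℂ).im| ≤ T → TT f ((ρ : ℂ) - 1 / 2) = 0) :
    -(2 * a * Real.exp (2 * a) * N2 f * (y ^ q * ((1 + y) ^ u * nb q (u + 1) 1)) * (2 * (Real.exp ε / ε) ^ 2) *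
      ∑' ρ : Zt, (mu ρ : ℝ) * (1 / (1 + (ρ : ℂ).im ^ 2))) ≤ QQ f - WP ε u q r f := by
  have hT0 : 0 < T := by linarith
  have hE := Real.exp_pos ε
  have hy0 : 0 ≤ y := le_trans (sq_nonneg _) hy
  have hnb : 0 ≤ nb q (u + 1) (1 : ℝ) := nb_nonneg zero_le_one
  set Y : ℝ := y ^ q * ((1 + y) ^ u * nb q (u + 1) 1) with hY
  have hY0 : 0 ≤ Y := by positivity
  have hN := N2_nonneg f
  set K : ℝ := 2 * a * Real.exp (2 * a) * N2 f * Y * (2 * (Real.exp ε / ε) ^ 2) with hK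
  have hK0 : 0 ≤ K := by positivity
  have h1 := Complex.hasSum_re (hi_sum ha hε hf u q r hu)
  rw [Complex.ofReal_re] at h1
  have hsz := zsummable (D := D) 0
  simp only [sub_zero] at hsz
  have h2 := (hsz.hasSum.mul_left K).neg
  refine hasSum_le (fun ρ => ?_) h2 h1
  have hμ : (0 : ℝ) ≤ mu ρ := Nat.cast_nonneg _
  set w : ℂ := (ρ : ℂ) - 1 / 2 with hw
  have wim : w.im = (ρ : ℂ).im := by rw [hw]; simp
  have wre : w.re = (ρ : ℂ).re - 1 / 2 := by rw [hw]; simp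
  have hbase : 0 ≤ K * ((mu ρ : ℝ) * (1 / (1 + (ρ : ℂ).im ^ 2))) := by positivity
  have ecast : (mu ρ : ℂ) * (GG f f w * hi u q (sg ε w ^ 2)) =
      ((mu ρ : ℝ) : ℂ) * (GG f f w * hi u q (sg ε w ^ 2)) := by push_cast; rfl
  rw [ecast, Complex.re_ofReal_mul]
  rcases le_or_gt |(ρ : ℂ).im| T with h | h
  · -- low zeros
    have h3 : 0 ≤ (GG f f w * hi u q (sg ε w ^ 2)).re := by
      rcases lt_trichotomy ((ρ : ℂ).re) (1 / 2) with h4 | h4 | h4
      · have h5 : TT f (-conj w) = 0 := by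
          rw [hw, ← rfZ_sub]
          refine hz (rfZ ρ) ?_ ?_
          · show 1 / 2 < (1 - conj (ρ : ℂ)).re
            simp only [Complex.sub_re, Complex.one_re, Complex.conj_re]
            linarith
          · show |(1 - conj (ρ : ℂ)).im| ≤ T
            simpa using h
        unfold GG
        rw [h5, map_zero, mul_zero, zero_mul, Complex.zero_re]
      · have h5 : w = (w.im : ℂ) * I := by
          apply Complex.ext
          · simp [wre, h4]
          · simp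
        have h6 : GG f f w = ((‖TT f (w.im * I)‖ ^ 2 : ℝ) : ℂ) := by
          have := GG_line f w.im
          rw [← this]
          congr 1
          apply Complex.ext
          · simp [wre, h4]
          · simp
        have h7 : sg ε w ^ 2 = ((sq ε w.im : ℝ) : ℂ) := by
          conv_lhs => rw [h5]
          rw [sg_line hε]
          unfold LW.sq
          push_cast
          rfl
        have h8 : hi u q ((sq ε w.im : ℝ) : ℂ) = ((hi u q (sq ε w.im) : ℝ) : ℂ) :=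
          (hi_map Complex.ofRealHom u q (sq ε w.im)).symm
        rw [h6, h7, h8, ← Complex.ofReal_mul, Complex.ofReal_re]
        exact mul_nonneg (sq_nonneg _) (hi_nonneg (sq_nonneg' _ _) (sq_le_one _ _))
      · have h5 : TT f w = 0 := hz ρ h4 h
        unfold GG
        rw [h5, zero_mul, zero_mul, Complex.zero_re]
    have := mul_nonneg hμ h3
    linarith
  · -- high zeros
    have hw1 : |w.re| ≤ 1 := half_re ρ
    have h3 := sg_far hε hw1
    have hγ0 : 0 < |(ρ : ℂ).im| := by linarith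
    have h4 : |(ρ : ℂ).im| * ‖sg ε w‖ ≤ Real.exp ε / ε := by
      refine le_trans ?_ h3
      refine mul_le_mul_of_nonneg_right ?_ (norm_nonneg _)
      rw [← wim]
      exact Complex.abs_im_le_norm w
    have h5 : (ρ : ℂ).im ^ 2 * ‖sg ε w ^ 2‖ ≤ (Real.exp ε / ε) ^ 2 := by
      have := pow_le_pow_left₀ (by positivity) h4 2
      rwa [mul_pow, sq_abs, ← norm_pow] at this
    have h6 : T ^ 2 ≤ (ρ : ℂ).im ^ 2 := by
      rw [← sq_abs (ρ : ℂ).im]
      exact pow_le_pow_left₀ hT0.le h.le 2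
    have hγ1 : 1 ≤ (ρ : ℂ).im ^ 2 := by nlinarith
    have h7 : ‖sg ε w ^ 2‖ ≤ y := by
      refine le_trans ?_ hy
      have e : (Real.exp ε / (ε * T)) ^ 2 = (Real.exp ε / ε) ^ 2 / T ^ 2 := by rw [← div_div, div_pow (Real.exp ε / ε)]
      rw [e, le_div_iff₀ (by positivity), mul_comm]
      exact (mul_le_mul_of_nonneg_right h6 (norm_nonneg _)).trans h5
    have h8 := norm_hi_le (u := u) (q := q) h7
    have h9 : ‖hi u q (sg ε w ^ 2)‖ ≤ (2 * (Real.exp ε / ε) ^ 2) * Y * (1 / (1 + (ρ : ℂ).im ^ 2)) := by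
      refine h8.trans ?_
      have k1 : ‖sg ε w ^ 2‖ ≤ (2 * (Real.exp ε / ε) ^ 2) * (1 / (1 + (ρ : ℂ).im ^ 2)) := by
        rw [mul_one_div, le_div_iff₀ (by positivity)]
        nlinarith [norm_nonneg (sg ε w ^ 2)]
      calc ‖sg ε w ^ 2‖ * Y ≤ ((2 * (Real.exp ε / ε) ^ 2) * (1 / (1 + (ρ : ℂ).im ^ 2))) * Y :=
            mul_le_mul_of_nonneg_right k1 hY0
        _ = _ := by ring
    have h10 := norm_GG ha hf.1 hw1
    rw [mul_one] at h10
    have h11 : ‖GG f f w * hi u q (sg ε w ^ 2)‖ ≤ K * (1 / (1 + (ρ : ℂ).im ^ 2)) := by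
      rw [norm_mul]
      calc ‖GG f f w‖ * ‖hi u q (sg ε w ^ 2)‖ ≤ (2 * a * Real.exp (2 * a) * N2 f) *
            ((2 * (Real.exp ε / ε) ^ 2) * Y * (1 / (1 + (ρ : ℂ).im ^ 2))) :=
              mul_le_mul h10 h9 (norm_nonneg _) (by positivity)
        _ = _ := by rw [hK]; ring
    have h12 := (Complex.abs_re_le_norm (GG f f w * hi u q (sg ε w ^ 2))).trans h11
    have h13 := neg_le_of_abs_le h12
    calc -(K * ((mu ρ : ℝ) * (1 / (1 + (ρ : ℂ).im ^ 2)))) = (mu ρ : ℝ) * (-(K * (1 / (1 + (ρ : ℂ).im ^ 2)))) := by ring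
      _ ≤ _ := mul_le_mul_of_nonneg_left h13 hμ

end

end Pool.Agent.Zk2.LX
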