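import Pool.Agent.Zk2.LX.C

/-! # The sharp local Weil criterion: the side of the primes -/

set_option autoImplicit false
set_option linter.unusedSectionVars false
set_option maxHeartbeats 1000000

open Complex Filter Topology Set MeasureTheory
open scoped ComplexConjugate

namespace Pool.Agent.Zk2.LX

open Pool.Agent.Y23 (TT Fa N2 plancherel N2_nonneg norm_TT_le)
open Pool.Agent.Y23.G (gsq gsq_nonneg gsq_cont gsq_int CC CC_zero Fa_shift Lg one_le_Lg Hd TT_shift GG GG_line QQ four_one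
  weil aL GD GD_cont GD_bd LFun)
open Pool.Agent.Zk2.WP (Av sg Av_Fa TT_Av sg_sub)
open Pool.Agent.Zk2.LW (sg_line sg_mul sg_conj Ai Ai_Fa TT_Ai sq sq_nonneg' sq_le_one sq_cont gsq_Ai Hd_Ai GG_Ai Hd_mono
  norm_GG GD_int Di Di_Fa TT_Di gsq_Di sg_diff)

/-- the high-pass density -/
noncomputable def Pf (ε : ℝ) (u q : ℕ) (f : ℝ → ℂ) (v : ℝ) : ℝ := lo u (q + 1) (sq ε v) * gsq f v

lemma Pf_nonneg (ε : ℝ) (u q : ℕ) (f : ℝ → ℂ) (v : ℝ) : 0 ≤ Pf ε u q f v :=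
  mul_nonneg (lo_nonneg (sq_nonneg' _ _) (sq_le_one _ _)) (gsq_nonneg _ _)

lemma Pf_le (ε : ℝ) (u q : ℕ) (f : ℝ → ℂ) (v : ℝ) : Pf ε u q f v ≤ gsq f v := by
  unfold Pf
  have h1 := lo_le_one (u := u) (q := q) (sq_nonneg' ε v) (sq_le_one ε v)
  have h2 := gsq_nonneg f v
  nlinarith

section
variable {a ε : ℝ} {f : ℝ → ℂ} {u r : ℕ}

lemma Pf_eq (hε : 0 < ε) (hf : Hd a f) (hu : u + 1 = 2 * r) (q : ℕ) (v : ℝ) :
    Pf ε u q f v = ∑ j ∈ Finset.range (q + 1), ((u + j).choose j : ℝ) * gsq (Gj ε f r j) v := by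
  unfold Pf lo nb
  rw [Finset.mul_sum, Finset.sum_mul]
  refine Finset.sum_congr rfl fun j _ => ?_
  rw [gsq_Gj hε hf, hu]
  ring

lemma Pf_cont (hε : 0 < ε) (hf : Hd a f) (hu : u + 1 = 2 * r) (q : ℕ) : Continuous (Pf ε u q f) := by
  have : Pf ε u q f = fun v => ∑ j ∈ Finset.range (q + 1), ((u + j).choose j : ℝ) * gsq (Gj ε f r j) v :=
    funext fun v => Pf_eq hε hf hu q v
  rw [this]
  exact continuous_finset_sum _ fun j _ => (gsq_cont (Gj_Hd hε hf r j).1).const_mul _ |>.congr fun _ => rfl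

lemma Pf_int (hε : 0 < ε) (hf : Hd a f) (hu : u + 1 = 2 * r) (q : ℕ) : Integrable (Pf ε u q f) :=
  Integrable.mono' (gsq_int hf.1) (Pf_cont hε hf hu q).aestronglyMeasurable (Eventually.of_forall fun v => by
    rw [Real.norm_of_nonneg (Pf_nonneg _ _ _ _ _)]
    exact Pf_le _ _ _ _ _)

/-- the total of the high-pass density -/
noncomputable def JJ (ε : ℝ) (u q : ℕ) (f : ℝ → ℂ) : ℝ := 1 / (2 * Real.pi) * ∫ v : ℝ, Pf ε u q f v

lemma JJ_nonneg (ε : ℝ) (u q : ℕ) (f : ℝ → ℂ) : 0 ≤ JJ ε u q f :=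
  mul_nonneg (by have := Real.pi_pos; positivity) (integral_nonneg fun v => Pf_nonneg _ _ _ _ _)

lemma JJ_eq (ε : ℝ) (u q : ℕ) (f : ℝ → ℂ) : ∫ v : ℝ, Pf ε u q f v = 2 * Real.pi * JJ ε u q f := by
  unfold JJ
  have := Real.pi_pos
  field_simp

lemma sum_N2 (hε : 0 < ε) (hf : Hd a f) (hu : u + 1 = 2 * r) (q : ℕ) :
    ∑ j ∈ Finset.range (q + 1), ((u + j).choose j : ℝ) * N2 (Gj ε f r j) = JJ ε u q f := by
  have hpi := Real.pi_pos
  have h1 : ∀ j ∈ Finset.range (q + 1), Integrable (fun v : ℝ => ((u + j).choose j : ℝ) * gsq (Gj ε f r j) v) :=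
    fun j _ => (gsq_int (Gj_Hd hε hf r j).1).const_mul _
  have h2 := integral_finsetSum _ h1
  have e1 : (fun v : ℝ => Pf ε u q f v) = fun v => ∑ j ∈ Finset.range (q + 1), ((u + j).choose j : ℝ) * gsq (Gj ε f r j) v :=
    funext fun v => Pf_eq hε hf hu q v
  unfold JJ
  rw [e1, h2, Finset.mul_sum]
  refine Finset.sum_congr rfl fun j _ => ?_
  have h3 : ∫ v : ℝ, gsq (Gj ε f r j) v = 2 * Real.pi * N2 (Gj ε f r j) := plancherel (Gj_Hd hε hf r j).1
  rw [integral_const_mul, h3]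
  field_simp

variable [L : LFun]

lemma GD_Pf_int (hε : 0 < ε) (hf : Hd a f) (hu : u + 1 = 2 * r) (q : ℕ) :
    Integrable (fun v : ℝ => GD (L := L) v * Pf ε u q f v) := by
  refine Integrable.mono' (GD_int (L := L) hf).norm (GD_cont.mul (Pf_cont hε hf hu q)).aestronglyMeasurable
    (Eventually.of_forall fun v => ?_)
  rw [norm_mul, norm_mul, Real.norm_of_nonneg (gsq_nonneg f v), Real.norm_of_nonneg (Pf_nonneg _ _ _ _ _)]
  exact mul_le_mul_of_nonneg_left (Pf_le _ _ _ _ _) (norm_nonneg _)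

lemma sum_GD (hε : 0 < ε) (hf : Hd a f) (hu : u + 1 = 2 * r) (q : ℕ) :
    ∑ j ∈ Finset.range (q + 1), ((u + j).choose j : ℝ) * (∫ v : ℝ, GD (L := L) v * ‖TT (Gj ε f r j) (v * I)‖ ^ 2) =
      ∫ v : ℝ, GD v * Pf ε u q f v := by
  have h1 : ∀ j ∈ Finset.range (q + 1), Integrable (fun v : ℝ => ((u + j).choose j : ℝ) * (GD (L := L) v * gsq (Gj ε f r j) v)) :=
    fun j _ => (GD_int (L := L) (Gj_Hd hε hf r j)).const_mul _
  have h2 := integral_finsetSum _ h1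
  have e1 : (fun v : ℝ => GD (L := L) v * Pf ε u q f v) =
      fun v => ∑ j ∈ Finset.range (q + 1), ((u + j).choose j : ℝ) * (GD (L := L) v * gsq (Gj ε f r j) v) := by
    funext v
    rw [Pf_eq hε hf hu, Finset.mul_sum]
    exact Finset.sum_congr rfl fun j _ => by ring
  rw [e1, h2]
  refine Finset.sum_congr rfl fun j _ => ?_
  rw [integral_const_mul]
  rfl

/-- the lower bound of the filtered form -/
theorem prime_side {b lam : ℝ} (hb : 0 < b) (hε : 0 < ε) (hf : Hd a f) (hu : u + 1 = 2 * r) (q : ℕ)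
    (hab : a + ((u : ℝ) + 1 + q) * ε ≤ b)
    (hS : ∀ g : ℝ → ℂ, Fa b g → 2 * (∑ n ∈ Finset.Icc 1 ⌊Real.exp (2 * b)⌋₊, aL (L := L) n *
      ∫ x : ℝ, g (x + Real.log n) * conj (g x)).re ≤ lam * N2 g) :
    1 / (2 * Real.pi) * (∫ v : ℝ, GD (L := L) v * Pf ε u q f v) - lam * JJ ε u q f -
      2 * L.r * (‖GG f f (1 / 2)‖ * ‖lo u (q + 1) (sg ε (1 / 2) ^ 2)‖) ≤ WP (D := Pool.Agent.Y23.G.zd (L := L)) ε u q r f := by
  have hpi := Real.pi_pos
  have hur : (2 : ℝ) * r = (u : ℝ) + 1 := by exact_mod_cast hu.symm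
  have hq : ∀ j ∈ Finset.range (q + 1), 2 * L.r * (((u + j).choose j : ℝ) * (GG (Gj ε f r j) (Gj ε f r j) (1 / 2)).re) +
      1 / (2 * Real.pi) * (((u + j).choose j : ℝ) * (∫ v : ℝ, GD (L := L) v * ‖TT (Gj ε f r j) (v * I)‖ ^ 2)) -
      lam * (((u + j).choose j : ℝ) * N2 (Gj ε f r j)) ≤
      ((u + j).choose j : ℝ) * QQ (D := Pool.Agent.Y23.G.zd (L := L)) (Gj ε f r j) := by
    intro j hj
    have hj' : (j : ℝ) ≤ q := by
      have := Finset.mem_range.1 hj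
      have h : j ≤ q := by omega
      exact_mod_cast h
    have hH : Hd b (Gj ε f r j) := Hd_mono (Gj_Hd hε hf r j) (by
      refine le_trans ?_ hab
      rw [hur]
      have := mul_le_mul_of_nonneg_right hj' hε.le
      linarith)
    rw [weil (L := L) hb hH]
    have e1 : (TT (Gj ε f r j) (1 / 2) * conj (TT (Gj ε f r j) (-(1 / 2)))) = GG (Gj ε f r j) (Gj ε f r j) (1 / 2) := by
      unfold GG
      congr 3
      rw [map_div₀, map_one, map_ofNat]
    rw [e1]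
    have h1 := hS _ hH.1
    have h2 : (0 : ℝ) ≤ ((u + j).choose j : ℝ) := Nat.cast_nonneg _
    have h3 := mul_le_mul_of_nonneg_left h1 h2
    linarith
  refine le_trans ?_ (Finset.sum_le_sum hq)
  rw [Finset.sum_sub_distrib, Finset.sum_add_distrib, ← Finset.mul_sum, ← Finset.mul_sum,
    ← Finset.mul_sum, sum_GD hε hf hu, sum_N2 hε hf hu]
  -- the poles
  have h1 : |∑ j ∈ Finset.range (q + 1), ((u + j).choose j : ℝ) * (GG (Gj ε f r j) (Gj ε f r j) (1 / 2)).re| ≤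
      ‖GG f f (1 / 2)‖ * ‖lo u (q + 1) (sg ε (1 / 2) ^ 2)‖ := by
    have e1 : ∑ j ∈ Finset.range (q + 1), ((u + j).choose j : ℝ) * (GG (Gj ε f r j) (Gj ε f r j) (1 / 2)).re =
        (GG f f (1 / 2) * lo u (q + 1) (sg ε (1 / 2) ^ 2)).re := by
      unfold lo nb
      rw [Finset.mul_sum, Finset.mul_sum, Complex.re_sum]
      refine Finset.sum_congr rfl fun j _ => ?_
      rw [GG_Gj hε hf, hu, ← Complex.re_ofReal_mul]
      congr 1
      push_cast
      ring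
    rw [e1, ← norm_mul]
    exact Complex.abs_re_le_norm _
  have h4 := neg_le_of_abs_le h1
  have h5 : (0 : ℝ) ≤ 2 * L.r := by positivity
  have h6 := mul_le_mul_of_nonneg_left h4 h5
  linarith

end

end Pool.Agent.Zk2.LX
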