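import Pool.Agent.Zk2.LX.D

/-! # The sharp local Weil criterion: the uncertainty principle -/

set_option autoImplicit false
set_option linter.unusedSectionVars false
set_option maxHeartbeats 1000000

open Complex Filter Topology Set MeasureTheory Metric
open scoped ComplexConjugate

namespace Pool.Agent.Zk2.LX

open Pool.Agent.Y23 (TT Fa N2 plancherel N2_nonneg norm_TT_le)
open Pool.Agent.Y23.G (gsq gsq_nonneg gsq_cont gsq_int Lg Hd GD GD_cont LFun)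
open Pool.Agent.Zk2.WP (Av sg Av_Fa TT_Av sg_sub)
open Pool.Agent.Zk2.LW (sq sq_nonneg' sq_le_one sq_cont Hd_mono unc_point Di Di_Fa TT_Di gsq_Di one_sub_sq_le)

section
variable {a ε : ℝ} {f : ℝ → ℂ} {u r : ℕ}

/-- the norm of the differences -/
lemma N2_Di (hε : 0 < ε) (hf : Hd a f) (hu : u + 1 = 2 * r) (q : ℕ) :
    N2 (Di ε f (u + 1)) ≤ (4 / ε ^ 2) ^ (u + 1) * JJ ε u q f := by
  have hpi := Real.pi_pos
  have h1 : ∫ v : ℝ, gsq (Di ε f (u + 1)) v = 2 * Real.pi * N2 (Di ε f (u + 1)) := plancherel (Di_Fa hε hf.1 (u + 1))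
  have h2 : ∫ v : ℝ, gsq (Di ε f (u + 1)) v ≤ ∫ v : ℝ, (4 / ε ^ 2) ^ (u + 1) * Pf ε u q f v := by
    refine integral_mono (gsq_int (Di_Fa hε hf.1 (u + 1))) ((Pf_int hε hf hu q).const_mul _) fun v => ?_
    show gsq (Di ε f (u + 1)) v ≤ (4 / ε ^ 2) ^ (u + 1) * Pf ε u q f v
    rw [gsq_Di hε hf.1]
    unfold Pf
    rw [← mul_assoc]
    refine mul_le_mul_of_nonneg_right ?_ (gsq_nonneg f v)
    have h3 := diff_le hε v
    have h4 : 0 ≤ v ^ 2 * sq ε v := mul_nonneg (sq_nonneg _) (sq_nonneg' _ _)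
    have h5 := pow_le_pow_left₀ h4 h3 (u + 1)
    rw [mul_pow (4 / ε ^ 2)] at h5
    exact h5.trans (mul_le_mul_of_nonneg_left (pow_le_lo (sq_nonneg' _ _) (sq_le_one _ _)) (by positivity))
  rw [integral_const_mul, JJ_eq, h1] at h2
  have h3 : 2 * Real.pi * N2 (Di ε f (u + 1)) ≤ 2 * Real.pi * ((4 / ε ^ 2) ^ (u + 1) * JJ ε u q f) := by linarith
  exact le_of_mul_le_mul_left h3 (by positivity)

/-- the bound at low frequencies -/
lemma low_freq (hε : 0 < ε) (hf : Hd a f) (hu : u + 1 = 2 * r) (q : ℕ) {b M : ℝ} (hb : 0 < b)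
    (hab : a + ((u : ℝ) + 1) * ε ≤ b) (hθ : ((u : ℝ) + 1) * ε ≤ b)
    (hM : 4 * Real.exp 2 * b ^ 2 ≤ M * ((((u : ℝ) + 1) * ε) ^ 2 * (1 - (((u : ℝ) + 1) * ε / b) ^ 2 / 3)))
    {v : ℝ} (hv : |v| ≤ ((u : ℝ) + 1) / b) : gsq f v ≤ 2 * b * M ^ (u + 1) * JJ ε u q f := by
  set n : ℝ := (u : ℝ) + 1 with hn
  have hn0 : 0 < n := by rw [hn]; positivity
  set θ : ℝ := n * ε / b with hθd
  have hθ0 : 0 < θ := by positivity
  have hθ1 : θ ≤ 1 := by rw [hθd, div_le_one hb]; exact hθ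
  have hs0 : 0 < 1 - θ ^ 2 / 3 := by nlinarith
  have hJ := JJ_nonneg ε u q f
  have hab' : a + ((u + 1 : ℕ) : ℝ) * ε ≤ b := by push_cast; exact hab
  have h1 := unc_point hb hε (r := n / b) (by positivity) (u + 1) hab' hf.1 hv
  have h2 := N2_Di hε hf hu q
  have h3 : 0 ≤ 2 * b * Real.exp (2 * b * (n / b)) / ((n / b) ^ 2) ^ (u + 1) := by positivity
  have h4 := h1.trans (mul_le_mul_of_nonneg_left h2 h3)
  have h5 : 1 - θ ^ 2 / 3 ≤ sq ε v := by
    have k1 : |ε * v| ≤ θ := by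
      rw [abs_mul, abs_of_pos hε, hθd]
      calc ε * |v| ≤ ε * (n / b) := mul_le_mul_of_nonneg_left hv hε.le
        _ = n * ε / b := by ring
    have k2 := one_sub_sq_le (ε := ε) (v := v) (by linarith)
    have k3 : (ε * v) ^ 2 ≤ θ ^ 2 := by
      rw [← sq_abs]
      exact pow_le_pow_left₀ (abs_nonneg _) k1 2
    linarith
  have h6 : (1 - θ ^ 2 / 3) ^ (u + 1) * gsq f v ≤ sq ε v ^ (u + 1) * gsq f v :=
    mul_le_mul_of_nonneg_right (pow_le_pow_left₀ hs0.le h5 _) (gsq_nonneg f v)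
  have h7 := h6.trans h4
  have e1 : Real.exp (2 * b * (n / b)) = Real.exp 2 ^ (u + 1) := by
    have : 2 * b * (n / b) = ((u + 1 : ℕ) : ℝ) * 2 := by
      push_cast
      rw [← hn]
      field_simp
    rw [this, Real.exp_nat_mul]
  have e2 : 2 * b * Real.exp (2 * b * (n / b)) / ((n / b) ^ 2) ^ (u + 1) * ((4 / ε ^ 2) ^ (u + 1) * JJ ε u q f) =
      2 * b * (4 * Real.exp 2 * b ^ 2 / (n * ε) ^ 2) ^ (u + 1) * JJ ε u q f := by
    rw [e1]
    have : (4 * Real.exp 2 * b ^ 2 / (n * ε) ^ 2) ^ (u + 1) =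
        Real.exp 2 ^ (u + 1) * ((4 / ε ^ 2) ^ (u + 1) / ((n / b) ^ 2) ^ (u + 1)) := by
      rw [← div_pow, ← mul_pow]
      congr 1
      field_simp
    rw [this]
    ring
  rw [e2] at h7
  have h8 : 4 * Real.exp 2 * b ^ 2 / (n * ε) ^ 2 ≤ (1 - θ ^ 2 / 3) * M := by
    rw [div_le_iff₀ (by positivity)]
    linarith
  have h9 : (4 * Real.exp 2 * b ^ 2 / (n * ε) ^ 2) ^ (u + 1) ≤ (1 - θ ^ 2 / 3) ^ (u + 1) * M ^ (u + 1) := by
    rw [← mul_pow]
    exact pow_le_pow_left₀ (by positivity) h8 _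
  have h10 : (1 - θ ^ 2 / 3) ^ (u + 1) * gsq f v ≤ (1 - θ ^ 2 / 3) ^ (u + 1) * (2 * b * M ^ (u + 1) * JJ ε u q f) := by
    refine h7.trans ?_
    calc 2 * b * (4 * Real.exp 2 * b ^ 2 / (n * ε) ^ 2) ^ (u + 1) * JJ ε u q f ≤
        2 * b * ((1 - θ ^ 2 / 3) ^ (u + 1) * M ^ (u + 1)) * JJ ε u q f := by gcongr
      _ = _ := by ring
  exact le_of_mul_le_mul_left h10 (by positivity)

lemma M_pos {b M n : ℝ} (hn : 0 < n) (hε : 0 < ε) (hb : 0 < b) (hθ : n * ε ≤ b)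
    (hM : 4 * Real.exp 2 * b ^ 2 ≤ M * ((n * ε) ^ 2 * (1 - (n * ε / b) ^ 2 / 3))) : 0 < M := by
  by_contra hcon
  rw [not_lt] at hcon
  have hθ0 : 0 < n * ε / b := by positivity
  have hθ1 : n * ε / b ≤ 1 := by rw [div_le_one hb]; exact hθ
  have hs0 : 0 < 1 - (n * ε / b) ^ 2 / 3 := by nlinarith
  have h1 : M * ((n * ε) ^ 2 * (1 - (n * ε / b) ^ 2 / 3)) ≤ 0 := mul_nonpos_of_nonpos_of_nonneg hcon (by positivity)
  have h2 : 0 < 4 * Real.exp 2 * b ^ 2 := by positivity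
  linarith

/-- the high-pass density at very low frequencies -/
lemma Pf_low (hε : 0 < ε) (hf : Hd a f) (hu : u + 1 = 2 * r) (q : ℕ) {b M K T1 : ℝ} (hb : 0 < b)
    (hab : a + ((u : ℝ) + 1) * ε ≤ b) (hθ : ((u : ℝ) + 1) * ε ≤ b)
    (hM : 4 * Real.exp 2 * b ^ 2 ≤ M * ((((u : ℝ) + 1) * ε) ^ 2 * (1 - (((u : ℝ) + 1) * ε / b) ^ 2 / 3)))
    (hK0 : 0 ≤ K) (hK : nb u (q + 1) (1 : ℝ) ≤ K ^ (u + 1)) (hT0 : 0 ≤ T1) (hT1 : T1 ≤ ((u : ℝ) + 1) / b)
    {v : ℝ} (hv : |v| ≤ T1) : Pf ε u q f v ≤ 2 * b * (K * M * ((ε * T1) ^ 2 / 3)) ^ (u + 1) * JJ ε u q f := by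
  have hn0 : (0 : ℝ) < (u : ℝ) + 1 := by positivity
  have hM0 := M_pos hn0 hε hb hθ hM
  have h1 := low_freq hε hf hu q hb hab hθ hM (hv.trans hT1)
  have h2 := lo_le (u := u) (q := q + 1) (sq_nonneg' ε v) (sq_le_one ε v)
  have hJ := JJ_nonneg ε u q f
  have k1 : |ε * v| ≤ ε * T1 := by
    rw [abs_mul, abs_of_pos hε]
    exact mul_le_mul_of_nonneg_left hv hε.le
  have k2 : ε * T1 ≤ 1 := by
    calc ε * T1 ≤ ε * (((u : ℝ) + 1) / b) := mul_le_mul_of_nonneg_left hT1 hε.le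
      _ = ((u : ℝ) + 1) * ε / b := by ring
      _ ≤ 1 := by rw [div_le_one hb]; exact hθ
  have h3 : 1 - sq ε v ≤ (ε * T1) ^ 2 / 3 := by
    have k3 := one_sub_sq_le (ε := ε) (v := v) (by linarith)
    have k4 : (ε * v) ^ 2 ≤ (ε * T1) ^ 2 := by
      rw [← sq_abs]
      exact pow_le_pow_left₀ (abs_nonneg _) k1 2
    linarith
  have h4 : 0 ≤ 1 - sq ε v := by linarith [sq_le_one ε v]
  have h5 := nb_nonneg (u := u) (q := q + 1) (zero_le_one (α := ℝ))
  unfold Pf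
  calc lo u (q + 1) (sq ε v) * gsq f v ≤ (K ^ (u + 1) * ((ε * T1) ^ 2 / 3) ^ (u + 1)) * (2 * b * M ^ (u + 1) * JJ ε u q f) := by
        refine mul_le_mul (h2.trans ?_) h1 (gsq_nonneg f v) (by positivity)
        exact mul_le_mul hK (pow_le_pow_left₀ h4 h3 _) (by positivity) (by positivity)
    _ = 2 * b * (K * M * ((ε * T1) ^ 2 / 3)) ^ (u + 1) * JJ ε u q f := by
        rw [mul_pow (K * M), mul_pow K]
        ring

/-- the norm is bounded by the total of the high-pass density -/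
lemma N2_le (hε : 0 < ε) (hf : Hd a f) (hu : u + 1 = 2 * r) (q : ℕ) {b M : ℝ} (hb : 0 < b)
    (hab : a + ((u : ℝ) + 1) * ε ≤ b) (hθ : ((u : ℝ) + 1) * ε ≤ b)
    (hM : 4 * Real.exp 2 * b ^ 2 ≤ M * ((((u : ℝ) + 1) * ε) ^ 2 * (1 - (((u : ℝ) + 1) * ε / b) ^ 2 / 3))) :
    N2 f ≤ 2 * ((u : ℝ) + 1) * M ^ (u + 1) * JJ ε u q f := by
  have hM0 : 0 < M := M_pos (by positivity) hε hb hθ hM
  have hlow := fun (v : ℝ) (hv : |v| ≤ ((u : ℝ) + 1) / b) => low_freq hε hf hu q hb hab hθ hM hv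
  set n : ℝ := (u : ℝ) + 1 with hn
  have hn1 : 1 ≤ n := by rw [hn]; have : (0 : ℝ) ≤ u := Nat.cast_nonneg u; linarith
  have hn0 : 0 < n := by linarith
  set θ : ℝ := n * ε / b with hθd
  have hθ0 : 0 < θ := by positivity
  have hθ1 : θ ≤ 1 := by rw [hθd, div_le_one hb]; exact hθ
  have hs0 : 0 < 1 - θ ^ 2 / 3 := by nlinarith
  have hJ := JJ_nonneg ε u q f
  have hpi := Real.pi_gt_three
  have hnε : n * ε = θ * b := by rw [hθd]; field_simp
  have hMθ : 1 ≤ M * (θ ^ 2 / (4 + θ ^ 2)) := by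
    have h1 : 4 * Real.exp 2 * b ^ 2 ≤ M * (θ ^ 2 * (1 - θ ^ 2 / 3)) * b ^ 2 := by
      rw [hnε] at hM
      linarith
    have h2 : 4 * Real.exp 2 ≤ M * (θ ^ 2 * (1 - θ ^ 2 / 3)) := le_of_mul_le_mul_right h1 (by positivity)
    have h3 : M * (θ ^ 2 * (1 - θ ^ 2 / 3)) ≤ M * θ ^ 2 := by
      refine mul_le_mul_of_nonneg_left ?_ hM0.le
      nlinarith [sq_nonneg θ]
    have h4 : 3 ≤ Real.exp 2 := by linarith [Real.add_one_le_exp (2 : ℝ)]
    have h5 : 5 ≤ M * θ ^ 2 := by linarith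
    rw [mul_div_assoc', le_div_iff₀ (by positivity)]
    nlinarith
  set K : ℝ := M ^ (u + 1) with hK
  have hK0 : 0 ≤ K := by positivity
  have hpt : ∀ v : ℝ, gsq f v ≤ (Icc (-(n / b)) (n / b)).indicator (fun _ => 2 * b * K * JJ ε u q f) v + K * Pf ε u q f v := by
    intro v
    have hP := Pf_nonneg ε u q f v
    by_cases hv : v ∈ Icc (-(n / b)) (n / b)
    · rw [indicator_of_mem hv]
      have := hlow v (abs_le.2 hv)
      have h2 : 0 ≤ K * Pf ε u q f v := mul_nonneg hK0 hP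
      linarith
    · rw [indicator_of_notMem hv, zero_add]
      have hv' : n / b < |v| := by
        by_contra hcon
        rw [not_lt] at hcon
        exact hv (abs_le.1 hcon)
      have h0 : θ ^ 2 ≤ (ε * v) ^ 2 := by
        rw [← sq_abs (ε * v), abs_mul, abs_of_pos hε]
        refine pow_le_pow_left₀ hθ0.le ?_ 2
        calc θ = ε * (n / b) := by rw [hθd]; ring
          _ ≤ ε * |v| := mul_le_mul_of_nonneg_left hv'.le hε.le
      have h1 : θ ^ 2 / (4 + θ ^ 2) ≤ 1 - sq ε v := by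
        have k1 := sq_frac ε v
        have k2 : sq ε v ≤ 4 / (4 + θ ^ 2) := by
          rw [le_div_iff₀ (by positivity)]
          have := sq_nonneg' ε v
          nlinarith
        have k3 : θ ^ 2 / (4 + θ ^ 2) = 1 - 4 / (4 + θ ^ 2) := by field_simp; ring
        linarith
      have h1' : 1 ≤ M * (1 - sq ε v) := hMθ.trans (mul_le_mul_of_nonneg_left h1 hM0.le)
      have h2 : 1 ≤ K * (1 - sq ε v) ^ (u + 1) := by
        rw [hK, ← mul_pow]
        exact one_le_pow₀ h1'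
      have h3 : 1 ≤ K * lo u (q + 1) (sq ε v) :=
        h2.trans (mul_le_mul_of_nonneg_left (pow_le_lo (sq_nonneg' ε v) (sq_le_one ε v)) hK0)
      unfold Pf
      have := gsq_nonneg f v
      nlinarith
  have h1 : ∫ v : ℝ, gsq f v = 2 * Real.pi * N2 f := plancherel hf.1
  have hi1 : Integrable ((Icc (-(n / b)) (n / b)).indicator (fun _ : ℝ => 2 * b * K * JJ ε u q f)) :=
    (integrable_indicator_iff measurableSet_Icc).2 (integrableOn_const (by
      rw [Real.volume_Icc]; exact ENNReal.ofReal_ne_top))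
  have h2 := integral_mono (gsq_int hf.1) (hi1.add ((Pf_int hε hf hu q).const_mul K)) hpt
  have h3 : ∫ v : ℝ, ((Icc (-(n / b)) (n / b)).indicator (fun _ => 2 * b * K * JJ ε u q f) v + K * Pf ε u q f v) =
      4 * n * K * JJ ε u q f + K * (2 * Real.pi * JJ ε u q f) := by
    rw [integral_add hi1 ((Pf_int hε hf hu q).const_mul K), integral_indicator measurableSet_Icc, setIntegral_const,
      integral_const_mul, JJ_eq]
    congr 1
    rw [Measure.real, Real.volume_Icc, ENNReal.toReal_ofReal (by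
      have : 0 ≤ n / b := by positivity
      linarith), smul_eq_mul]
    field_simp
    ring
  have h4 : 2 * Real.pi * N2 f ≤ 4 * n * K * JJ ε u q f + K * (2 * Real.pi * JJ ε u q f) := by
    rw [← h1, ← h3]
    exact h2
  have h5 : 4 * n * K * JJ ε u q f + K * (2 * Real.pi * JJ ε u q f) ≤
      2 * Real.pi * (2 * n * K * JJ ε u q f) := by
    have k1 : 0 ≤ K * JJ ε u q f := mul_nonneg hK0 hJ
    have k2 : 4 * n + 2 * Real.pi ≤ 2 * Real.pi * (2 * n) := by nlinarith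
    have k3 := mul_le_mul_of_nonneg_right k2 k1
    linarith
  have h6 := h4.trans h5
  exact le_of_mul_le_mul_left h6 (by positivity)

variable [L : LFun]

/-- the archimedean side -/
lemma arch (hε : 0 < ε) (hf : Hd a f) (hu : u + 1 = 2 * r) (q : ℕ) {b M K T1 lam κ D0 : ℝ} (hb : 0 < b)
    (hab : a + ((u : ℝ) + 1) * ε ≤ b) (hθ : ((u : ℝ) + 1) * ε ≤ b)
    (hM : 4 * Real.exp 2 * b ^ 2 ≤ M * ((((u : ℝ) + 1) * ε) ^ 2 * (1 - (((u : ℝ) + 1) * ε / b) ^ 2 / 3)))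
    (hK0 : 0 ≤ K) (hK : nb u (q + 1) (1 : ℝ) ≤ K ^ (u + 1)) (hT0 : 0 ≤ T1) (hT1 : T1 ≤ ((u : ℝ) + 1) / b)
    (hκ : 0 ≤ κ + lam + D0) (hG1 : ∀ v : ℝ, T1 ≤ |v| → lam + κ ≤ GD (L := L) v) (hG2 : ∀ v : ℝ, -D0 ≤ GD (L := L) v)
    (hsm : (κ + lam + D0) * T1 * (2 * b * (K * M * ((ε * T1) ^ 2 / 3)) ^ (u + 1)) ≤ κ) :
    κ / 2 * JJ ε u q f ≤ 1 / (2 * Real.pi) * (∫ v : ℝ, GD (L := L) v * Pf ε u q f v) - lam * JJ ε u q f := by
  have hJ := JJ_nonneg ε u q f
  have hpi := Real.pi_gt_three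
  have hM0 : 0 < M := M_pos (by positivity) hε hb hθ hM
  set S : ℝ := 2 * b * (K * M * ((ε * T1) ^ 2 / 3)) ^ (u + 1) with hS
  have hS0 : 0 ≤ S := by positivity
  set W : ℝ := (κ + lam + D0) * (S * JJ ε u q f) with hW
  have hW0 : 0 ≤ W := by positivity
  have hpt : ∀ v : ℝ, (lam + κ) * Pf ε u q f v - (Icc (-T1) T1).indicator (fun _ => W) v ≤ GD (L := L) v * Pf ε u q f v := by
    intro v
    have hP := Pf_nonneg ε u q f v
    by_cases hv : v ∈ Icc (-T1) T1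
    · rw [indicator_of_mem hv]
      have h2 := Pf_low hε hf hu q hb hab hθ hM hK0 hK hT0 hT1 (abs_le.2 hv)
      have h4 := mul_le_mul_of_nonneg_right (hG2 v) hP
      have h5 := mul_le_mul_of_nonneg_left h2 hκ
      rw [hW]
      linarith
    · rw [indicator_of_notMem hv, sub_zero]
      have hv' : T1 ≤ |v| := by
        by_contra hcon
        rw [not_le] at hcon
        exact hv (abs_le.1 hcon.le)
      exact mul_le_mul_of_nonneg_right (hG1 v hv') hP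
  have hi1 : Integrable ((Icc (-T1) T1).indicator (fun _ : ℝ => W)) :=
    (integrable_indicator_iff measurableSet_Icc).2 (integrableOn_const (by
      rw [Real.volume_Icc]; exact ENNReal.ofReal_ne_top))
  have hPi := Pf_int hε hf hu q
  have hGi := GD_Pf_int (L := L) hε hf hu q
  have h1 := integral_mono ((hPi.const_mul (lam + κ)).sub hi1) hGi hpt
  have h2 : ∫ v : ℝ, ((lam + κ) * Pf ε u q f v - (Icc (-T1) T1).indicator (fun _ => W) v) =
      (lam + κ) * (2 * Real.pi * JJ ε u q f) - 2 * T1 * W := by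
    rw [integral_sub (hPi.const_mul _) hi1, integral_indicator measurableSet_Icc, setIntegral_const, integral_const_mul, JJ_eq]
    congr 1
    rw [Measure.real, Real.volume_Icc, ENNReal.toReal_ofReal (by linarith), smul_eq_mul]
    ring
  have h3 : (lam + κ) * (2 * Real.pi * JJ ε u q f) - 2 * T1 * W ≤ ∫ v : ℝ, GD (L := L) v * Pf ε u q f v := by
    rw [← h2]
    exact h1
  have h4 : T1 * W ≤ κ * JJ ε u q f := by
    have := mul_le_mul_of_nonneg_right hsm hJ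
    calc T1 * W = (κ + lam + D0) * T1 * S * JJ ε u q f := by rw [hW]; ring
      _ ≤ _ := this
  have h5 : 1 / (2 * Real.pi) * ((lam + κ) * (2 * Real.pi * JJ ε u q f) - 2 * T1 * W) ≤
      1 / (2 * Real.pi) * ∫ v : ℝ, GD (L := L) v * Pf ε u q f v := mul_le_mul_of_nonneg_left h3 (by positivity)
  have e1 : 1 / (2 * Real.pi) * ((lam + κ) * (2 * Real.pi * JJ ε u q f) - 2 * T1 * W) =
      (lam + κ) * JJ ε u q f - T1 * W / Real.pi := by
    have := Real.pi_pos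
    field_simp
  have h6 : T1 * W / Real.pi ≤ κ / 2 * JJ ε u q f := by
    rw [div_le_iff₀ (by linarith)]
    have h7 : 0 ≤ κ * JJ ε u q f := le_trans (by positivity) h4
    nlinarith
  rw [e1] at h5
  linarith

end

end Pool.Agent.Zk2.LX
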