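import Pool.Agent.Zk2.LX.E

/-! # The sharp local Weil criterion: the master inequality -/

set_option autoImplicit false
set_option linter.unusedSectionVars false
set_option maxHeartbeats 1000000

open Complex Filter Topology Set MeasureTheory Metric
open scoped ComplexConjugate

namespace Pool.Agent.Zk2.LX

open Pool.Agent.Y23 (TT Fa N2 plancherel N2_nonneg norm_TT_le)
open Pool.Agent.Y23.G (gsq gsq_nonneg gsq_cont gsq_int Lg Hd GD GD_cont LFun GG QQ Zt mu zd aL)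
open Pool.Agent.Zk2.WP (Av sg Av_Fa TT_Av sg_sub)
open Pool.Agent.Zk2.LW (sq sq_nonneg' sq_le_one sq_cont Hd_mono norm_GG)

/-- the multiplier at the poles -/
lemma pole_le {ε : ℝ} (hε : 0 < ε) (hε1 : ε ≤ 1 / 4) : ‖1 - sg ε (1 / 2) ^ 2‖ ≤ 3 * ε := by
  have e1 : ‖(1 / 2 : ℂ)‖ = 1 / 2 := by norm_num
  have h1 := sg_sub hε (1 / 2) (by rw [e1]; linarith)
  rw [e1] at h1
  have h2 : ‖1 - sg ε (1 / 2)‖ ≤ ε := by
    rw [norm_sub_rev]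
    linarith
  have h3 : ‖1 + sg ε (1 / 2)‖ ≤ 3 := by
    have : 1 + sg ε (1 / 2) = 2 - (1 - sg ε (1 / 2)) := by ring
    rw [this]
    refine (norm_sub_le _ _).trans ?_
    rw [Complex.norm_two]
    linarith
  have : 1 - sg ε (1 / 2) ^ 2 = (1 - sg ε (1 / 2)) * (1 + sg ε (1 / 2)) := by ring
  rw [this, norm_mul]
  calc ‖1 - sg ε (1 / 2)‖ * ‖1 + sg ε (1 / 2)‖ ≤ ε * 3 := mul_le_mul h2 h3 (norm_nonneg _) hε.le
    _ = _ := mul_comm _ _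

section
variable [L : LFun]

/-- THE MASTER INEQUALITY -/
theorem master {a ε b b' M K y T T1 lam κ D0 : ℝ} {u q r : ℕ} (ha : 0 < a) (hε : 0 < ε) (hε1 : ε ≤ 1 / 4)
    (hu : u + 1 = 2 * r) (hb : 0 < b) (hb' : 0 < b') (hab : a + ((u : ℝ) + 1) * ε ≤ b) (hθ : ((u : ℝ) + 1) * ε ≤ b)
    (hab' : a + ((u : ℝ) + 1 + q) * ε ≤ b')
    (hS : ∀ g : ℝ → ℂ, Fa b' g → 2 * (∑ n ∈ Finset.Icc 1 ⌊Real.exp (2 * b')⌋₊, aL (L := L) n *
      ∫ x : ℝ, g (x + Real.log n) * conj (g x)).re ≤ lam * N2 g)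
    (hM : 4 * Real.exp 2 * b ^ 2 ≤ M * ((((u : ℝ) + 1) * ε) ^ 2 * (1 - (((u : ℝ) + 1) * ε / b) ^ 2 / 3)))
    (hK0 : 0 ≤ K) (hK : nb u (q + 1) (1 : ℝ) ≤ K ^ (u + 1)) (hK2 : nb q (u + 1) (1 : ℝ) ≤ K ^ (u + 1))
    (hT0 : 0 ≤ T1) (hT1 : T1 ≤ ((u : ℝ) + 1) / b)
    (hκ : 0 ≤ κ + lam + D0) (hG1 : ∀ v : ℝ, T1 ≤ |v| → lam + κ ≤ GD (L := L) v) (hG2 : ∀ v : ℝ, -D0 ≤ GD (L := L) v)
    (hsm : (κ + lam + D0) * T1 * (2 * b * (K * M * ((ε * T1) ^ 2 / 3)) ^ (u + 1)) ≤ κ)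
    (hpole : 2 * L.r * (2 * a * Real.exp a) * ((3 * ε) ^ (u + 1) * ((1 + 3 * ε) ^ q * K ^ (u + 1))) *
      (2 * ((u : ℝ) + 1) * M ^ (u + 1)) ≤ κ / 8)
    (hT : 1 ≤ T) (hy : (Real.exp ε / (ε * T)) ^ 2 ≤ y)
    (hzero : 2 * a * Real.exp (2 * a) * (y ^ q * ((1 + y) ^ u * K ^ (u + 1))) * (2 * (Real.exp ε / ε) ^ 2) *
      (∑' ρ : Zt (D := zd (L := L)), (mu (D := zd (L := L)) ρ : ℝ) * (1 / (1 + (ρ : ℂ).im ^ 2))) *
      (2 * ((u : ℝ) + 1) * M ^ (u + 1)) ≤ κ / 8) {f : ℝ → ℂ} (hf : Hd a f)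
    (hz : ∀ ρ : Zt (D := zd (L := L)), 1 / 2 < (ρ : ℂ).re → |(ρ : ℂ).im| ≤ T → TT f ((ρ : ℂ) - 1 / 2) = 0) :
    κ / 4 * JJ ε u q f ≤ QQ (D := zd (L := L)) f := by
  have hJ := JJ_nonneg ε u q f
  have hN := N2_nonneg f
  have hM0 : 0 < M := M_pos (by positivity) hε hb hθ hM
  have hy0 : 0 ≤ y := le_trans (sq_nonneg _) hy
  set Z : ℝ := ∑' ρ : Zt (D := zd (L := L)), (mu (D := zd (L := L)) ρ : ℝ) * (1 / (1 + (ρ : ℂ).im ^ 2)) with hZ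
  have hZ0 : 0 ≤ Z := tsum_nonneg fun ρ => by positivity
  have hr0 : (0 : ℝ) ≤ L.r := Nat.cast_nonneg _
  have hnb0 : 0 ≤ nb q (u + 1) (1 : ℝ) := nb_nonneg zero_le_one
  have h1 := zero_side (D := zd (L := L)) ha hε hT hy hf u q r hu hz
  have h2 := prime_side (L := L) hb' hε hf hu q hab' hS
  have h3 := arch (L := L) hε hf hu q hb hab hθ hM hK0 hK hT0 hT1 hκ hG1 hG2 hsm
  have h4 := N2_le hε hf hu q hb hab hθ hM
  -- the poles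
  have h5 : 2 * L.r * (‖GG f f (1 / 2)‖ * ‖lo u (q + 1) (sg ε (1 / 2) ^ 2)‖) ≤ κ / 8 * JJ ε u q f := by
    have k1 : ‖GG f f (1 / 2)‖ ≤ 2 * a * Real.exp a * N2 f := by
      have := norm_GG (w := 1 / 2) (K := 1 / 2) ha hf.1 (by norm_num)
      have e : 2 * a * (1 / 2) = a := by ring
      rwa [e] at this
    have k2 : ‖lo u (q + 1) (sg ε (1 / 2) ^ 2)‖ ≤ (3 * ε) ^ (u + 1) * ((1 + 3 * ε) ^ q * K ^ (u + 1)) := by
      refine (norm_lo_le (pole_le hε hε1)).trans ?_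
      gcongr
    calc 2 * L.r * (‖GG f f (1 / 2)‖ * ‖lo u (q + 1) (sg ε (1 / 2) ^ 2)‖)
        ≤ 2 * L.r * ((2 * a * Real.exp a * N2 f) * ((3 * ε) ^ (u + 1) * ((1 + 3 * ε) ^ q * K ^ (u + 1)))) := by
          refine mul_le_mul_of_nonneg_left ?_ (by positivity)
          exact mul_le_mul k1 k2 (norm_nonneg _) (by positivity)
      _ = 2 * L.r * (2 * a * Real.exp a) * ((3 * ε) ^ (u + 1) * ((1 + 3 * ε) ^ q * K ^ (u + 1))) * N2 f := by ring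
      _ ≤ 2 * L.r * (2 * a * Real.exp a) * ((3 * ε) ^ (u + 1) * ((1 + 3 * ε) ^ q * K ^ (u + 1))) *
            (2 * ((u : ℝ) + 1) * M ^ (u + 1) * JJ ε u q f) := mul_le_mul_of_nonneg_left h4 (by positivity)
      _ = 2 * L.r * (2 * a * Real.exp a) * ((3 * ε) ^ (u + 1) * ((1 + 3 * ε) ^ q * K ^ (u + 1))) *
            (2 * ((u : ℝ) + 1) * M ^ (u + 1)) * JJ ε u q f := by ring
      _ ≤ _ := mul_le_mul_of_nonneg_right hpole hJ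
  -- the zeros
  have h6 : 2 * a * Real.exp (2 * a) * N2 f * (y ^ q * ((1 + y) ^ u * nb q (u + 1) 1)) * (2 * (Real.exp ε / ε) ^ 2) * Z ≤
      κ / 8 * JJ ε u q f := by
    calc 2 * a * Real.exp (2 * a) * N2 f * (y ^ q * ((1 + y) ^ u * nb q (u + 1) 1)) * (2 * (Real.exp ε / ε) ^ 2) * Z
        ≤ 2 * a * Real.exp (2 * a) * N2 f * (y ^ q * ((1 + y) ^ u * K ^ (u + 1))) * (2 * (Real.exp ε / ε) ^ 2) * Z := by
          gcongr
      _ = (2 * a * Real.exp (2 * a) * (y ^ q * ((1 + y) ^ u * K ^ (u + 1))) * (2 * (Real.exp ε / ε) ^ 2) * Z) * N2 f := by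
          ring
      _ ≤ (2 * a * Real.exp (2 * a) * (y ^ q * ((1 + y) ^ u * K ^ (u + 1))) * (2 * (Real.exp ε / ε) ^ 2) * Z) *
            (2 * ((u : ℝ) + 1) * M ^ (u + 1) * JJ ε u q f) := mul_le_mul_of_nonneg_left h4 (by positivity)
      _ = (2 * a * Real.exp (2 * a) * (y ^ q * ((1 + y) ^ u * K ^ (u + 1))) * (2 * (Real.exp ε / ε) ^ 2) * Z *
            (2 * ((u : ℝ) + 1) * M ^ (u + 1))) * JJ ε u q f := by ring
      _ ≤ _ := mul_le_mul_of_nonneg_right hzero hJ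
  linarith

end

/-- the weights -/
lemma nb_bound {p : ℕ} (hp : 1 ≤ p) : nb (p - 1) (3 * p + 1) (1 : ℝ) ≤ (256 / 27) ^ p ∧
    nb (3 * p) (p - 1 + 1) (1 : ℝ) ≤ (256 / 27) ^ p := by
  obtain ⟨u, rfl⟩ := Nat.exists_eq_add_of_le' hp
  have e : u + 1 - 1 = u := by omega
  rw [e]
  constructor
  · have h := nb_one_le (u := u) (q := 3 * (u + 1)) (x := 3 / 4) (by norm_num) (by norm_num)
    refine h.trans (le_of_eq ?_)
    have e1 : (1 / (3 / 4) : ℝ) ^ (3 * (u + 1)) = ((1 / (3 / 4) : ℝ) ^ 3) ^ (u + 1) := by rw [← pow_mul]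
    rw [e1, ← mul_pow]
    norm_num
  · have h := nb_one_le (u := 3 * (u + 1)) (q := u) (x := 1 / 4) (by norm_num) (by norm_num)
    refine h.trans ?_
    have e1 : (1 / (1 - 1 / 4) : ℝ) ^ (3 * (u + 1) + 1) = ((4 / 3 : ℝ) ^ 3) ^ (u + 1) * (4 / 3) := by
      rw [pow_succ, pow_mul]; norm_num
    have e2 : (256 / 27 : ℝ) ^ (u + 1) = 4 ^ (u + 1) * ((4 / 3 : ℝ) ^ 3) ^ (u + 1) := by
      rw [← mul_pow]; norm_num
    have e3 : (1 / (1 / 4) : ℝ) ^ u = 4 ^ u := by norm_num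
    rw [e1, e2, e3, pow_succ 4 u]
    have h1 : (0 : ℝ) ≤ 4 ^ u * ((4 / 3 : ℝ) ^ 3) ^ (u + 1) := by positivity
    nlinarith

end Pool.Agent.Zk2.LX
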