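import Pool.Agent.Zk2.LX.F

/-! # The sharp local Weil criterion: the parameters -/

set_option autoImplicit false
set_option linter.unusedSectionVars false
set_option maxHeartbeats 4000000

open Complex Filter Topology Set MeasureTheory Metric
open scoped ComplexConjugate

namespace Pool.Agent.Zk2.LX

open Pool.Agent.Y23 (TT Fa N2 plancherel N2_nonneg norm_TT_le)
open Pool.Agent.Y23.G (gsq gsq_nonneg gsq_cont gsq_int Lg Hd GD GD_cont LFun GG QQ Zt mu zd aL)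

section
variable [L : LFun]

/-- the parametric form -/
theorem param {a θ M y T T1 lam κ D0 Z : ℝ} {p : ℕ} (ha : 0 < a) (hθ0 : 0 < θ) (hθ1 : θ ≤ 1 / 4)
    (hM : M * (θ ^ 2 * (1 - θ ^ 2 / 3)) = 4 * Real.exp 2)
    (hS : ∀ g : ℝ → ℂ, Fa (a * (1 + 3 * θ) / (1 - θ)) g →
      2 * (∑ n ∈ Finset.Icc 1 ⌊Real.exp (2 * (a * (1 + 3 * θ) / (1 - θ)))⌋₊, aL (L := L) n *
      ∫ x : ℝ, g (x + Real.log n) * conj (g x)).re ≤ lam * N2 g)
    (hZ : ∑' ρ : Zt (D := zd (L := L)), (mu (D := zd (L := L)) ρ : ℝ) * (1 / (1 + (ρ : ℂ).im ^ 2)) ≤ Z)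
    (hκ0 : 0 < κ) (hκ : 0 ≤ κ + lam + D0) (hT0 : 0 ≤ T1) (hG1 : ∀ v : ℝ, T1 ≤ |v| → lam + κ ≤ GD (L := L) v)
    (hG2 : ∀ v : ℝ, -D0 ≤ GD (L := L) v) (hp2 : Even p) (hp1 : 1 ≤ p)
    (hpT : 14 * (a / (1 - θ)) * T1 ≤ p) (hpM : 120 * M * (θ * (a / (1 - θ))) ≤ p)
    (hc1 : (κ + lam + D0) * p ≤ 7 * κ * 2 ^ p) (hc2 : 64 * L.r * (a * Real.exp a) * p ≤ κ * 2 ^ p)
    (hc3 : 256 * (a * Real.exp (2 * a)) * Z * (p : ℝ) ^ 3 ≤ κ * (θ * (a / (1 - θ))) ^ 2 * 2 ^ p)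
    (hy0 : 0 < y) (hyM : y ^ 3 * (1 + y) * (256 / 27 * M) ≤ 1 / 2) (hT : 1 ≤ T)
    (hTy : (Real.exp (θ * (a / (1 - θ)) / p) * p) ^ 2 ≤ y * (θ * (a / (1 - θ)) * T) ^ 2) :
    ∃ c : ℝ, 0 < c ∧ ∀ f : ℝ → ℂ, Hd a f →
      (∀ ρ : Zt (D := zd (L := L)), 1 / 2 < (ρ : ℂ).re → |(ρ : ℂ).im| ≤ T → TT f ((ρ : ℂ) - 1 / 2) = 0) →
      c * N2 f ≤ QQ (D := zd (L := L)) f := by
  obtain ⟨u, rfl⟩ := Nat.exists_eq_add_of_le' hp1
  obtain ⟨r, hr⟩ := hp2
  have hu : u + 1 = 2 * r := by omega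
  set b : ℝ := a / (1 - θ) with hb
  have h1θ : 0 < 1 - θ := by linarith
  have hb0 : 0 < b := by positivity
  set n : ℝ := (u : ℝ) + 1 with hn
  have hnc : ((u + 1 : ℕ) : ℝ) = n := by rw [hn]; push_cast; rfl
  have hn0 : 0 < n := by rw [hn]; positivity
  have hn1 : 1 ≤ n := by rw [hn]; have : (0 : ℝ) ≤ u := Nat.cast_nonneg u; linarith
  rw [hnc] at hpT hpM hc1 hc2 hc3 hTy
  set ε : ℝ := θ * b / n with hεd
  have hε : 0 < ε := by positivity
  have hnε : n * ε = θ * b := by rw [hεd]; field_simp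
  have hbθ : b * (1 - θ) = a := by rw [hb]; field_simp
  have hs0 : 0 < 1 - θ ^ 2 / 3 := by nlinarith
  have he2 : 7 ≤ Real.exp 2 := by
    have h1 := Real.exp_one_gt_d9
    have h2 : Real.exp 2 = Real.exp 1 * Real.exp 1 := by rw [← Real.exp_add]; norm_num
    rw [h2]
    nlinarith
  have he2' : Real.exp 2 ≤ 739 / 100 := by
    have h1 := Real.exp_one_lt_d9
    have h2 : Real.exp 2 = Real.exp 1 * Real.exp 1 := by rw [← Real.exp_add]; norm_num
    have h3 := Real.exp_pos 1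
    rw [h2]
    nlinarith
  have hM0 : 28 ≤ M := by
    have h1 : θ ^ 2 * (1 - θ ^ 2 / 3) ≤ 1 := by nlinarith [sq_nonneg θ]
    by_contra hcon
    rw [not_le] at hcon
    have h2 : 0 < θ ^ 2 * (1 - θ ^ 2 / 3) := by positivity
    have h3 : M * (θ ^ 2 * (1 - θ ^ 2 / 3)) < 28 * (θ ^ 2 * (1 - θ ^ 2 / 3)) := mul_lt_mul_of_pos_right hcon h2
    nlinarith
  have hMpos : 0 < M := by linarith
  have hε1 : 60 * (2 * M * ε) ≤ 1 := by
    rw [hεd]
    have : 60 * (2 * M * (θ * b / n)) = 120 * M * (θ * b) / n := by ring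
    rw [this, div_le_one hn0]
    exact hpM
  have hεM : M * ε ≤ 1 / 120 := by linarith
  have hε4 : ε ≤ 1 / 3360 := by
    have : 28 * ε ≤ M * ε := mul_le_mul_of_nonneg_right hM0 hε.le
    linarith
  have hT1n : T1 ≤ n / b := by
    rw [le_div_iff₀ hb0]
    nlinarith [mul_nonneg hT0 hb0.le]
  have hp1' : u + 1 - 1 = u := by omega
  obtain ⟨hK, hK2⟩ := nb_bound (p := u + 1) (by omega)
  rw [hp1'] at hK hK2
  have hEE : Real.exp ε ≤ 2 := by
    have h1 : Real.exp ε ≤ Real.exp (1 / 2) := Real.exp_le_exp.2 (by linarith)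
    have h2 : Real.exp (1 / 2) ≤ 2 := by
      have h3 : Real.exp (1 / 2) ^ 2 = Real.exp 1 := by rw [← Real.exp_nat_mul]; norm_num
      have h4 := Real.exp_one_lt_d9
      have h5 := Real.exp_pos (1 / 2)
      nlinarith
    linarith
  have hb3 : a + (n + ((3 * (u + 1) : ℕ) : ℝ)) * ε = a * (1 + 3 * θ) / (1 - θ) := by
    push_cast
    have : ((u : ℝ) + 1) = n := rfl
    rw [this]
    have e1 : (n + 3 * n) * ε = 4 * (θ * b) := by rw [← hnε]; ring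
    rw [e1, hb]
    field_simp
    ring
  have hrow : ∀ x : ℝ, 0 ≤ x → x ≤ 1 / 2 → x ^ (u + 1) ≤ (1 / 2) ^ (u + 1) := fun x h0 h => pow_le_pow_left₀ h0 h _
  have h2p : (1 / 2 : ℝ) ^ (u + 1) * 2 ^ (u + 1) = 1 := by rw [← mul_pow]; norm_num
  have hhalf : (0 : ℝ) < (1 / 2 : ℝ) ^ (u + 1) := by positivity
  have hZ0 : 0 ≤ ∑' ρ : Zt (D := zd (L := L)), (mu (D := zd (L := L)) ρ : ℝ) * (1 / (1 + (ρ : ℂ).im ^ 2)) :=
    tsum_nonneg fun ρ => by positivity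
  refine ⟨κ / (8 * n * M ^ (u + 1)), by positivity, fun f hf hz => ?_⟩
  have hm := master (L := L) (a := a) (ε := ε) (b := b) (b' := a * (1 + 3 * θ) / (1 - θ)) (M := M) (K := 256 / 27) (y := y)
    (T := T) (T1 := T1) (lam := lam) (κ := κ) (D0 := D0) (u := u) (q := 3 * (u + 1)) (r := r) ha hε (by linarith) hu hb0
    (by positivity) (by
      rw [← hn, hnε, ← hbθ]
      linarith) (by
      rw [← hn, hnε]
      nlinarith) (by
      rw [← hn, hb3]) hS (by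
      rw [← hn, hnε]
      have e1 : θ * b / b = θ := by field_simp
      rw [e1]
      have e2 : M * ((θ * b) ^ 2 * (1 - θ ^ 2 / 3)) = (M * (θ ^ 2 * (1 - θ ^ 2 / 3))) * b ^ 2 := by ring
      rw [e2, hM]) (by norm_num) hK hK2 hT0 hT1n hκ hG1 hG2 (by
      -- the smallness at low frequencies
      have k1 : 256 / 27 * M * ((ε * T1) ^ 2 / 3) ≤ 1 / 2 := by
        have e1 : (ε * T1) ^ 2 = θ ^ 2 * (b * T1 / n) ^ 2 := by rw [hεd]; ring
        have e2 : b * T1 / n ≤ 1 / 14 := by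
          rw [div_le_iff₀ hn0]
          linarith
        have e3 : (b * T1 / n) ^ 2 ≤ (1 / 14) ^ 2 := pow_le_pow_left₀ (by positivity) e2 2
        have e4 : M * θ ^ 2 ≤ 48 / 47 * (4 * (739 / 100)) := by
          have k2 : 47 / 48 ≤ 1 - θ ^ 2 / 3 := by nlinarith
          have k3 : M * θ ^ 2 * (47 / 48) ≤ M * θ ^ 2 * (1 - θ ^ 2 / 3) := mul_le_mul_of_nonneg_left k2 (by positivity)
          have k4 : M * θ ^ 2 * (1 - θ ^ 2 / 3) = 4 * Real.exp 2 := by rw [← hM]; ring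
          linarith
        rw [e1]
        calc 256 / 27 * M * (θ ^ 2 * (b * T1 / n) ^ 2 / 3) = 256 / 81 * (M * θ ^ 2) * (b * T1 / n) ^ 2 := by ring
          _ ≤ 256 / 81 * (48 / 47 * (4 * (739 / 100))) * (1 / 14) ^ 2 := by gcongr
          _ ≤ 1 / 2 := by norm_num
      have k2 := hrow _ (by positivity) k1
      have k3 : T1 * (2 * b) ≤ n / 7 := by linarith
      have k0 : 0 ≤ T1 * (2 * b) := by positivity
      calc (κ + lam + D0) * T1 * (2 * b * (256 / 27 * M * ((ε * T1) ^ 2 / 3)) ^ (u + 1))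
          = (κ + lam + D0) * (T1 * (2 * b)) * (256 / 27 * M * ((ε * T1) ^ 2 / 3)) ^ (u + 1) := by ring
        _ ≤ (κ + lam + D0) * (n / 7) * (1 / 2) ^ (u + 1) := by gcongr
        _ = ((κ + lam + D0) * n) / 7 * (1 / 2) ^ (u + 1) := by ring
        _ ≤ (7 * κ * 2 ^ (u + 1)) / 7 * (1 / 2) ^ (u + 1) := by gcongr
        _ = κ * ((1 / 2 : ℝ) ^ (u + 1) * 2 ^ (u + 1)) := by ring
        _ = κ := by rw [h2p, mul_one]) (by
      -- the poles
      have k1 : 3 * ε * ((1 + 3 * ε) ^ 3 * (256 / 27 * M)) ≤ 1 / 2 := by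
        have e1 : (1 + 3 * ε) ^ 3 ≤ (1 + 3 * (1 / 3360)) ^ 3 := by
          refine pow_le_pow_left₀ (by positivity) ?_ 3
          linarith
        calc 3 * ε * ((1 + 3 * ε) ^ 3 * (256 / 27 * M)) = 256 / 9 * (1 + 3 * ε) ^ 3 * (M * ε) := by ring
          _ ≤ 256 / 9 * (1 + 3 * (1 / 3360)) ^ 3 * (1 / 120) := by gcongr
          _ ≤ 1 / 2 := by norm_num
      have k2 := hrow _ (by positivity) k1
      have e3 : (3 * ε) ^ (u + 1) * ((1 + 3 * ε) ^ (3 * (u + 1)) * (256 / 27) ^ (u + 1)) * M ^ (u + 1) =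
          (3 * ε * ((1 + 3 * ε) ^ 3 * (256 / 27 * M))) ^ (u + 1) := by
        rw [mul_pow (3 * ε), mul_pow ((1 + 3 * ε) ^ 3), mul_pow (256 / 27) M, pow_mul]
        ring
      rw [← hn]
      calc 2 * L.r * (2 * a * Real.exp a) * ((3 * ε) ^ (u + 1) * ((1 + 3 * ε) ^ (3 * (u + 1)) * (256 / 27) ^ (u + 1))) *
          (2 * n * M ^ (u + 1)) = 8 * L.r * (a * Real.exp a) * n * ((3 * ε) ^ (u + 1) *
            ((1 + 3 * ε) ^ (3 * (u + 1)) * (256 / 27) ^ (u + 1)) * M ^ (u + 1)) := by ring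
        _ = 8 * L.r * (a * Real.exp a) * n * (3 * ε * ((1 + 3 * ε) ^ 3 * (256 / 27 * M))) ^ (u + 1) := by rw [e3]
        _ ≤ 8 * L.r * (a * Real.exp a) * n * (1 / 2) ^ (u + 1) := by gcongr
        _ = (64 * L.r * (a * Real.exp a) * n) / 8 * (1 / 2) ^ (u + 1) := by ring
        _ ≤ (κ * 2 ^ (u + 1)) / 8 * (1 / 2) ^ (u + 1) := by gcongr
        _ = κ / 8 * ((1 / 2 : ℝ) ^ (u + 1) * 2 ^ (u + 1)) := by ring
        _ = κ / 8 := by rw [h2p, mul_one]) hT (by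
      rw [div_pow, div_le_iff₀ (by positivity)]
      have e1 : Real.exp (θ * b / n) = Real.exp ε := rfl
      rw [e1] at hTy
      have e2 : (θ * b * T) ^ 2 = n ^ 2 * (ε * T) ^ 2 := by rw [← hnε]; ring
      rw [e2, mul_pow] at hTy
      have e3 : Real.exp ε ^ 2 * n ^ 2 ≤ (y * (ε * T) ^ 2) * n ^ 2 := by linarith
      exact le_of_mul_le_mul_right e3 (by positivity)) (by
      -- the zeros
      have k2 := hrow _ (by positivity) hyM
      have e3 : y ^ (3 * (u + 1)) * ((1 + y) ^ (u + 1) * (256 / 27) ^ (u + 1)) * M ^ (u + 1) =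
          (y ^ 3 * (1 + y) * (256 / 27 * M)) ^ (u + 1) := by
        rw [mul_pow (y ^ 3 * (1 + y)), mul_pow (y ^ 3), mul_pow (256 / 27) M, pow_mul]
        ring
      have e4 : (1 + y) ^ u ≤ (1 + y) ^ (u + 1) := pow_le_pow_right₀ (by linarith) (by omega)
      have e5 : (Real.exp ε / ε) ^ 2 ≤ 4 * (n ^ 2 / (θ * b) ^ 2) := by
        have : (Real.exp ε / ε) ^ 2 = Real.exp ε ^ 2 * (n ^ 2 / (θ * b) ^ 2) := by
          rw [hεd]
          field_simp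
        rw [this]
        refine mul_le_mul_of_nonneg_right ?_ (by positivity)
        have := pow_le_pow_left₀ (Real.exp_pos ε).le hEE 2
        linarith
      rw [← hn]
      set Z' : ℝ := ∑' ρ : Zt (D := zd (L := L)), (mu (D := zd (L := L)) ρ : ℝ) * (1 / (1 + (ρ : ℂ).im ^ 2)) with hZ'
      calc 2 * a * Real.exp (2 * a) * (y ^ (3 * (u + 1)) * ((1 + y) ^ u * (256 / 27) ^ (u + 1))) * (2 * (Real.exp ε / ε) ^ 2) *
          Z' * (2 * n * M ^ (u + 1))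
          ≤ 2 * a * Real.exp (2 * a) * (y ^ (3 * (u + 1)) * ((1 + y) ^ (u + 1) * (256 / 27) ^ (u + 1))) *
            (2 * (4 * (n ^ 2 / (θ * b) ^ 2))) * Z * (2 * n * M ^ (u + 1)) := by gcongr
        _ = 32 * (a * Real.exp (2 * a)) * Z * (n ^ 3 / (θ * b) ^ 2) * (y ^ (3 * (u + 1)) *
            ((1 + y) ^ (u + 1) * (256 / 27) ^ (u + 1)) * M ^ (u + 1)) := by ring
        _ = 32 * (a * Real.exp (2 * a)) * Z * (n ^ 3 / (θ * b) ^ 2) * (y ^ 3 * (1 + y) * (256 / 27 * M)) ^ (u + 1) := by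
            rw [e3]
        _ ≤ 32 * (a * Real.exp (2 * a)) * Z * (n ^ 3 / (θ * b) ^ 2) * (1 / 2) ^ (u + 1) := by
            have : 0 ≤ Z := hZ0.trans hZ
            gcongr
        _ = (256 * (a * Real.exp (2 * a)) * Z * n ^ 3) / (8 * (θ * b) ^ 2) * (1 / 2) ^ (u + 1) := by
            field_simp
            ring
        _ ≤ (κ * (θ * b) ^ 2 * 2 ^ (u + 1)) / (8 * (θ * b) ^ 2) * (1 / 2) ^ (u + 1) := by gcongr
        _ = κ / 8 * ((1 / 2 : ℝ) ^ (u + 1) * 2 ^ (u + 1)) := by field_simp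
        _ = κ / 8 := by rw [h2p, mul_one]) hf hz
  refine le_trans ?_ hm
  have h4 := N2_le hε hf hu (3 * (u + 1)) (b := b) (M := M) hb0 (by
      rw [← hn, hnε, ← hbθ]
      linarith) (by
      rw [← hn, hnε]
      nlinarith) (by
      rw [← hn, hnε]
      have e1 : θ * b / b = θ := by field_simp
      rw [e1]
      have e2 : M * ((θ * b) ^ 2 * (1 - θ ^ 2 / 3)) = (M * (θ ^ 2 * (1 - θ ^ 2 / 3))) * b ^ 2 := by ring
      rw [e2, hM])
  rw [← hn] at h4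
  calc κ / (8 * n * M ^ (u + 1)) * N2 f ≤ κ / (8 * n * M ^ (u + 1)) * (2 * n * M ^ (u + 1) * JJ ε u (3 * (u + 1)) f) :=
        mul_le_mul_of_nonneg_left h4 (by positivity)
    _ = κ / 4 * JJ ε u (3 * (u + 1)) f := by
        field_simp
        ring

end

end Pool.Agent.Zk2.LX
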