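import Pool.Agent.Zk2.WP.Lim

/-! # The sharp local Weil criterion: the digamma function -/

set_option autoImplicit false
set_option maxHeartbeats 1000000

open Complex Filter Topology Set MeasureTheory
open scoped ComplexConjugate

namespace Pool.Agent.Zk2.LX

open Pool.Agent.Zk2.WP (dg dg_eq digamma_lim ck ck_pos inv_re zL dg_ge)
open Pool.Agent.Y23.G (GD)

/-- one step -/
lemma h_step {x V : ℝ} (hx : 0 ≤ x) (hV : 2 ≤ V) :
    x / (x ^ 2 + V ^ 2) ≤ (Real.log ((x + 1) ^ 2 + V ^ 2) - Real.log (x ^ 2 + V ^ 2)) / 2 + 3 * (1 / (x + V - 1) - 1 / (x + V)) := by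
  have hA : 0 < x ^ 2 + V ^ 2 := by positivity
  have hB : 0 < (x + 1) ^ 2 + V ^ 2 := by positivity
  -- the logarithm
  have h1 : (2 * x + 1) / ((x + 1) ^ 2 + V ^ 2) ≤ Real.log ((x + 1) ^ 2 + V ^ 2) - Real.log (x ^ 2 + V ^ 2) := by
    rw [← Real.log_div hB.ne' hA.ne']
    have h2 := Real.one_sub_inv_le_log_of_pos (show 0 < ((x + 1) ^ 2 + V ^ 2) / (x ^ 2 + V ^ 2) by positivity)
    refine le_trans (le_of_eq ?_) h2
    rw [inv_div]
    field_simp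
    ring
  have h2 : 1 / (x + V) ^ 2 ≤ 1 / (x + V - 1) - 1 / (x + V) := by
    have h3 : 0 < x + V - 1 := by linarith
    have h4 : 0 < x + V := by linarith
    rw [div_sub_div _ _ h3.ne' h4.ne', div_le_div_iff₀ (by positivity) (by positivity)]
    nlinarith
  have h3 : 1 / (x ^ 2 + V ^ 2) ≤ 2 * (1 / (x + V) ^ 2) := by
    rw [mul_one_div, div_le_div_iff₀ hA (by positivity)]
    nlinarith [sq_nonneg (x - V)]
  have h4 : x / (x ^ 2 + V ^ 2) ≤ (2 * x + 1) / ((x + 1) ^ 2 + V ^ 2) / 2 + 3 / 2 * (1 / (x ^ 2 + V ^ 2)) := by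
    have e : (2 * x + 1) / ((x + 1) ^ 2 + V ^ 2) / 2 + 3 / 2 * (1 / (x ^ 2 + V ^ 2)) - x / (x ^ 2 + V ^ 2) =
        (4 * V ^ 2 + 4 * x + 3) / (2 * ((x + 1) ^ 2 + V ^ 2) * (x ^ 2 + V ^ 2)) := by
      field_simp
      ring
    have e2 : 0 ≤ (4 * V ^ 2 + 4 * x + 3) / (2 * ((x + 1) ^ 2 + V ^ 2) * (x ^ 2 + V ^ 2)) := by positivity
    linarith
  linarith

lemma h_sum {V : ℝ} (hV : 2 ≤ V) (K : ℕ) :
    ∑ k ∈ Finset.range K, ((k : ℝ) + 1 / 4) / (((k : ℝ) + 1 / 4) ^ 2 + V ^ 2) ≤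
      (Real.log (((K : ℝ) + 1 / 4) ^ 2 + V ^ 2) - Real.log ((1 / 4) ^ 2 + V ^ 2)) / 2 +
        3 * (1 / (V - 3 / 4) - 1 / ((K : ℝ) + V - 3 / 4)) := by
  induction K with
  | zero => simp
  | succ K ih =>
    rw [Finset.sum_range_succ]
    have h := h_step (x := (K : ℝ) + 1 / 4) (V := V) (by positivity) hV
    have e1 : (K : ℝ) + 1 / 4 + 1 = ((K + 1 : ℕ) : ℝ) + 1 / 4 := by push_cast; ring
    have e2 : (K : ℝ) + 1 / 4 + V - 1 = (K : ℝ) + V - 3 / 4 := by ring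
    have e3 : (K : ℝ) + 1 / 4 + V = ((K + 1 : ℕ) : ℝ) + V - 3 / 4 := by push_cast; ring
    rw [e1, e2, e3] at h
    linarith

lemma dg_lower {v : ℝ} (hv : 4 ≤ |v|) : Real.log (|v| / 2) - 3 / (|v| / 2 - 3 / 4) ≤ dg v := by
  set V : ℝ := |v| / 2 with hV
  have hV2 : 2 ≤ V := by linarith
  have hre : (1 / 4 + (v : ℂ) / 2 * I).re = 1 / 4 := by simp
  have h1 := (Complex.continuous_re.tendsto _).comp (digamma_lim (s := 1 / 4 + (v : ℂ) / 2 * I) (by rw [hre]; norm_num))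
  refine ge_of_tendsto h1 (Eventually.of_forall fun m => ?_)
  simp only [Function.comp_apply, Complex.sub_re, Complex.re_sum, Complex.log_re, WP.inv_re]
  have hs := h_sum hV2 (m + 2)
  have e1 : ∀ k : ℕ, 2 * (ck k / (ck k ^ 2 + v ^ 2)) = ((k : ℝ) + 1 / 4) / (((k : ℝ) + 1 / 4) ^ 2 + V ^ 2) := by
    intro k
    have hc := ck_pos k
    have : ck k = 2 * ((k : ℝ) + 1 / 4) := by unfold ck; ring
    have h2 : V ^ 2 = v ^ 2 / 4 := by rw [hV, div_pow, sq_abs]; norm_num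
    rw [this, h2]
    have h3 : 0 < ((k : ℝ) + 1 / 4) ^ 2 + v ^ 2 / 4 := by positivity
    have h4 : (2 * ((k : ℝ) + 1 / 4)) ^ 2 + v ^ 2 = 4 * (((k : ℝ) + 1 / 4) ^ 2 + v ^ 2 / 4) := by ring
    rw [h4]
    field_simp
    ring
  simp_rw [e1]
  have e2 : Real.log ‖(1 / 4 + (v : ℂ) / 2 * I) + ((m : ℂ) + 2)‖ = Real.log ((((m + 2 : ℕ) : ℝ) + 1 / 4) ^ 2 + V ^ 2) / 2 := by
    have h2 : V ^ 2 = (v / 2) ^ 2 := by rw [hV, div_pow, div_pow, sq_abs]
    have h3 : (1 / 4 + (v : ℂ) / 2 * I) + ((m : ℂ) + 2) = ((((m + 2 : ℕ) : ℝ) + 1 / 4 : ℝ) : ℂ) + ((v / 2 : ℝ) : ℂ) * I := by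
      push_cast; ring
    rw [h3, h2, Complex.norm_add_mul_I, Real.log_sqrt (by positivity)]
  rw [e2]
  have h5 : Real.log V ≤ Real.log ((1 / 4) ^ 2 + V ^ 2) / 2 := by
    have h6 : Real.log (V ^ 2) ≤ Real.log ((1 / 4) ^ 2 + V ^ 2) := Real.log_le_log (by positivity) (by linarith [sq_nonneg (1 / 4 : ℝ)])
    rw [Real.log_pow] at h6
    push_cast at h6
    linarith
  have h7 : 0 ≤ 1 / (((m + 2 : ℕ) : ℝ) + V - 3 / 4) := by
    have : (0 : ℝ) ≤ ((m + 2 : ℕ) : ℝ) := Nat.cast_nonneg _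
    have : 0 < ((m + 2 : ℕ) : ℝ) + V - 3 / 4 := by linarith
    positivity
  have e3 : 3 / (V - 3 / 4) = 3 * (1 / (V - 3 / 4)) := by ring
  rw [e3]
  linarith

lemma dg_zero_lower : -(11 / 2) ≤ dg 0 := by
  have hre : (1 / 4 + ((0 : ℝ) : ℂ) / 2 * I).re = 1 / 4 := by simp
  have h1 := (Complex.continuous_re.tendsto _).comp (digamma_lim (s := 1 / 4 + ((0 : ℝ) : ℂ) / 2 * I) (by rw [hre]; norm_num))
  refine ge_of_tendsto h1 (Eventually.of_forall fun m => ?_)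
  simp only [Function.comp_apply, Complex.sub_re, Complex.re_sum, Complex.log_re, WP.inv_re]
  have hs : ∀ K : ℕ, ∑ k ∈ Finset.range (K + 1), 1 / ((k : ℝ) + 1 / 4) ≤ 4 + (Real.log ((K : ℝ) + 1 / 4) - Real.log (1 / 4)) := by
    intro K
    induction K with
    | zero => simp
    | succ K ih =>
      rw [Finset.sum_range_succ]
      have h2 : 1 / (((K + 1 : ℕ) : ℝ) + 1 / 4) ≤ Real.log (((K + 1 : ℕ) : ℝ) + 1 / 4) - Real.log ((K : ℝ) + 1 / 4) := by
        rw [← Real.log_div (by positivity) (by positivity)]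
        have h3 := Real.one_sub_inv_le_log_of_pos (show 0 < (((K + 1 : ℕ) : ℝ) + 1 / 4) / ((K : ℝ) + 1 / 4) by positivity)
        refine le_trans (le_of_eq ?_) h3
        rw [inv_div]
        push_cast
        field_simp
        ring
      linarith
  have e1 : ∀ k : ℕ, 2 * (ck k / (ck k ^ 2 + (0 : ℝ) ^ 2)) = 1 / ((k : ℝ) + 1 / 4) := by
    intro k
    have hc := ck_pos k
    have : ck k = 2 * ((k : ℝ) + 1 / 4) := by unfold ck; ring
    rw [this]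
    field_simp
    ring
  simp_rw [e1]
  have e2 : Real.log ‖(1 / 4 + ((0 : ℝ) : ℂ) / 2 * I) + ((m : ℂ) + 2)‖ = Real.log (((m + 1 : ℕ) : ℝ) + 1 + 1 / 4) := by
    have h3 : (1 / 4 + ((0 : ℝ) : ℂ) / 2 * I) + ((m : ℂ) + 2) = ((((m + 1 : ℕ) : ℝ) + 1 + 1 / 4 : ℝ) : ℂ) := by
      push_cast; ring
    rw [h3, Complex.norm_real, Real.norm_of_nonneg (by positivity)]
  rw [e2]
  have h4 := hs (m + 1)
  have h5 : Real.log (((m + 1 : ℕ) : ℝ) + 1 / 4) ≤ Real.log (((m + 1 : ℕ) : ℝ) + 1 + 1 / 4) :=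
    Real.log_le_log (by positivity) (by linarith)
  have h6 : -(3 / 2) ≤ Real.log (1 / 4) := by
    have : Real.log (1 / 4) = -(2 * Real.log 2) := by
      rw [one_div, Real.log_inv]
      have : (4 : ℝ) = 2 ^ 2 := by norm_num
      rw [this, Real.log_pow]
      push_cast
      ring
    rw [this]
    linarith [Real.log_two_lt_d9]
  linarith

/-- the lower bounds of the density -/
theorem GD_lower {v : ℝ} (hv : 4 ≤ |v|) : Real.log (|v| / (2 * Real.pi)) - 6 / (|v| - 3 / 2) ≤ GD (L := zL) v := by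
  have h1 := dg_lower hv
  rw [← dg_eq]
  have hpi := Real.pi_pos
  have e1 : Real.log (|v| / (2 * Real.pi)) = Real.log (|v| / 2) - Real.log Real.pi := by
    rw [← div_div, Real.log_div (by positivity) hpi.ne']
  have e2 : 3 / (|v| / 2 - 3 / 4) = 6 / (|v| - 3 / 2) := by
    have : |v| / 2 - 3 / 4 = (|v| - 3 / 2) / 2 := by ring
    rw [this, div_div_eq_mul_div]
    norm_num
  rw [e1, ← e2]
  linarith

theorem GD_lower' (v : ℝ) : -7 ≤ GD (L := zL) v := by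
  rw [← dg_eq]
  have h1 := dg_ge v 0
  rw [Finset.sum_range_zero] at h1
  have h2 := dg_zero_lower
  have h3 : Real.log Real.pi ≤ 3 / 2 := by
    have h4 : Real.pi ≤ Real.exp 1 * Real.exp (1 / 2) := by
      have := Real.pi_lt_d2
      have h5 := Real.exp_one_gt_d9
      have h6 : 3 / 2 ≤ Real.exp (1 / 2) := by linarith [Real.add_one_le_exp (1 / 2 : ℝ)]
      nlinarith
    rw [← Real.exp_add] at h4
    have h5 := Real.log_le_log Real.pi_pos h4
    rw [Real.log_exp] at h5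
    linarith
  linarith

end Pool.Agent.Zk2.LX
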