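import Pool.Agent.Zk2.LX.V
import Pool.Agent.Zk2.WP.Fin

/-! # The sharp local Weil criterion: isolated zeros give negative squares -/

set_option autoImplicit false
set_option linter.unusedSectionVars false
set_option maxHeartbeats 4000000

open Complex Filter Topology Set MeasureTheory
open scoped ComplexConjugate

namespace Pool.Agent.Zk2.LX

namespace P

open Pool.Agent.Y23 (TT Fa N2 TT_sub TT_add TT_smul)
open Pool.Agent.Y23.G
open Pool.Agent.Zk2.WP (zL zero_iff sg Av)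
open Pool.Agent.Zk2.LW (Ai Ai_Fa TT_Ai sg_conj sg_mul sg_far')

/-! ## separated points -/

lemma int_summable : Summable fun k : ℤ => 3 / (1 + (k : ℝ) ^ 2) := by
  have h1 : Summable fun k : ℤ => 1 / (k : ℝ) ^ 2 := Real.summable_one_div_int_pow.2 (by norm_num)
  have h2 : Summable fun k : ℤ => if k = 0 then (1 : ℝ) else 0 := (hasSum_ite_eq (0 : ℤ) (1 : ℝ)).summable
  refine Summable.of_nonneg_of_le (fun k => by positivity) (fun k => ?_) ((h1.add h2).mul_left 3)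
  by_cases hk : k = 0
  · simp [hk]
  · rw [if_neg hk, add_zero]
    have h3 : (k : ℝ) ≠ 0 := by exact_mod_cast hk
    have h4 : (0 : ℝ) < (k : ℝ) ^ 2 := by positivity
    have h5 : 1 / (1 + (k : ℝ) ^ 2) ≤ 1 / (k : ℝ) ^ 2 := one_div_le_one_div_of_le h4 (by linarith)
    calc 3 / (1 + (k : ℝ) ^ 2) = 3 * (1 / (1 + (k : ℝ) ^ 2)) := by ring
      _ ≤ 3 * (1 / (k : ℝ) ^ 2) := by linarith

lemma sep_sum : ∃ K : ℝ, 0 < K ∧ ∀ (ι : Type) [Fintype ι] (y : ι → ℝ), (∀ i j, i ≠ j → 1 ≤ |y i - y j|) → ∀ t : ℝ,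
    ∑ i, 1 / (1 + (t - y i) ^ 2) ≤ K := by
  classical
  have hnn : 0 ≤ ∑' k : ℤ, 3 / (1 + (k : ℝ) ^ 2) := tsum_nonneg fun k => by positivity
  refine ⟨∑' k : ℤ, 3 / (1 + (k : ℝ) ^ 2) + 1, by linarith, fun ι _ y hy t => ?_⟩
  set φ : ι → ℤ := fun i => ⌊y i - t⌋ with hφ
  have hinj : Function.Injective φ := by
    intro i j hij
    by_contra hne
    have h1 := hy i j hne
    have h2 : |(y i - t) - (y j - t)| < 1 := Int.abs_sub_lt_one_of_floor_eq_floor hij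
    rw [show y i - t - (y j - t) = y i - y j by ring] at h2
    linarith
  have h1 : ∀ i, 1 / (1 + (t - y i) ^ 2) ≤ 3 / (1 + ((φ i : ℤ) : ℝ) ^ 2) := by
    intro i
    have h2 : ((φ i : ℤ) : ℝ) ≤ y i - t := Int.floor_le (y i - t)
    have h3 : y i - t < ((φ i : ℤ) : ℝ) + 1 := Int.lt_floor_add_one (y i - t)
    rw [div_le_div_iff₀ (by positivity) (by positivity)]
    nlinarith only [h2, h3, sq_nonneg (t - y i + (φ i : ℤ)), sq_nonneg (y i - t), sq_nonneg (2 * (y i - t) - (φ i : ℤ)),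
      mul_nonneg (sub_nonneg.2 h2) (sub_nonneg.2 h3.le)]
  calc ∑ i, 1 / (1 + (t - y i) ^ 2) ≤ ∑ i, 3 / (1 + ((φ i : ℤ) : ℝ) ^ 2) := Finset.sum_le_sum fun i _ => h1 i
    _ = ∑ k ∈ Finset.univ.image φ, 3 / (1 + (k : ℝ) ^ 2) := (Finset.sum_image (f := fun k : ℤ => 3 / (1 + (k : ℝ) ^ 2)) fun i _ j _ h => hinj h).symm
    _ ≤ ∑' k : ℤ, 3 / (1 + (k : ℝ) ^ 2) := int_summable.sum_le_tsum _ fun k _ => by positivity
    _ ≤ _ := by linarith

/-! ## the bump -/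

/-- the width of the second factor -/
noncomputable def ev (n : ℕ) : ℝ := 1 / (4 * n)

lemma ev_pos {n : ℕ} (hn : 1 ≤ n) : 0 < ev n := by
  have : (1 : ℝ) ≤ n := by exact_mod_cast hn
  unfold ev
  positivity

lemma ev_le {n : ℕ} (hn : 1 ≤ n) : ev n ≤ 1 / 2 := by
  have : (1 : ℝ) ≤ n := by exact_mod_cast hn
  unfold ev
  exact one_div_le_one_div_of_le (by norm_num) (by linarith)

lemma ev_mul {n : ℕ} (hn : 1 ≤ n) : n * ev n = 1 / 4 := by
  have : (n : ℝ) ≠ 0 := by exact_mod_cast (by omega : n ≠ 0)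
  unfold ev
  field_simp

noncomputable def h0 : ℝ → ℂ := (Icc (-(1 / 12)) (1 / 12)).indicator (fun _ : ℝ => (((2 * (1 / 12))⁻¹ : ℝ) : ℂ))

lemma h0_Fa : Fa (1 / 12) h0 := by
  refine ⟨memLp_indicator_const 2 measurableSet_Icc _ (Or.inr ?_), fun x hx => ?_⟩
  · rw [Real.volume_Icc]
    exact ENNReal.ofReal_ne_top
  · refine indicator_of_notMem (fun h => ?_) _
    exact absurd (abs_le.2 h) (not_le.2 hx)

lemma TT_h0 (w : ℂ) : TT h0 w = sg (1 / 12) w := by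
  unfold TT sg h0
  have e : ∀ x : ℝ, (Icc (-(1 / 12)) (1 / 12)).indicator (fun _ : ℝ => (((2 * (1 / 12))⁻¹ : ℝ) : ℂ)) x * cexp (w * x) =
      (Icc (-(1 / 12)) (1 / 12)).indicator (fun x : ℝ => (((2 * (1 / 12))⁻¹ : ℝ) : ℂ) * cexp (w * x)) x := by
    intro x
    by_cases hx : x ∈ Icc (-(1 / 12) : ℝ) (1 / 12)
    · rw [indicator_of_mem hx, indicator_of_mem hx]
    · rw [indicator_of_notMem hx, indicator_of_notMem hx, zero_mul]
  simp_rw [e]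
  rw [integral_indicator measurableSet_Icc, integral_const_mul, integral_Icc_eq_integral_Ioc,
    intervalIntegral.integral_of_le (by norm_num)]

noncomputable def p1 : ℝ → ℂ := Ai (1 / 12) h0 2

lemma p1_Fa : Fa (1 / 4) p1 := by
  have h := Ai_Fa (ε := 1 / 12) (by norm_num) h0_Fa 2
  exact h.mono (by norm_num)

lemma TT_p1 (w : ℂ) : TT p1 w = sg (1 / 12) w ^ 3 := by
  unfold p1
  rw [TT_Ai (by norm_num) h0_Fa, TT_h0]
  ring

noncomputable def ph (n : ℕ) : ℝ → ℂ := Ai (ev n) p1 n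

/-- the transform of the bump -/
noncomputable def SS (n : ℕ) (w : ℂ) : ℂ := sg (1 / 12) w ^ 3 * sg (ev n) w ^ n

lemma ph_Fa {n : ℕ} (hn : 1 ≤ n) : Fa (1 / 2) (ph n) := by
  have h := Ai_Fa (ev_pos hn) p1_Fa n
  rw [ev_mul hn] at h
  exact h.mono (by norm_num)

lemma TT_ph {n : ℕ} (hn : 1 ≤ n) (w : ℂ) : TT (ph n) w = SS n w := by
  unfold ph SS
  rw [TT_Ai (ev_pos hn) p1_Fa, TT_p1]

/-- the trivial bound -/
lemma sg_triv {ε : ℝ} (hε : 0 < ε) {w : ℂ} (hw : |w.re| ≤ 1) : ‖sg ε w‖ ≤ Real.exp ε := by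
  unfold sg
  rw [norm_mul, Complex.norm_real, Real.norm_of_nonneg (by positivity)]
  have h6 : ‖∫ y in (-ε)..ε, cexp (w * y)‖ ≤ Real.exp ε * |ε - -ε| := by
    refine intervalIntegral.norm_integral_le_of_norm_le_const fun y hy => ?_
    rw [Set.uIoc_of_le (by linarith)] at hy
    rw [Complex.norm_exp]
    refine Real.exp_le_exp.2 ?_
    have e : (w * (y : ℂ)).re = w.re * y := by simp
    rw [e]
    have hy' : |y| ≤ ε := abs_le.2 ⟨hy.1.le, hy.2⟩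
    calc w.re * y ≤ |w.re * y| := le_abs_self _
      _ = |w.re| * |y| := abs_mul _ _
      _ ≤ 1 * ε := mul_le_mul hw hy' (abs_nonneg _) zero_le_one
      _ = ε := one_mul _
  have e : |ε - -ε| = 2 * ε := by
    rw [sub_neg_eq_add, abs_of_pos (by linarith)]
    ring
  rw [e] at h6
  calc (2 * ε)⁻¹ * ‖∫ y in (-ε)..ε, cexp (w * y)‖ ≤ (2 * ε)⁻¹ * (Real.exp ε * (2 * ε)) :=
        mul_le_mul_of_nonneg_left h6 (by positivity)
    _ = Real.exp ε := by field_simp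

lemma exp_half_le : Real.exp (1 / 2) ≤ 2 := by
  have h3 : Real.exp (1 / 2) ^ 2 = Real.exp 1 := by rw [← Real.exp_nat_mul]; norm_num
  have h4 := Real.exp_one_lt_d9
  have h5 := Real.exp_pos (1 / 2)
  nlinarith only [h3, h4, h5]

lemma sg_bd {w : ℂ} (hw : |w.re| ≤ 1) : (1 + w.im ^ 2) * ‖sg (1 / 12) w‖ ^ 2 ≤ 580 := by
  have h2 := sg_far' (ε := 1 / 12) (by norm_num) (by norm_num) hw
  have h2' : ‖w‖ * ‖sg (1 / 12) w‖ ≤ 24 := by
    refine h2.trans ?_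
    norm_num
  have h3 : |w.im| ≤ ‖w‖ := Complex.abs_im_le_norm w
  have hs := norm_nonneg (sg (1 / 12) w)
  have h4 : w.im ^ 2 * ‖sg (1 / 12) w‖ ^ 2 ≤ 24 ^ 2 := by
    rw [← mul_pow, ← sq_abs, abs_mul, abs_norm]
    exact pow_le_pow_left₀ (by positivity) ((mul_le_mul_of_nonneg_right h3 hs).trans h2') 2
  have h5 : ‖sg (1 / 12) w‖ ≤ 2 := by
    refine (sg_triv (by norm_num) hw).trans (le_trans (Real.exp_le_exp.2 ?_) exp_half_le)
    norm_num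
  nlinarith only [h4, h5, hs]

lemma sv_bd {n : ℕ} (hn : 1 ≤ n) {w : ℂ} (hw : |w.re| ≤ 1) : ‖sg (ev n) w ^ n‖ ≤ 2 := by
  rw [norm_pow]
  refine (pow_le_pow_left₀ (norm_nonneg _) (sg_triv (ev_pos hn) hw) n).trans ?_
  rw [← Real.exp_nat_mul, ev_mul hn]
  exact (Real.exp_le_exp.2 (by norm_num)).trans exp_half_le

lemma sv_far {n : ℕ} (hn : 1 ≤ n) {w : ℂ} (hw : |w.re| ≤ 1) (h : 22 * n ≤ |w.im|) :
    ‖sg (ev n) w ^ n‖ ≤ Real.exp (-n) := by
  have hn' : (1 : ℝ) ≤ n := by exact_mod_cast hn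
  have h2 := sg_far' (ev_pos hn) (ev_le hn) hw
  have h3 : |w.im| ≤ ‖w‖ := Complex.abs_im_le_norm w
  have hs := norm_nonneg (sg (ev n) w)
  have e1 : 2 / ev n = 8 * n := by
    unfold ev
    field_simp
    norm_num
  rw [e1] at h2
  have h4 : ‖sg (ev n) w‖ ≤ Real.exp (-1) := by
    have h5 : 22 * (n : ℝ) * ‖sg (ev n) w‖ ≤ 8 * n := (mul_le_mul_of_nonneg_right (h.trans h3) hs).trans h2
    have h6 : 22 * ‖sg (ev n) w‖ ≤ 8 := by
      have : (n : ℝ) * (22 * ‖sg (ev n) w‖) ≤ n * 8 := by linarith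
      exact le_of_mul_le_mul_left this (by linarith)
    have h7 : Real.exp (-1) * Real.exp 1 = 1 := by rw [← Real.exp_add]; norm_num
    have h8 := Real.exp_one_lt_d9
    have h9 := Real.exp_pos (-1)
    nlinarith only [h6, h7, h8, h9]
  rw [norm_pow]
  refine (pow_le_pow_left₀ hs h4 n).trans ?_
  rw [← Real.exp_nat_mul]
  exact le_of_eq (by congr 1; ring)

lemma SS_bd {n : ℕ} (hn : 1 ≤ n) {w : ℂ} (hw : |w.re| ≤ 1) : ‖SS n w‖ ^ 2 * (1 + w.im ^ 2) ^ 3 ≤ 4 * 580 ^ 3 := by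
  have h1 := pow_le_pow_left₀ (by positivity) (sg_bd hw) 3
  have h2 := pow_le_pow_left₀ (norm_nonneg _) (sv_bd hn hw) 2
  unfold SS
  rw [norm_mul, norm_pow _ 3]
  calc (‖sg (1 / 12) w‖ ^ 3 * ‖sg (ev n) w ^ n‖) ^ 2 * (1 + w.im ^ 2) ^ 3 =
        ‖sg (ev n) w ^ n‖ ^ 2 * ((1 + w.im ^ 2) * ‖sg (1 / 12) w‖ ^ 2) ^ 3 := by ring
    _ ≤ 2 ^ 2 * 580 ^ 3 := mul_le_mul h2 h1 (by positivity) (by norm_num)
    _ = 4 * 580 ^ 3 := by norm_num

lemma SS_far {n : ℕ} (hn : 1 ≤ n) {w : ℂ} (hw : |w.re| ≤ 1) (h : 22 * n ≤ |w.im|) :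
    ‖SS n w‖ ^ 2 * (1 + w.im ^ 2) ^ 3 ≤ Real.exp (-(2 * n)) * 580 ^ 3 := by
  have h1 := pow_le_pow_left₀ (by positivity) (sg_bd hw) 3
  have h2 := pow_le_pow_left₀ (norm_nonneg _) (sv_far hn hw h) 2
  have e : Real.exp (-n) ^ 2 = Real.exp (-(2 * n)) := by
    rw [← Real.exp_nat_mul]
    congr 1
    push_cast
    ring
  rw [e] at h2
  unfold SS
  rw [norm_mul, norm_pow _ 3]
  calc (‖sg (1 / 12) w‖ ^ 3 * ‖sg (ev n) w ^ n‖) ^ 2 * (1 + w.im ^ 2) ^ 3 =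
        ‖sg (ev n) w ^ n‖ ^ 2 * ((1 + w.im ^ 2) * ‖sg (1 / 12) w‖ ^ 2) ^ 3 := by ring
    _ ≤ Real.exp (-(2 * n)) * 580 ^ 3 := mul_le_mul h2 h1 (by positivity) (Real.exp_pos _).le

lemma sg_pos {ε : ℝ} (hep : 0 < ε) {b : ℝ} (hb : 0 < b) : ∃ t : ℝ, 1 ≤ t ∧ sg ε (b : ℂ) = (t : ℂ) ∧ sg ε (-(b : ℂ)) = (t : ℂ) := by
  have h0 : sg ε (b : ℂ) = ((Real.sinh (b * ε) / (b * ε) : ℝ) : ℂ) := by
    have h := sg_mul hep (b : ℂ)
    have hb' : (b : ℂ) ≠ 0 := by exact_mod_cast hb.ne'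
    have hep' : ((ε : ℝ) : ℂ) ≠ 0 := by exact_mod_cast hep.ne'
    have h2 : sg ε (b : ℂ) = ((cexp (b * (ε : ℂ)) - cexp (-(b * (ε : ℂ)))) / (2 * (ε : ℂ))) / b := by
      rw [← h]
      field_simp
    rw [h2]
    push_cast
    rw [Complex.sinh]
    field_simp
  refine ⟨Real.sinh (b * ε) / (b * ε), ?_, h0, ?_⟩
  · rw [le_div_iff₀ (by positivity), one_mul]
    exact Real.self_le_sinh_iff.2 (by positivity)
  · have h := sg_conj hep (b : ℂ)
    rw [Complex.conj_ofReal, h0] at h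
    have h2 := congrArg (starRingEnd ℂ) h
    rwa [Complex.conj_conj, Complex.conj_ofReal] at h2

lemma SS_pos {n : ℕ} (hn : 1 ≤ n) {b : ℝ} (hb : 0 < b) : ∃ t : ℝ, 1 ≤ t ∧ SS n (b : ℂ) = (t : ℂ) ∧ SS n (-(b : ℂ)) = (t : ℂ) := by
  obtain ⟨t1, h1, h2, h3⟩ := sg_pos (ε := 1 / 12) (by norm_num) hb
  obtain ⟨t2, k1, k2, k3⟩ := sg_pos (ev_pos hn) hb
  refine ⟨t1 ^ 3 * t2 ^ n, ?_, ?_, ?_⟩
  · exact one_le_mul_of_one_le_of_one_le (one_le_pow₀ h1) (one_le_pow₀ k1)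
  · unfold SS
    rw [h2, k2]
    push_cast
    rfl
  · unfold SS
    rw [h3, k3]
    push_cast
    rfl

noncomputable def gs (n : ℕ) (s : ℝ) (x : ℝ) : ℂ := ph n (x + -s) - ph n (x + s)

noncomputable def fs (n : ℕ) (s γ : ℝ) (x : ℝ) : ℂ := gs n s x * cexp (-(γ * I) * x)

lemma gs_Fa {n : ℕ} (hn : 1 ≤ n) {s : ℝ} (hs : 0 ≤ s) : Fa (s + 1 / 2) (gs n s) := by
  have h1 := Fa_shift (L := zL) (b := 1 / 2) (η := -s) (a := s + 1 / 2) (by rw [abs_neg, abs_of_nonneg hs]; linarith) (ph_Fa hn)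
  have h2 := Fa_shift (L := zL) (b := 1 / 2) (η := s) (a := s + 1 / 2) (by rw [abs_of_nonneg hs]; linarith) (ph_Fa hn)
  exact h1.sub h2

lemma TT_gs {n : ℕ} (hn : 1 ≤ n) {s : ℝ} (hs : 0 ≤ s) (w : ℂ) :
    TT (gs n s) w = SS n w * (cexp (w * s) - cexp (-(w * s))) := by
  have h1 := Fa_shift (L := zL) (b := 1 / 2) (η := -s) (a := s + 1 / 2) (by rw [abs_neg, abs_of_nonneg hs]; linarith) (ph_Fa hn)
  have h2 := Fa_shift (L := zL) (b := 1 / 2) (η := s) (a := s + 1 / 2) (by rw [abs_of_nonneg hs]; linarith) (ph_Fa hn)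
  have h3 := TT_sub h1 h2 w
  have h4 : TT (gs n s) w = TT (fun x => ph n (x + -s) - ph n (x + s)) w := rfl
  rw [h4, h3, TT_shift (L := zL), TT_shift (L := zL), TT_ph hn]
  push_cast
  rw [mul_neg, neg_neg]
  ring

lemma fs_Fa {n : ℕ} (hn : 1 ≤ n) {s : ℝ} (hs : 0 ≤ s) (γ : ℝ) : Fa (s + 1 / 2) (fs n s γ) := (gs_Fa hn hs).mul_bdd (by fun_prop)

lemma TT_fs {n : ℕ} (hn : 1 ≤ n) {s : ℝ} (hs : 0 ≤ s) (γ : ℝ) (w : ℂ) : TT (fs n s γ) w =
    SS n (w - γ * I) * (cexp ((w - γ * I) * s) - cexp (-((w - γ * I) * s))) := by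
  rw [← TT_gs hn hs]
  unfold TT fs
  refine integral_congr_ae (Eventually.of_forall fun x => ?_)
  simp only
  rw [mul_assoc, ← Complex.exp_add]
  congr 2
  ring

lemma sinh_bd {s : ℝ} (hs : 0 ≤ s) (z : ℂ) : ‖cexp (z * s) - cexp (-(z * s))‖ ^ 2 ≤ 4 * Real.exp (2 * s * |z.re|) := by
  have h2 : ‖cexp (z * s) - cexp (-(z * s))‖ ≤ 2 * Real.exp (s * |z.re|) := by
    refine (norm_sub_le _ _).trans ?_
    rw [Complex.norm_exp, Complex.norm_exp, Complex.neg_re]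
    have e : (z * (s : ℂ)).re = z.re * s := by simp
    rw [e]
    have k1 : z.re * s ≤ s * |z.re| := by
      rw [mul_comm]
      exact mul_le_mul_of_nonneg_left (le_abs_self _) hs
    have k2 : -(z.re * s) ≤ s * |z.re| := by
      have := mul_le_mul_of_nonneg_left (neg_le_abs z.re) hs
      linarith
    have := Real.exp_le_exp.2 k1
    have := Real.exp_le_exp.2 k2
    linarith
  have h3 := pow_le_pow_left₀ (norm_nonneg _) h2 2
  have e2 : (2 * Real.exp (s * |z.re|)) ^ 2 = 4 * Real.exp (2 * s * |z.re|) := by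
    rw [mul_pow, ← Real.exp_nat_mul]
    have : ((2 : ℕ) : ℝ) * (s * |z.re|) = 2 * s * |z.re| := by push_cast; ring
    rw [this]
    norm_num
  rwa [e2] at h3

/-- the constant -/
def DD : ℝ := 16 * 580 ^ 3

lemma DD_pos : 0 < DD := by unfold DD; norm_num

/-- the size of the transform -/
lemma TT_fs_bd {n : ℕ} (hn : 1 ≤ n) {s : ℝ} (hs : 0 ≤ s) (γ : ℝ) {w : ℂ} (hw : |w.re| ≤ 1) :
    ‖TT (fs n s γ) w‖ ^ 2 * (1 + (w.im - γ) ^ 2) ^ 3 ≤ DD * Real.exp (2 * s * |w.re|) := by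
  rw [TT_fs hn hs]
  set z : ℂ := w - γ * I with hz
  have zre : z.re = w.re := by rw [hz]; simp
  have zim : z.im = w.im - γ := by rw [hz]; simp
  have h1 := SS_bd hn (w := z) (by rw [zre]; exact hw)
  have h2 := sinh_bd hs z
  rw [zim] at h1
  rw [zre] at h2
  rw [norm_mul, mul_pow]
  calc ‖SS n z‖ ^ 2 * ‖cexp (z * s) - cexp (-(z * s))‖ ^ 2 * (1 + (w.im - γ) ^ 2) ^ 3
      = ‖cexp (z * s) - cexp (-(z * s))‖ ^ 2 * (‖SS n z‖ ^ 2 * (1 + (w.im - γ) ^ 2) ^ 3) := by ring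
    _ ≤ (4 * Real.exp (2 * s * |w.re|)) * (4 * 580 ^ 3) := mul_le_mul h2 h1 (by positivity) (by positivity)
    _ = DD * Real.exp (2 * s * |w.re|) := by unfold DD; ring

lemma TT_fs_far {n : ℕ} (hn : 1 ≤ n) {s : ℝ} (hs : 0 ≤ s) (γ : ℝ) {w : ℂ} (hw : |w.re| ≤ 1) (h : 22 * n ≤ |w.im - γ|) :
    ‖TT (fs n s γ) w‖ ^ 2 * (1 + (w.im - γ) ^ 2) ^ 3 ≤ DD * (Real.exp (2 * s * |w.re|) * Real.exp (-(2 * n))) := by
  rw [TT_fs hn hs]
  set z : ℂ := w - γ * I with hz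
  have zre : z.re = w.re := by rw [hz]; simp
  have zim : z.im = w.im - γ := by rw [hz]; simp
  have h1 := SS_far hn (w := z) (by rw [zre]; exact hw) (by rw [zim]; exact h)
  have h2 := sinh_bd hs z
  rw [zim] at h1
  rw [zre] at h2
  rw [norm_mul, mul_pow]
  calc ‖SS n z‖ ^ 2 * ‖cexp (z * s) - cexp (-(z * s))‖ ^ 2 * (1 + (w.im - γ) ^ 2) ^ 3
      = ‖cexp (z * s) - cexp (-(z * s))‖ ^ 2 * (‖SS n z‖ ^ 2 * (1 + (w.im - γ) ^ 2) ^ 3) := by ring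
    _ ≤ (4 * Real.exp (2 * s * |w.re|)) * (Real.exp (-(2 * n)) * 580 ^ 3) := mul_le_mul h2 h1 (by positivity) (by positivity)
    _ ≤ DD * (Real.exp (2 * s * |w.re|) * Real.exp (-(2 * n))) := by
        unfold DD
        have : 0 ≤ Real.exp (2 * s * |w.re|) * Real.exp (-(2 * n)) * 580 ^ 3 := by positivity
        linarith

lemma Lg_le (v γ : ℝ) : Lg v ≤ (Lg γ + 1) * (1 + (v - γ) ^ 2) := by
  have h1 : 3 + |v| ≤ (3 + |γ|) * Real.exp |v - γ| := by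
    have h2 : 1 + |v - γ| ≤ Real.exp |v - γ| := by linarith [Real.add_one_le_exp |v - γ|]
    have h3 : |v| ≤ |γ| + |v - γ| := by
      have := abs_add_le γ (v - γ)
      simpa using this
    have h4 := abs_nonneg γ
    have h5 := abs_nonneg (v - γ)
    nlinarith
  have h2 : Lg v ≤ Lg γ + |v - γ| := by
    unfold Lg
    have h3 := Real.log_le_log (by positivity) h1
    rwa [Real.log_mul (by positivity) (Real.exp_pos _).ne', Real.log_exp] at h3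
  have h3 : |v - γ| ≤ 1 + (v - γ) ^ 2 := by
    rw [← sq_abs]
    nlinarith [sq_nonneg (|v - γ| - 1), abs_nonneg (v - γ)]
  have h4 := one_le_Lg γ
  nlinarith [sq_nonneg (v - γ)]

lemma fs_Hd {n : ℕ} (hn : 1 ≤ n) {s : ℝ} (hs : 0 ≤ s) (γ : ℝ) : Hd (s + 1 / 2) (fs n s γ) := by
  refine ⟨fs_Fa hn hs γ, ?_⟩
  have hI : Integrable (fun v : ℝ => (DD * (Lg γ + 1)) * (1 + (v - γ) ^ 2)⁻¹) :=
    (integrable_inv_one_add_sq.comp_sub_right γ).const_mul _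
  have hm : Continuous (fun v : ℝ => Lg v * gsq (fs n s γ) v) := Lg_cont.mul (gsq_cont (fs_Fa hn hs γ))
  refine hI.mono' hm.aestronglyMeasurable (Eventually.of_forall fun v => ?_)
  show ‖Lg v * ‖TT (fs n s γ) (v * I)‖ ^ 2‖ ≤ _
  have h1 := TT_fs_bd hn hs γ (w := v * I) (by simp)
  have e1 : ((v : ℂ) * I).im = v := by simp
  have e2 : ((v : ℂ) * I).re = 0 := by simp
  rw [e1, e2, abs_zero, mul_zero, Real.exp_zero, mul_one] at h1
  have h2 := one_le_Lg v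
  have h3 := Lg_le v γ
  set X : ℝ := 1 + (v - γ) ^ 2 with hX
  have hX1 : 1 ≤ X := by rw [hX]; nlinarith [sq_nonneg (v - γ)]
  have hX0 : 0 < X := by linarith
  set N : ℝ := ‖TT (fs n s γ) (v * I)‖ ^ 2 with hN
  have hN0 : 0 ≤ N := by positivity
  rw [Real.norm_of_nonneg (by positivity), ← div_eq_mul_inv, le_div_iff₀ hX0]
  have h4 := one_le_Lg γ
  have h5 : N * X ^ 2 ≤ DD := by
    refine le_trans ?_ h1
    have : X ^ 2 ≤ X ^ 3 := pow_le_pow_right₀ hX1 (by omega)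
    exact mul_le_mul_of_nonneg_left this hN0
  calc Lg v * N * X ≤ ((Lg γ + 1) * X) * N * X := by gcongr
    _ = (Lg γ + 1) * (N * X ^ 2) := by ring
    _ ≤ (Lg γ + 1) * DD := mul_le_mul_of_nonneg_left h5 (by linarith)
    _ = _ := by ring

/-- the value at the isolated zero -/
lemma GG_main {n : ℕ} (hn : 1 ≤ n) {s b : ℝ} (hs : 0 ≤ s) (hb : 0 < b) (γ : ℝ) :
    (GG (fs n s γ) (fs n s γ) (b + γ * I)).re ≤ -(Real.exp (s * b) - Real.exp (-(s * b))) ^ 2 := by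
  obtain ⟨t, ht, hsg, hsg'⟩ := SS_pos hn hb
  unfold GG
  have e1 : -conj ((b : ℂ) + γ * I) = -(b : ℂ) + γ * I := by
    simp only [map_add, Complex.conj_ofReal, map_mul, Complex.conj_I]
    ring
  rw [e1, TT_fs hn hs, TT_fs hn hs]
  have e2 : (b : ℂ) + γ * I - γ * I = b := by ring
  have e3 : -(b : ℂ) + γ * I - γ * I = -b := by ring
  rw [e2, e3, hsg, hsg']
  have e4 : (t : ℂ) * (cexp (b * s) - cexp (-(b * s))) =
      ((t * (Real.exp (s * b) - Real.exp (-(s * b))) : ℝ) : ℂ) := by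
    push_cast
    rw [mul_comm (s : ℂ) b]
  have e5 : (t : ℂ) * (cexp (-b * s) - cexp (-(-b * s))) =
      ((-(t * (Real.exp (s * b) - Real.exp (-(s * b)))) : ℝ) : ℂ) := by
    push_cast
    rw [mul_comm (s : ℂ) b]
    have : -(-(b : ℂ) * s) = b * s := by ring
    rw [this]
    have : -(b : ℂ) * s = -(b * s) := by ring
    rw [this]
    ring
  rw [e4, e5, Complex.conj_ofReal, ← Complex.ofReal_mul, Complex.ofReal_re]
  have h6 : 1 ≤ t ^ 2 := one_le_pow₀ ht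
  have h7 : 0 ≤ (Real.exp (s * b) - Real.exp (-(s * b))) ^ 2 := sq_nonneg _
  nlinarith only [h6, h7, mul_nonneg (sub_nonneg.2 h6) h7]

/-- numerics -/
lemma num_tail {b E y : ℝ} (hb2 : b ≤ 1 / 2) (hE4 : 4 ≤ E) (hy0 : 0 < y) (e2 : y ^ 2 = E * Real.exp (-b)) :
    E / 8 ≤ (y - y⁻¹) ^ 2 := by
  have e3 : 3 / 5 ≤ Real.exp (-b) := by
    have h5 : Real.exp (-(1 / 2)) ≤ Real.exp (-b) := Real.exp_le_exp.2 (by linarith)
    have h6 : 3 / 5 ≤ Real.exp (-(1 / 2)) := by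
      have h7 : Real.exp (-(1 / 2)) = (Real.exp (1 / 2))⁻¹ := Real.exp_neg _
      have h8 : Real.exp (1 / 2) ≤ 5 / 3 := by
        have h9 : Real.exp (1 / 2) ^ 2 = Real.exp 1 := by rw [← Real.exp_nat_mul]; norm_num
        have h10 := Real.exp_one_lt_d9
        have h11 := Real.exp_pos (1 / 2)
        nlinarith only [h9, h10, h11]
      rw [h7, le_inv_comm₀ (by norm_num) (Real.exp_pos _)]
      norm_num at h8 ⊢
      linarith only [h8]
    linarith only [h5, h6]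
  have e4 : 3 / 5 * E ≤ y ^ 2 := by
    rw [e2]
    have := mul_le_mul_of_nonneg_left e3 (show (0 : ℝ) ≤ E by linarith)
    linarith only [this]
  have e5 : 2 ≤ y ^ 2 := by linarith only [e4, hE4]
  have e6 : y⁻¹ ≤ y / 2 := by
    rw [inv_le_comm₀ hy0 (by positivity)]
    rw [inv_div, div_le_iff₀ hy0]
    nlinarith only [e5]
  have e7 : y / 2 ≤ y - y⁻¹ := by linarith only [e6]
  have e8 : (y / 2) ^ 2 ≤ (y - y⁻¹) ^ 2 := pow_le_pow_left₀ (by positivity) e7 2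
  nlinarith only [e8, e4, hE4]

end P

end Pool.Agent.Zk2.LX
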