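import Pool.Agent.Zk2.LX.P

/-! # The sharp local Weil criterion: isolated zeros give negative squares, the theorem -/

set_option autoImplicit false
set_option linter.unusedSectionVars false
set_option maxHeartbeats 4000000

open Complex Filter Topology Set MeasureTheory
open scoped ComplexConjugate

namespace Pool.Agent.Zk2.LX

namespace P

open Pool.Agent.Y23 (TT Fa N2 TT_sub TT_add TT_smul)
open Pool.Agent.Y23.G
open Pool.Agent.Zk2.WP (zL zero_iff sg Av)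

lemma Hd_sum {ι : Type} {a : ℝ} {F : ι → ℝ → ℂ} (hF : ∀ i, Hd a (F i)) (c : ι → ℂ) (T : Finset ι) :
    Hd a (fun x => ∑ i ∈ T, c i * F i x) := by
  classical
  induction T using Finset.induction_on with
  | empty => simpa using Hd.zero (a := a)
  | insert j T hj ih =>
    simp only [Finset.sum_insert hj]
    exact ((hF j).smul (c j)).add ih

lemma TT_sum {ι : Type} {a : ℝ} {F : ι → ℝ → ℂ} (hF : ∀ i, Hd a (F i)) (c : ι → ℂ) (w : ℂ) (T : Finset ι) :
    TT (fun x => ∑ i ∈ T, c i * F i x) w = ∑ i ∈ T, c i * TT (F i) w := by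
  classical
  induction T using Finset.induction_on with
  | empty => simp [TT]
  | insert j T hj ih =>
    simp only [Finset.sum_insert hj]
    rw [TT_add ((hF j).smul (c j)).1 (Hd_sum hF c T).1, TT_smul, ih]

lemma rest_bd {ι : Type} [Fintype ι] {K2 : ℝ} (T : Finset ι) (c A : ι → ℂ) (X q : ι → ℝ) (hX : ∀ i, 1 ≤ X i)
    (hq : ∀ i, 0 ≤ q i) (hK2 : ∑ i, 1 / X i ≤ K2) (h : ∀ i ∈ T, ‖A i‖ ^ 2 * X i ^ 3 ≤ DD * q i) :
    ‖∑ i ∈ T, c i * A i‖ ^ 2 ≤ DD * K2 * ∑ i, ‖c i‖ ^ 2 * (q i * (1 / X i)) := by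
  have hX0 : ∀ i, 0 < X i := fun i => lt_of_lt_of_le one_pos (hX i)
  have hD := DD_pos
  have h1 : ‖∑ i ∈ T, c i * A i‖ ≤ ∑ i ∈ T, ‖c i‖ * ‖A i‖ := by
    refine (norm_sum_le _ _).trans (le_of_eq ?_)
    exact Finset.sum_congr rfl fun i _ => norm_mul _ _
  have h2 : (∑ i ∈ T, ‖c i‖ * ‖A i‖) ^ 2 ≤ (∑ i ∈ T, ‖c i‖ ^ 2 * (‖A i‖ ^ 2 * X i)) * ∑ i ∈ T, 1 / X i := by
    refine Finset.sum_sq_le_sum_mul_sum_of_sq_le_mul _ (fun i _ => ?_) (fun i _ => ?_) fun i _ => le_of_eq ?_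
    · have := hX0 i
      positivity
    · have := hX0 i
      positivity
    · have := (hX0 i).ne'
      field_simp
  have h3 : ∑ i ∈ T, ‖c i‖ ^ 2 * (‖A i‖ ^ 2 * X i) ≤ DD * ∑ i, ‖c i‖ ^ 2 * (q i * (1 / X i)) := by
    rw [Finset.mul_sum]
    refine (Finset.sum_le_sum (g := fun i => DD * (‖c i‖ ^ 2 * (q i * (1 / X i)))) fun i hi => ?_).trans ?_
    · have h4 := h i hi
      have h5 : ‖A i‖ ^ 2 * X i ≤ DD * (q i * (1 / X i)) := by
        rw [mul_one_div, ← mul_div_assoc, le_div_iff₀ (hX0 i)]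
        refine le_trans ?_ h4
        have h6 : X i * X i ≤ X i ^ 3 := by
          calc X i * X i = X i ^ 2 := by ring
            _ ≤ X i ^ 3 := pow_le_pow_right₀ (hX i) (by norm_num)
        calc ‖A i‖ ^ 2 * X i * X i = ‖A i‖ ^ 2 * (X i * X i) := by ring
          _ ≤ ‖A i‖ ^ 2 * X i ^ 3 := mul_le_mul_of_nonneg_left h6 (by positivity)
      calc ‖c i‖ ^ 2 * (‖A i‖ ^ 2 * X i) ≤ ‖c i‖ ^ 2 * (DD * (q i * (1 / X i))) := mul_le_mul_of_nonneg_left h5 (by positivity)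
        _ = _ := by ring
    · refine Finset.sum_le_sum_of_subset_of_nonneg (Finset.subset_univ _) fun i _ _ => ?_
      have h1 := hX0 i
      have h2 := hq i
      positivity
  have h4 : ∑ i ∈ T, 1 / X i ≤ K2 := by
    refine le_trans ?_ hK2
    refine Finset.sum_le_sum_of_subset_of_nonneg (Finset.subset_univ _) fun i _ _ => ?_
    have h1 := hX0 i
    positivity
  have h5 : 0 ≤ ∑ i ∈ T, 1 / X i := Finset.sum_nonneg fun i _ => by
    have h1 := hX0 i
    positivity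
  have h6 : 0 ≤ DD * ∑ i, ‖c i‖ ^ 2 * (q i * (1 / X i)) := by
    refine mul_nonneg hD.le (Finset.sum_nonneg fun i _ => ?_)
    have h1 := hX0 i
    have h2 := hq i
    positivity
  calc ‖∑ i ∈ T, c i * A i‖ ^ 2 ≤ (∑ i ∈ T, ‖c i‖ * ‖A i‖) ^ 2 := pow_le_pow_left₀ (norm_nonneg _) h1 2
    _ ≤ _ := h2
    _ ≤ (DD * ∑ i, ‖c i‖ ^ 2 * (q i * (1 / X i))) * K2 := mul_le_mul h3 h4 h5 h6
    _ = _ := by ring

lemma cross (u v r r' : ℂ) {α : ℝ} (hα : 0 < α) : ((u + r) * conj (v + r')).re ≤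
    (u * conj v).re + α / 2 * (‖u‖ ^ 2 + ‖v‖ ^ 2) + (1 / (2 * α) + 1 / 2) * (‖r‖ ^ 2 + ‖r'‖ ^ 2) := by
  have e : (u + r) * conj (v + r') = u * conj v + (u * conj r' + r * conj v + r * conj r') := by
    rw [map_add]
    ring
  rw [e, Complex.add_re, Complex.add_re, Complex.add_re]
  have h1 : (u * conj r').re ≤ ‖u‖ * ‖r'‖ := by
    refine (Complex.re_le_norm _).trans (le_of_eq ?_)
    rw [norm_mul, RCLike.norm_conj]
  have h2 : (r * conj v).re ≤ ‖r‖ * ‖v‖ := by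
    refine (Complex.re_le_norm _).trans (le_of_eq ?_)
    rw [norm_mul, RCLike.norm_conj]
  have h3 : (r * conj r').re ≤ ‖r‖ * ‖r'‖ := by
    refine (Complex.re_le_norm _).trans (le_of_eq ?_)
    rw [norm_mul, RCLike.norm_conj]
  have amgm : ∀ x y : ℝ, x * y ≤ α / 2 * x ^ 2 + 1 / (2 * α) * y ^ 2 := by
    intro x y
    have h4 : 0 ≤ (α * x - y) ^ 2 / (2 * α) := by positivity
    have e4 : (α * x - y) ^ 2 / (2 * α) = α / 2 * x ^ 2 + 1 / (2 * α) * y ^ 2 - x * y := by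
      field_simp
      ring
    rw [e4] at h4
    linarith
  have h5 := amgm ‖u‖ ‖r'‖
  have h6 := amgm ‖v‖ ‖r‖
  have h7 : ‖r‖ * ‖r'‖ ≤ 1 / 2 * (‖r‖ ^ 2 + ‖r'‖ ^ 2) := by nlinarith only [sq_nonneg (‖r‖ - ‖r'‖)]
  linarith only [h1, h2, h3, h5, h6, h7]

/-- the value at one zero -/
lemma one_val {n : ℕ} (hn : 1 ≤ n) {s L b : ℝ} (hs : s = (L - 1) / 2) (hL : 1 ≤ L) (hb : 0 < b) (hb2 : b ≤ 1 / 2)
    (hE : 4 ≤ Real.exp (b * L)) (γ : ℝ) {w : ℂ} (hw : w = b + γ * I ∨ w = -conj ((b : ℂ) + γ * I)) :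
    (GG (fs n s γ) (fs n s γ) w).re ≤ -(Real.exp (b * L) / 8) ∧
    ‖TT (fs n s γ) w‖ ^ 2 ≤ DD * Real.exp (b * L) ∧ ‖TT (fs n s γ) (-conj w)‖ ^ 2 ≤ DD * Real.exp (b * L) := by
  have hs0 : 0 ≤ s := by rw [hs]; linarith
  have hre : |w.re| = b ∧ w.im = γ := by
    rcases hw with h | h
    · rw [h]
      simp [abs_of_pos hb]
    · rw [h]
      simp [abs_of_pos hb]
  have hw1 : |w.re| ≤ 1 := by rw [hre.1]; linarith
  have hexp : Real.exp (2 * s * |w.re|) ≤ Real.exp (b * L) := by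
    rw [hre.1]
    refine Real.exp_le_exp.2 ?_
    rw [hs]
    nlinarith only [hb]
  have hD := DD_pos
  refine ⟨?_, ?_, ?_⟩
  · have h1 := GG_main hn hs0 hb γ
    have h2 : (GG (fs n s γ) (fs n s γ) w).re = (GG (fs n s γ) (fs n s γ) (b + γ * I)).re := by
      rcases hw with h | h
      · rw [h]
      · have e2 : GG (fs n s γ) (fs n s γ) w = conj (GG (fs n s γ) (fs n s γ) (b + γ * I)) := by
          rw [h]
          unfold GG
          rw [map_mul, Complex.conj_conj]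
          simp only [map_neg, Complex.conj_conj, neg_neg]
          ring
        rw [e2, Complex.conj_re]
    rw [h2]
    refine h1.trans ?_
    have e2 : Real.exp (s * b) ^ 2 = Real.exp (b * L) * Real.exp (-b) := by
      rw [← Real.exp_nat_mul, ← Real.exp_add]
      congr 1
      rw [hs]
      push_cast
      ring
    have e3 := num_tail (b := b) (E := Real.exp (b * L)) (y := Real.exp (s * b)) hb2 hE (Real.exp_pos _) e2
    rw [Real.exp_neg]
    linarith only [e3]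
  · have h1 := TT_fs_bd hn hs0 γ hw1
    rw [hre.2, sub_self] at h1
    norm_num at h1
    exact h1.trans (mul_le_mul_of_nonneg_left hexp hD.le)
  · have h1 := TT_fs_bd hn hs0 γ (w := -conj w) (by simpa using hw1)
    have e1 : (-conj w).im = w.im := by simp
    have e2 : |(-conj w).re| = |w.re| := by simp
    rw [e1, e2, hre.2, sub_self] at h1
    norm_num at h1
    exact h1.trans (mul_le_mul_of_nonneg_left hexp hD.le)

/-- the value off the zero -/
lemma off_val {n : ℕ} (hn : 1 ≤ n) {s L : ℝ} (hs : s = (L - 1) / 2) (hL : 1 ≤ L) (hnL : L / 2 ≤ 2 * n) (hn28 : 22 * (n : ℝ) ≤ 28 * L)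
    {γ q : ℝ} (hq : 1 ≤ q) {w : ℂ} (hw : |w.re| ≤ 1 / 2) (h : |w.im - γ| ≤ 28 * L → Real.exp (|w.re| * L) ≤ q) :
    ‖TT (fs n s γ) w‖ ^ 2 * (1 + (w.im - γ) ^ 2) ^ 3 ≤ DD * q := by
  have hs0 : 0 ≤ s := by rw [hs]; linarith
  have hw1 : |w.re| ≤ 1 := by linarith
  have hD := DD_pos
  have ha := abs_nonneg w.re
  rcases le_or_gt |w.im - γ| (28 * L) with h1 | h1
  · refine (TT_fs_bd hn hs0 γ hw1).trans (mul_le_mul_of_nonneg_left (le_trans (Real.exp_le_exp.2 ?_) (h h1)) hD.le)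
    rw [hs]
    nlinarith only [ha]
  · refine (TT_fs_far hn hs0 γ hw1 (hn28.trans h1.le)).trans (mul_le_mul_of_nonneg_left ?_ hD.le)
    refine le_trans ?_ hq
    rw [← Real.exp_add, Real.exp_le_one_iff]
    have h2 : 2 * s * |w.re| ≤ L / 2 := by
      rw [hs]
      nlinarith only [ha, hw, hL]
    linarith only [h2, hnL]

/-- ISOLATED ZEROS GIVE NEGATIVE SQUARES -/
theorem isolated : ∃ C : ℝ, 0 < C ∧ ∀ L : ℝ, 1 ≤ L → ∀ (ι : Type) [Fintype ι] (z : ι → Zt (D := zd (L := zL))),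
    Function.Injective z → (∀ i, 1 / 2 < (z i : ℂ).re) →
    (∀ i, C * Lg (z i : ℂ).im ≤ Real.exp (((z i : ℂ).re - 1 / 2) * L)) →
    (∀ i, ∀ ρ : Zt (D := zd (L := zL)), |(ρ : ℂ).im - (z i : ℂ).im| ≤ 28 * L →
      (ρ : ℂ) = z i ∨ (ρ : ℂ) = 1 - conj (z i : ℂ) ∨
        C * Lg (z i : ℂ).im * Real.exp (|(ρ : ℂ).re - 1 / 2| * L) ≤ Real.exp (((z i : ℂ).re - 1 / 2) * L)) →
    ∃ F : ι → ℝ → ℂ, ∀ c : ι → ℂ, c ≠ 0 → Hd (L / 2) (fun x => ∑ i, c i * F i x) ∧
      QQ (D := zd (L := zL)) (fun x => ∑ i, c i * F i x) < 0 := by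
  classical
  obtain ⟨K, hK, hz⟩ := zsum_le (D := zd (L := zL))
  obtain ⟨K2, hK2, hsep⟩ := sep_sum
  have hD := DD_pos
  set B : ℝ := (16 * DD + 1) * (DD * K2) with hB
  have hB0 : 0 < B := by positivity
  set C : ℝ := 17 * (B * K) + 4 with hC
  have hBK : 0 < B * K := by positivity
  have hC0 : 0 < C := by rw [hC]; linarith
  have hC4 : 4 ≤ C := by rw [hC]; linarith
  refine ⟨C, hC0, fun L hL ι _ z hinj hre h1 h2 => ?_⟩
  set γ : ι → ℝ := fun i => (z i : ℂ).im with hγ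
  set b : ι → ℝ := fun i => (z i : ℂ).re - 1 / 2 with hb
  set E : ι → ℝ := fun i => Real.exp (b i * L) with hE
  set q : ι → ℝ := fun i => E i / (C * Lg (γ i)) with hq
  have hstrip : ∀ ρ : Zt (D := zd (L := zL)), |(ρ : ℂ).re - 1 / 2| ≤ 1 / 2 := by
    intro ρ
    have h3 := (zero_iff (ρ : ℂ)).2 ρ.2
    rw [abs_le]
    constructor <;> linarith [h3.2.1, h3.2.2]
  have hb0 : ∀ i, 0 < b i := fun i => sub_pos.2 (hre i)
  have hb2 : ∀ i, b i ≤ 1 / 2 := fun i => (le_abs_self _).trans (hstrip (z i))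
  have hE0 : ∀ i, 0 < E i := fun i => Real.exp_pos _
  have hCL : ∀ i, 0 < C * Lg (γ i) := fun i => mul_pos hC0 (lt_of_lt_of_le one_pos (one_le_Lg _))
  have hCL4 : ∀ i, 4 ≤ C * Lg (γ i) := fun i => by
    have h3 := mul_le_mul_of_nonneg_left (one_le_Lg (γ i)) hC0.le
    linarith
  have hE4 : ∀ i, 4 ≤ E i := fun i => (hCL4 i).trans (h1 i)
  have hq1 : ∀ i, 1 ≤ q i := fun i => by
    rw [hq]
    simp only
    rw [le_div_iff₀ (hCL i), one_mul]
    exact h1 i
  -- separation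
  have hsepz : ∀ i j, i ≠ j → 1 ≤ |γ i - γ j| := by
    intro i j hij
    by_contra hlt
    rw [not_le] at hlt
    have key : ∀ i j, i ≠ j → |γ i - γ j| ≤ 28 * L → 4 * E i ≤ E j := by
      intro i j hij h3
      rcases h2 j (z i) h3 with h4 | h4 | h4
      · exact absurd (hinj (Subtype.ext h4)) hij
      · have h5 := congrArg Complex.re h4
        simp only [Complex.sub_re, Complex.one_re, Complex.conj_re] at h5
        have := hre i
        have := hre j
        linarith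
      · rw [abs_of_pos (hb0 i)] at h4
        refine le_trans ?_ h4
        exact mul_le_mul_of_nonneg_right (hCL4 j) (hE0 i).le
    have h3 := key i j hij (by linarith)
    have h4 := key j i hij.symm (by rw [abs_sub_comm]; linarith)
    have h5 := hE0 i
    have h6 := hE0 j
    linarith
  -- parameters
  set n : ℕ := ⌈L / 4⌉₊ with hn'
  have hn : 1 ≤ n := Nat.one_le_iff_ne_zero.2 (Nat.ceil_pos.2 (by linarith)).ne'
  have hn1 : L / 4 ≤ n := Nat.le_ceil _
  have hn2 : (n : ℝ) < L / 4 + 1 := Nat.ceil_lt_add_one (by linarith)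
  have hnL : L / 2 ≤ 2 * n := by linarith
  have hn28 : 22 * (n : ℝ) ≤ 28 * L := by linarith
  set s : ℝ := (L - 1) / 2 with hs
  have hs0 : 0 ≤ s := by rw [hs]; linarith
  have hsL : s + 1 / 2 = L / 2 := by rw [hs]; ring
  have hF : ∀ i, Hd (L / 2) (fs n s (γ i)) := fun i => by
    have h3 := fs_Hd hn hs0 (γ i)
    rwa [hsL] at h3
  refine ⟨fun i => fs n s (γ i), fun c hc => ⟨Hd_sum hF c Finset.univ, ?_⟩⟩
  set f : ℝ → ℂ := fun x => ∑ i, c i * fs n s (γ i) x with hf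
  have hfHd : Hd (L / 2) f := Hd_sum hF c Finset.univ
  have hTT : ∀ w, TT f w = ∑ i, c i * TT (fs n s (γ i)) w := fun w => TT_sum hF c w Finset.univ
  -- the rest
  have hrest : ∀ (ρ : Zt (D := zd (L := zL))) (T : Finset ι) (w : ℂ), |w.re| = |(ρ : ℂ).re - 1 / 2| → w.im = (ρ : ℂ).im →
      (∀ i ∈ T, (ρ : ℂ) ≠ z i ∧ (ρ : ℂ) ≠ 1 - conj (z i : ℂ)) →
      ‖∑ i ∈ T, c i * TT (fs n s (γ i)) w‖ ^ 2 ≤
        DD * K2 * ∑ i, ‖c i‖ ^ 2 * (q i * (1 / (1 + ((ρ : ℂ).im - γ i) ^ 2))) := by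
    intro ρ T w hw1 hw2 hT
    refine rest_bd T c (fun i => TT (fs n s (γ i)) w) (fun i => 1 + ((ρ : ℂ).im - γ i) ^ 2) q
      (fun i => by nlinarith [sq_nonneg ((ρ : ℂ).im - γ i)]) (fun i => by linarith [hq1 i])
      (hsep ι γ hsepz _) fun i hi => ?_
    have h3 := off_val hn hs hL hnL hn28 (γ := γ i) (hq1 i) (w := w) (by rw [hw1]; exact hstrip ρ) (fun h4 => ?_)
    · rw [hw2] at h3
      exact h3
    · rw [hw2] at h4
      have h5 := ((h2 i ρ h4).resolve_left (hT i hi).1).resolve_left (hT i hi).2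
      rw [hw1, hq]
      simp only
      rw [le_div_iff₀ (hCL i), mul_comm]
      exact h5
  set V : Zt (D := zd (L := zL)) → ℝ := fun ρ => ∑ i, ‖c i‖ ^ 2 * (q i * (1 / (1 + ((ρ : ℂ).im - γ i) ^ 2))) with hV
  have hV0 : ∀ ρ, 0 ≤ V ρ := fun ρ => Finset.sum_nonneg fun i _ => by
    have := hq1 i
    positivity
  -- the pointwise bound
  have hpt0 : ∀ ρ : Zt (D := zd (L := zL)), (GG f f ((ρ : ℂ) - 1 / 2)).re ≤ B * V ρ + ∑ j, (if ρ = z j then -(‖c j‖ ^ 2 * E j / 16) else 0) := by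
    intro ρ
    set w : ℂ := (ρ : ℂ) - 1 / 2 with hw
    have wim : w.im = (ρ : ℂ).im := by rw [hw]; simp
    have wre : |w.re| = |(ρ : ℂ).re - 1 / 2| := by rw [hw]; simp
    have wim' : (-conj w).im = (ρ : ℂ).im := by rw [← wim]; simp
    have wre' : |(-conj w).re| = |(ρ : ℂ).re - 1 / 2| := by rw [← wre]; simp
    have hDK : 0 ≤ DD * K2 * V ρ := by
      have := hV0 ρ
      positivity
    have hBV : B * V ρ = (16 * DD + 1) * (DD * K2 * V ρ) := by rw [hB]; ring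
    by_cases hex : ∃ j, (ρ : ℂ) = z j ∨ (ρ : ℂ) = 1 - conj (z j : ℂ)
    · obtain ⟨j, hj⟩ := hex
      have hT : ∀ i ∈ Finset.univ.erase j, (ρ : ℂ) ≠ z i ∧ (ρ : ℂ) ≠ 1 - conj (z i : ℂ) := by
        intro i hi
        have hij : i ≠ j := Finset.ne_of_mem_erase hi
        have hri := hre i
        have hrj := hre j
        rcases hj with h3 | h3
        · refine ⟨fun h4 => hij (hinj (Subtype.ext (h4.symm.trans h3))), fun h4 => ?_⟩
          have h5 := congrArg Complex.re (h3.symm.trans h4)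
          simp only [Complex.sub_re, Complex.one_re, Complex.conj_re] at h5
          linarith
        · refine ⟨fun h4 => ?_, fun h4 => ?_⟩
          · have h5 := congrArg Complex.re (h3.symm.trans h4)
            simp only [Complex.sub_re, Complex.one_re, Complex.conj_re] at h5
            linarith
          · have h5 := h3.symm.trans h4
            have h6 : conj (z j : ℂ) = conj (z i : ℂ) := sub_right_injective h5
            have h7 := congrArg (starRingEnd ℂ) h6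
            rw [Complex.conj_conj, Complex.conj_conj] at h7
            exact hij (hinj (Subtype.ext h7.symm))
      have hwj : w = (b j : ℂ) + γ j * I ∨ w = -conj ((b j : ℂ) + γ j * I) := by
        rcases hj with h3 | h3
        · left
          rw [hw, h3]
          apply Complex.ext <;> simp [hb, hγ]
        · right
          rw [hw, h3]
          apply Complex.ext
          · simp [hb]
            ring
          · simp [hγ]
      obtain ⟨v1, v2, v3⟩ := one_val hn hs hL (hb0 j) (hb2 j) (hE4 j) (γ j) hwj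
      have hr := hrest ρ (Finset.univ.erase j) w wre wim hT
      have hr' := hrest ρ (Finset.univ.erase j) (-conj w) wre' wim' hT
      set r : ℂ := ∑ i ∈ Finset.univ.erase j, c i * TT (fs n s (γ i)) w with hrd
      set r' : ℂ := ∑ i ∈ Finset.univ.erase j, c i * TT (fs n s (γ i)) (-conj w) with hrd'
      have e1 : TT f w = c j * TT (fs n s (γ j)) w + r := by
        rw [hTT, hrd, Finset.add_sum_erase Finset.univ (fun i => c i * TT (fs n s (γ i)) w) (Finset.mem_univ j)]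
      have e2 : TT f (-conj w) = c j * TT (fs n s (γ j)) (-conj w) + r' := by
        rw [hTT, hrd', Finset.add_sum_erase Finset.univ (fun i => c i * TT (fs n s (γ i)) (-conj w)) (Finset.mem_univ j)]
      have h3 := cross (c j * TT (fs n s (γ j)) w) (c j * TT (fs n s (γ j)) (-conj w)) r r' (α := 1 / (16 * DD)) (by positivity)
      rw [← e1, ← e2] at h3
      have e3 : (c j * TT (fs n s (γ j)) w) * conj (c j * TT (fs n s (γ j)) (-conj w)) =
          ((‖c j‖ ^ 2 : ℝ) : ℂ) * GG (fs n s (γ j)) (fs n s (γ j)) w := by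
        have e4 : ((‖c j‖ ^ 2 : ℝ) : ℂ) = c j * conj (c j) := by
          rw [Complex.mul_conj, Complex.normSq_eq_norm_sq]
        rw [e4, map_mul]
        unfold GG
        ring
      rw [e3, Complex.re_ofReal_mul] at h3
      have h4 : ‖c j‖ ^ 2 * (GG (fs n s (γ j)) (fs n s (γ j)) w).re ≤ ‖c j‖ ^ 2 * (-(E j / 8)) :=
        mul_le_mul_of_nonneg_left v1 (by positivity)
      have h5 : ‖c j * TT (fs n s (γ j)) w‖ ^ 2 ≤ ‖c j‖ ^ 2 * (DD * E j) := by
        rw [norm_mul, mul_pow]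
        exact mul_le_mul_of_nonneg_left v2 (by positivity)
      have h6 : ‖c j * TT (fs n s (γ j)) (-conj w)‖ ^ 2 ≤ ‖c j‖ ^ 2 * (DD * E j) := by
        rw [norm_mul, mul_pow]
        exact mul_le_mul_of_nonneg_left v3 (by positivity)
      have e5 : 1 / (2 * (1 / (16 * DD))) + 1 / 2 = 8 * DD + 1 / 2 := by
        field_simp
        ring
      rw [e5] at h3
      have h7 : 1 / (16 * DD) / 2 * (‖c j * TT (fs n s (γ j)) w‖ ^ 2 + ‖c j * TT (fs n s (γ j)) (-conj w)‖ ^ 2) ≤ ‖c j‖ ^ 2 * E j / 16 := by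
        have h8 : 1 / (16 * DD) / 2 * (‖c j * TT (fs n s (γ j)) w‖ ^ 2 + ‖c j * TT (fs n s (γ j)) (-conj w)‖ ^ 2) ≤
            1 / (16 * DD) / 2 * (‖c j‖ ^ 2 * (DD * E j) + ‖c j‖ ^ 2 * (DD * E j)) :=
          mul_le_mul_of_nonneg_left (add_le_add h5 h6) (by positivity)
        refine h8.trans (le_of_eq ?_)
        field_simp
        ring
      have h8 : (8 * DD + 1 / 2) * (‖r‖ ^ 2 + ‖r'‖ ^ 2) ≤ B * V ρ := by
        rw [hBV]
        have h9 : (8 * DD + 1 / 2) * (‖r‖ ^ 2 + ‖r'‖ ^ 2) ≤ (8 * DD + 1 / 2) * (DD * K2 * V ρ + DD * K2 * V ρ) :=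
          mul_le_mul_of_nonneg_left (add_le_add hr hr') (by positivity)
        linarith only [h9]
      have h9 : (GG f f w).re ≤ B * V ρ - ‖c j‖ ^ 2 * E j / 16 := by
        show (TT f w * conj (TT f (-conj w))).re ≤ _
        linarith only [h3, h4, h7, h8]
      have h10 : -(‖c j‖ ^ 2 * E j / 16) ≤ ∑ j, (if ρ = z j then -(‖c j‖ ^ 2 * E j / 16) else 0) := by
        by_cases hρ : ρ = z j
        · have e6 : ∀ j', (if ρ = z j' then -(‖c j'‖ ^ 2 * E j' / 16) else 0) = if j = j' then -(‖c j'‖ ^ 2 * E j' / 16) else 0 := by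
            intro j'
            by_cases h11 : j = j'
            · rw [if_pos h11, if_pos (by rw [hρ, h11])]
            · rw [if_neg h11, if_neg (fun h12 => h11 (hinj (hρ.symm.trans h12)))]
          simp_rw [e6]
          rw [Finset.sum_ite_eq Finset.univ j, if_pos (Finset.mem_univ _)]
        · have e6 : ∀ j', (if ρ = z j' then -(‖c j'‖ ^ 2 * E j' / 16) else 0) = 0 := by
            intro j'
            refine if_neg fun h11 => ?_
            have h12 : j' ≠ j := fun h => hρ (h ▸ h11)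
            exact (hT j' (Finset.mem_erase.2 ⟨h12, Finset.mem_univ _⟩)).1 (congrArg _ h11)
          simp_rw [e6]
          rw [Finset.sum_const_zero]
          have := hE0 j
          have : 0 ≤ ‖c j‖ ^ 2 * E j / 16 := by positivity
          linarith
      linarith only [h9, h10]
    · rw [not_exists] at hex
      have hex' : ∀ i, (ρ : ℂ) ≠ z i ∧ (ρ : ℂ) ≠ 1 - conj (z i : ℂ) := fun i => not_or.1 (hex i)
      have hr := hrest ρ Finset.univ w wre wim fun i _ => hex' i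
      have hr' := hrest ρ Finset.univ (-conj w) wre' wim' fun i _ => hex' i
      rw [← hTT] at hr hr'
      have e6 : ∀ j', (if ρ = z j' then -(‖c j'‖ ^ 2 * E j' / 16) else 0) = 0 := fun j' =>
        if_neg fun h11 => (hex' j').1 (congrArg _ h11)
      simp_rw [e6]
      rw [Finset.sum_const_zero, add_zero, hBV]
      have h3 : (GG f f w).re ≤ ‖TT f w‖ * ‖TT f (-conj w)‖ := by
        refine (Complex.re_le_norm _).trans (le_of_eq ?_)
        unfold GG
        rw [norm_mul, RCLike.norm_conj]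
      have h4 : ‖TT f w‖ * ‖TT f (-conj w)‖ ≤ (‖TT f w‖ ^ 2 + ‖TT f (-conj w)‖ ^ 2) / 2 := by
        nlinarith only [sq_nonneg (‖TT f w‖ - ‖TT f (-conj w)‖)]
      have h5 : (GG f f w).re ≤ DD * K2 * V ρ := by linarith only [h3, h4, hr, hr']
      have h6 : 0 ≤ DD * (DD * K2 * V ρ) := mul_nonneg hD.le hDK
      linarith only [h5, h6]
  have hpt : ∀ ρ : Zt (D := zd (L := zL)), (mu (D := zd (L := zL)) (ρ : ℂ) : ℝ) * (GG f f ((ρ : ℂ) - 1 / 2)).re ≤
      B * (∑ i, ‖c i‖ ^ 2 * (q i * ((mu (D := zd (L := zL)) (ρ : ℂ) : ℝ) * (1 / (1 + ((ρ : ℂ).im - γ i) ^ 2))))) +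
        ∑ j, (if ρ = z j then -(‖c j‖ ^ 2 * E j / 16) else 0) := by
    intro ρ
    have hμ : (0 : ℝ) ≤ mu (D := zd (L := zL)) (ρ : ℂ) := Nat.cast_nonneg _
    have hμ1 : (1 : ℝ) ≤ mu (D := zd (L := zL)) (ρ : ℂ) := by exact_mod_cast (zd (L := zL)).mpos _ ρ.2
    have h3 := mul_le_mul_of_nonneg_left (hpt0 ρ) hμ
    have hneg : ∑ j, (if ρ = z j then -(‖c j‖ ^ 2 * E j / 16) else 0) ≤ 0 := by
      refine Finset.sum_nonpos fun j _ => ?_
      split_ifs
      · have := hE0 j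
        have : 0 ≤ ‖c j‖ ^ 2 * E j / 16 := by positivity
        linarith
      · exact le_rfl
    have h4 : (mu (D := zd (L := zL)) (ρ : ℂ) : ℝ) * ∑ j, (if ρ = z j then -(‖c j‖ ^ 2 * E j / 16) else 0) ≤
        ∑ j, (if ρ = z j then -(‖c j‖ ^ 2 * E j / 16) else 0) := by
      have := mul_le_mul_of_nonpos_right hμ1 hneg
      linarith
    have e1 : (mu (D := zd (L := zL)) (ρ : ℂ) : ℝ) * (B * V ρ) =
        B * (∑ i, ‖c i‖ ^ 2 * (q i * ((mu (D := zd (L := zL)) (ρ : ℂ) : ℝ) * (1 / (1 + ((ρ : ℂ).im - γ i) ^ 2))))) := by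
      rw [hV]
      simp only
      rw [Finset.mul_sum, Finset.mul_sum, Finset.mul_sum]
      exact Finset.sum_congr rfl fun i _ => by ring
    rw [mul_add, e1] at h3
    linarith only [h3, h4]
  -- the sum
  have hsum1 : ∀ i, HasSum (fun ρ : Zt (D := zd (L := zL)) => ‖c i‖ ^ 2 * (q i * ((mu (D := zd (L := zL)) (ρ : ℂ) : ℝ) * (1 / (1 + ((ρ : ℂ).im - γ i) ^ 2)))))
      (‖c i‖ ^ 2 * (q i * ∑' ρ : Zt (D := zd (L := zL)), (mu (D := zd (L := zL)) (ρ : ℂ) : ℝ) * (1 / (1 + ((ρ : ℂ).im - γ i) ^ 2)))) := fun i =>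
    ((zsummable (D := zd (L := zL)) (γ i)).hasSum.mul_left (q i)).mul_left _
  have hsum2 : ∀ j, HasSum (fun ρ : Zt (D := zd (L := zL)) => if ρ = z j then -(‖c j‖ ^ 2 * E j / 16) else 0) (-(‖c j‖ ^ 2 * E j / 16)) := fun j =>
    hasSum_ite_eq (z j) _
  have hsumR := ((hasSum_sum (s := Finset.univ) fun i _ => hsum1 i).mul_left B).add (hasSum_sum (s := Finset.univ) fun j _ => hsum2 j)
  have hdom : Dom (D := zd (L := zL)) f := Hd.dom (DZ := zd (L := zL)) (EC := zc (L := zL)) (a := L / 2) (by linarith) hfHd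
  have hsumQ : Summable (fun ρ : Zt (D := zd (L := zL)) => (mu (D := zd (L := zL)) (ρ : ℂ) : ℝ) * (GG f f ((ρ : ℂ) - 1 / 2)).re) := by
    have h3 := (Complex.hasSum_re (summable_GG (DZ := zd (L := zL)) hdom hdom).hasSum).summable
    refine h3.congr fun ρ => ?_
    rw [← Complex.ofReal_natCast, Complex.re_ofReal_mul]
  have h3 : QQ (D := zd (L := zL)) f ≤ _ := hasSum_le hpt hsumQ.hasSum hsumR
  refine lt_of_le_of_lt h3 ?_
  rw [Finset.mul_sum, ← Finset.sum_add_distrib]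
  have hterm : ∀ i, B * (‖c i‖ ^ 2 * (q i * ∑' ρ : Zt (D := zd (L := zL)), (mu (D := zd (L := zL)) (ρ : ℂ) : ℝ) * (1 / (1 + ((ρ : ℂ).im - γ i) ^ 2)))) +
      -(‖c i‖ ^ 2 * E i / 16) ≤ -(‖c i‖ ^ 2 * (E i / 300)) := by
    intro i
    have h4 : q i * ∑' ρ : Zt (D := zd (L := zL)), (mu (D := zd (L := zL)) (ρ : ℂ) : ℝ) * (1 / (1 + ((ρ : ℂ).im - γ i) ^ 2)) ≤ q i * (K * Lg (γ i)) :=
      mul_le_mul_of_nonneg_left (hz (γ i)) (by linarith [hq1 i])
    have h5 : q i * (K * Lg (γ i)) = K / C * E i := by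
      have := (hCL i).ne'
      have h6 : Lg (γ i) ≠ 0 := fun h => this (by rw [h, mul_zero])
      rw [hq]
      simp only
      field_simp
    have h6 : B * (K / C * E i) ≤ E i / 17 := by
      have h7 : B * (K / C) ≤ 1 / 17 := by
        rw [← mul_div_assoc, div_le_div_iff₀ hC0 (by norm_num), hC]
        linarith
      have := mul_le_mul_of_nonneg_right h7 (hE0 i).le
      linarith only [this]
    have h8 : B * (‖c i‖ ^ 2 * (q i * ∑' ρ : Zt (D := zd (L := zL)), (mu (D := zd (L := zL)) (ρ : ℂ) : ℝ) * (1 / (1 + ((ρ : ℂ).im - γ i) ^ 2)))) ≤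
        ‖c i‖ ^ 2 * (E i / 17) := by
      have h9 := mul_le_mul_of_nonneg_left (h4.trans_eq h5) hB0.le
      have h10 := mul_le_mul_of_nonneg_left (h9.trans h6) (sq_nonneg ‖c i‖)
      linarith only [h10]
    have h11 : 0 ≤ ‖c i‖ ^ 2 * E i := mul_nonneg (sq_nonneg _) (hE0 i).le
    linarith only [h8, h11]
  refine lt_of_le_of_lt (Finset.sum_le_sum fun i _ => hterm i) ?_
  rw [Finset.sum_neg_distrib, neg_lt_zero]
  obtain ⟨i, hi⟩ := Function.ne_iff.1 hc
  refine Finset.sum_pos' (fun i _ => ?_) ⟨i, Finset.mem_univ i, ?_⟩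
  · have := hE0 i
    positivity
  · have := hE0 i
    have hi' : 0 < ‖c i‖ := norm_pos_iff.2 hi
    positivity

open Pool.Agent.Zk4.W in
/-- isolated zeros give negative squares, for the sum over the zeros -/
theorem isolatedW : ∃ C : ℝ, 0 < C ∧ ∀ L : ℝ, 1 ≤ L → ∀ (ι : Type) [Fintype ι] (z : ι → Zs),
    Function.Injective z → (∀ i, 1 / 2 < (z i : ℂ).re) →
    (∀ i, C * Real.log (3 + |(z i : ℂ).im|) ≤ Real.exp (((z i : ℂ).re - 1 / 2) * L)) →
    (∀ i, ∀ ρ : Zs, |(ρ : ℂ).im - (z i : ℂ).im| ≤ 28 * L →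
      (ρ : ℂ) = z i ∨ (ρ : ℂ) = 1 - conj (z i : ℂ) ∨
        C * Real.log (3 + |(z i : ℂ).im|) * Real.exp (|(ρ : ℂ).re - 1 / 2| * L) ≤ Real.exp (((z i : ℂ).re - 1 / 2) * L)) →
    ∃ F : ι → ℝ → ℂ, ∀ c : ι → ℂ, c ≠ 0 → MemLp (fun x : ℝ => ∑ i, c i * F i x) 2 volume ∧
      (∀ x : ℝ, x ∉ Icc (-(L / 2)) (L / 2) → ∑ i, c i * F i x = 0) ∧
      Integrable (fun t : ℝ => Real.log (3 + |t|) * ‖Ml (fun x : ℝ => ∑ i, c i * F i x) (t * I)‖ ^ 2) ∧
      (∑' ρ, wterm (fun x : ℝ => ∑ i, c i * F i x) ρ).re < 0 := by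
  obtain ⟨C, hC, h⟩ := isolated
  refine ⟨C, hC, fun L hL ι _ z hinj hre h1 h2 => ?_⟩
  obtain ⟨F, hF⟩ := h L hL ι (fun i => ⟨(z i : ℂ), (zero_iff _).1 (z i).2⟩)
    (fun i j hij => hinj (Subtype.ext (congrArg (fun ρ : Zt (D := zd (L := zL)) => (ρ : ℂ)) hij))) hre h1
    fun i ρ hρ => h2 i ⟨(ρ : ℂ), (zero_iff _).2 ρ.2⟩ hρ
  refine ⟨F, fun c hc => ?_⟩
  obtain ⟨hf, hneg⟩ := hF c hc
  refine ⟨hf.1.1, fun x hx => hf.1.2 x ?_, hf.2, ?_⟩
  · by_contra h3
    have h4 := abs_le.1 (not_lt.1 h3)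
    exact hx ⟨h4.1, h4.2⟩
  · rw [(Pool.Agent.Zk2.WP.form_QQ (by linarith) hf).2, Complex.ofReal_re]
    exact hneg

end P

end Pool.Agent.Zk2.LX
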