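import Pool.Agent.Zk2.WP.Lim

/-! # The sharp local Weil criterion: Schur's test for the primes -/

set_option autoImplicit false
set_option maxHeartbeats 1000000

open Complex Filter Topology Set MeasureTheory
open scoped ComplexConjugate

namespace Pool.Agent.Zk2.LX

open Pool.Agent.Y23 (Fa N2 N2_nonneg)
open Pool.Agent.Y23.G (aL)
open Pool.Agent.Zk2.WP (zL aL_eq)

/-- the weight -/
noncomputable def ww (x : ℝ) : ℝ := Real.exp (x / 2) + Real.exp (-(x / 2))

lemma ww_pos (x : ℝ) : 0 < ww x := by unfold ww; positivity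

lemma ww_cont : Continuous ww := by unfold ww; fun_prop

lemma ww_shift {x l : ℝ} (hl : 0 ≤ l) : ww (x + l) / ww x ≤ Real.exp (l / 2) := by
  rw [div_le_iff₀ (ww_pos x)]
  unfold ww
  rw [mul_add, ← Real.exp_add, ← Real.exp_add]
  have h1 : Real.exp ((x + l) / 2) = Real.exp (l / 2 + x / 2) := by congr 1; ring
  have h2 : Real.exp (-((x + l) / 2)) ≤ Real.exp (l / 2 + -(x / 2)) := Real.exp_le_exp.2 (by linarith)
  linarith

lemma ww_shift' {x l : ℝ} (hl : 0 ≤ l) : ww (x - l) / ww x ≤ Real.exp (l / 2) := by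
  rw [div_le_iff₀ (ww_pos x)]
  unfold ww
  rw [mul_add, ← Real.exp_add, ← Real.exp_add]
  have h1 : Real.exp ((x - l) / 2) ≤ Real.exp (l / 2 + x / 2) := Real.exp_le_exp.2 (by linarith)
  have h2 : Real.exp (-((x - l) / 2)) = Real.exp (l / 2 + -(x / 2)) := by congr 1; ring
  linarith

/-- the two multipliers -/
noncomputable def phi1 (b l x : ℝ) : ℝ := (Iic (b - l)).indicator (fun x => ww (x + l) / ww x) x
noncomputable def phi2 (b l x : ℝ) : ℝ := (Ici (l - b)).indicator (fun x => ww (x - l) / ww x) x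

lemma phi1_nonneg (b l x : ℝ) : 0 ≤ phi1 b l x :=
  indicator_nonneg (fun x _ => (div_pos (ww_pos _) (ww_pos _)).le) x

lemma phi2_nonneg (b l x : ℝ) : 0 ≤ phi2 b l x :=
  indicator_nonneg (fun x _ => (div_pos (ww_pos _) (ww_pos _)).le) x

lemma phi1_le {b l x : ℝ} (hl : 0 ≤ l) : phi1 b l x ≤ Real.exp (l / 2) := by
  unfold phi1
  by_cases h : x ∈ Iic (b - l)
  · rw [indicator_of_mem h]; exact ww_shift hl
  · rw [indicator_of_notMem h]; positivity

lemma phi2_le {b l x : ℝ} (hl : 0 ≤ l) : phi2 b l x ≤ Real.exp (l / 2) := by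
  unfold phi2
  by_cases h : x ∈ Ici (l - b)
  · rw [indicator_of_mem h]; exact ww_shift' hl
  · rw [indicator_of_notMem h]; positivity

lemma phi1_meas (b l : ℝ) : Measurable (phi1 b l) := by
  refine Measurable.indicator ?_ measurableSet_Iic
  exact ((ww_cont.comp (by fun_prop : Continuous fun x : ℝ => x + l)).div ww_cont fun x => (ww_pos x).ne').measurable

lemma phi2_meas (b l : ℝ) : Measurable (phi2 b l) := by
  refine Measurable.indicator ?_ measurableSet_Ici
  exact ((ww_cont.comp (by fun_prop : Continuous fun x : ℝ => x - l)).div ww_cont fun x => (ww_pos x).ne').measurable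

lemma phi1_int {b l : ℝ} (hl : 0 ≤ l) {g : ℝ → ℂ} (hg : Fa b g) : Integrable (fun x => phi1 b l x * ‖g x‖ ^ 2) :=
  hg.sq_int.bdd_mul (phi1_meas b l).aestronglyMeasurable (c := Real.exp (l / 2)) (Eventually.of_forall fun x => by
    rw [Real.norm_of_nonneg (phi1_nonneg _ _ _)]; exact phi1_le hl)

lemma phi2_int {b l : ℝ} (hl : 0 ≤ l) {g : ℝ → ℂ} (hg : Fa b g) : Integrable (fun x => phi2 b l x * ‖g x‖ ^ 2) :=
  hg.sq_int.bdd_mul (phi2_meas b l).aestronglyMeasurable (c := Real.exp (l / 2)) (Eventually.of_forall fun x => by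
    rw [Real.norm_of_nonneg (phi2_nonneg _ _ _)]; exact phi2_le hl)

/-- one shift -/
lemma one_shift {b l : ℝ} (hl : 0 ≤ l) {g : ℝ → ℂ} (hg : Fa b g) :
    2 * ‖∫ x : ℝ, g (x + l) * conj (g x)‖ ≤ ∫ x : ℝ, (phi1 b l x + phi2 b l x) * ‖g x‖ ^ 2 := by
  have h1 := phi1_int hl hg
  have h2 := phi2_int hl hg
  have h2' := h2.comp_add_right l
  have hpt : ∀ x : ℝ, ‖g (x + l) * conj (g x)‖ ≤ (phi1 b l x * ‖g x‖ ^ 2 + phi2 b l (x + l) * ‖g (x + l)‖ ^ 2) / 2 := by
    intro x
    rw [norm_mul, RCLike.norm_conj]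
    have k1 := mul_nonneg (phi1_nonneg b l x) (sq_nonneg ‖g x‖)
    have k2 := mul_nonneg (phi2_nonneg b l (x + l)) (sq_nonneg ‖g (x + l)‖)
    by_cases hx : |x| ≤ b
    · by_cases hy : |x + l| ≤ b
      · have e1 : phi1 b l x = ww (x + l) / ww x := by
          unfold phi1
          rw [indicator_of_mem]
          have := (abs_le.1 hy).2
          exact mem_Iic.2 (by linarith)
        have e2 : phi2 b l (x + l) = ww x / ww (x + l) := by
          unfold phi2
          rw [indicator_of_mem]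
          · rw [add_sub_cancel_right]
          · have := (abs_le.1 hx).1
            exact mem_Ici.2 (by linarith)
        rw [e1, e2]
        have p1 := ww_pos x
        have p2 := ww_pos (x + l)
        set s : ℝ := ww (x + l) / ww x with hs
        have hs0 : 0 < s := div_pos p2 p1
        have e3 : ww x / ww (x + l) = s⁻¹ := by rw [hs, inv_div]
        rw [e3]
        have h3 : 0 ≤ (s * ‖g x‖ - ‖g (x + l)‖) ^ 2 / s := div_nonneg (sq_nonneg _) hs0.le
        have e4 : (s * ‖g x‖ - ‖g (x + l)‖) ^ 2 / s = s * ‖g x‖ ^ 2 + s⁻¹ * ‖g (x + l)‖ ^ 2 - 2 * (‖g (x + l)‖ * ‖g x‖) := by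
          field_simp
          ring
        linarith
      · have : g (x + l) = 0 := hg.2 _ (not_le.1 hy)
        rw [this, norm_zero, zero_mul]
        rw [this, norm_zero] at k2
        linarith
    · have : g x = 0 := hg.2 _ (not_le.1 hx)
      rw [this, norm_zero, mul_zero]
      rw [this, norm_zero] at k1
      linarith
  have h3 := norm_integral_le_of_norm_le ((h1.add h2').div_const 2) (Eventually.of_forall hpt)
  have e1 : ∫ x : ℝ, (phi1 b l x * ‖g x‖ ^ 2 + phi2 b l (x + l) * ‖g (x + l)‖ ^ 2) / 2 =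
      (∫ x : ℝ, (phi1 b l x + phi2 b l x) * ‖g x‖ ^ 2) / 2 := by
    rw [integral_div, integral_add h1 h2']
    have e2 : ∫ x : ℝ, phi2 b l (x + l) * ‖g (x + l)‖ ^ 2 = ∫ x : ℝ, phi2 b l x * ‖g x‖ ^ 2 :=
      integral_add_right_eq_self (fun x => phi2 b l x * ‖g x‖ ^ 2) l
    rw [e2, ← integral_add h1 h2]
    congr 1
    refine integral_congr_ae (Eventually.of_forall fun x => ?_)
    simp only
    ring
  have h4 : ‖∫ x : ℝ, g (x + l) * conj (g x)‖ ≤ (∫ x : ℝ, (phi1 b l x + phi2 b l x) * ‖g x‖ ^ 2) / 2 := by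
    rw [← e1]; exact h3
  linarith

open ArithmeticFunction in
/-- Schur's test -/
theorem schur {b c e0 d : ℝ} (hb : 0 < b) (h1 : ∀ y : ℝ, 1 ≤ y → y ≤ Real.exp (2 * b) →
    ∑ n ∈ Finset.Icc 1 ⌊y⌋₊, vonMangoldt n ≤ c * y + e0)
    (h2 : ∑ n ∈ Finset.Icc 1 ⌊Real.exp (2 * b)⌋₊, vonMangoldt n / n ≤ d) {g : ℝ → ℂ} (hg : Fa b g) :
    2 * (∑ n ∈ Finset.Icc 1 ⌊Real.exp (2 * b)⌋₊, aL (L := zL) n * ∫ x : ℝ, g (x + Real.log n) * conj (g x)).re ≤
      (c * Real.exp b + e0 + d) * N2 g := by
  set N : ℕ := ⌊Real.exp (2 * b)⌋₊ with hN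
  -- the multiplier
  have hS : ∀ x : ℝ, |x| ≤ b → ∑ n ∈ Finset.Icc 1 N, vonMangoldt n / Real.sqrt n * (phi1 b (Real.log n) x + phi2 b (Real.log n) x) ≤
      c * Real.exp b + e0 + d := by
    intro x hx
    obtain ⟨hx1, hx2⟩ := abs_le.1 hx
    have hw := ww_pos x
    have hfil : ∀ z : ℝ, -b ≤ z → z ≤ b → ∑ n ∈ (Finset.Icc 1 N).filter (fun n : ℕ => Real.log n ≤ b - z), vonMangoldt n ≤
        c * Real.exp (b - z) + e0 := by
      intro z hz1 hz2
      have e : (Finset.Icc 1 N).filter (fun n : ℕ => Real.log n ≤ b - z) = Finset.Icc 1 ⌊Real.exp (b - z)⌋₊ := by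
        ext n
        rw [Finset.mem_filter, Finset.mem_Icc, Finset.mem_Icc]
        constructor
        · rintro ⟨⟨k1, k2⟩, k3⟩
          refine ⟨k1, Nat.le_floor ?_⟩
          rwa [← Real.log_le_iff_le_exp (by exact_mod_cast k1)]
        · rintro ⟨k1, k2⟩
          have k3 : (n : ℝ) ≤ Real.exp (b - z) := (Nat.le_floor_iff (Real.exp_pos _).le).1 k2
          refine ⟨⟨k1, ?_⟩, ?_⟩
          · rw [hN]
            refine Nat.le_floor (k3.trans (Real.exp_le_exp.2 (by linarith)))
          · rwa [Real.log_le_iff_le_exp (by exact_mod_cast k1)]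
      rw [e]
      exact h1 _ (Real.one_le_exp (by linarith)) (Real.exp_le_exp.2 (by linarith))
    have hfil2 : ∀ z : ℝ, ∑ n ∈ (Finset.Icc 1 N).filter (fun n : ℕ => Real.log n ≤ b - z), vonMangoldt n / n ≤ d := by
      intro z
      refine le_trans (Finset.sum_le_sum_of_subset_of_nonneg (Finset.filter_subset _ _) fun n _ _ => ?_) h2
      exact div_nonneg vonMangoldt_nonneg (Nat.cast_nonneg _)
    have hsq : ∀ n : ℕ, 1 ≤ n → Real.sqrt n * Real.sqrt n = n := fun n _ => Real.mul_self_sqrt (Nat.cast_nonneg _)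
    have hexp : ∀ n : ℕ, 1 ≤ n → Real.exp (Real.log n / 2) = Real.sqrt n := by
      intro n hn
      rw [Real.sqrt_eq_rpow, Real.rpow_def_of_pos (by exact_mod_cast hn)]
      congr 1
      ring
    have t1 : ∀ n ∈ Finset.Icc 1 N, vonMangoldt n / Real.sqrt n * phi1 b (Real.log n) x =
        if Real.log n ≤ b - x then (vonMangoldt n * Real.exp (x / 2) + vonMangoldt n / n * Real.exp (-(x / 2))) / ww x else 0 := by
      intro n hn
      have hn1 := (Finset.mem_Icc.1 hn).1
      have hs0 : 0 < Real.sqrt n := Real.sqrt_pos.2 (by exact_mod_cast hn1)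
      have hn0 : (0 : ℝ) < n := by exact_mod_cast hn1
      unfold phi1
      split_ifs with h
      · rw [indicator_of_mem (mem_Iic.2 (by linarith))]
        have e1 : ww (x + Real.log n) = Real.exp (x / 2) * Real.sqrt n + Real.exp (-(x / 2)) / Real.sqrt n := by
          unfold ww
          rw [← hexp n hn1, ← Real.exp_sub, ← Real.exp_add]
          congr 2 <;> ring
        rw [e1]
        have e2 := hsq n hn1
        rw [div_mul_div_comm, div_eq_div_iff (by positivity) hw.ne']
        have e3 : vonMangoldt n / n = vonMangoldt n / (Real.sqrt n * Real.sqrt n) := by rw [e2]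
        rw [e3]
        field_simp
      · rw [indicator_of_notMem, mul_zero]
        intro h'
        exact h (by have := mem_Iic.1 h'; linarith)
    have t2 : ∀ n ∈ Finset.Icc 1 N, vonMangoldt n / Real.sqrt n * phi2 b (Real.log n) x =
        if Real.log n ≤ b - (-x) then (vonMangoldt n * Real.exp (-(x / 2)) + vonMangoldt n / n * Real.exp (x / 2)) / ww x else 0 := by
      intro n hn
      have hn1 := (Finset.mem_Icc.1 hn).1
      have hs0 : 0 < Real.sqrt n := Real.sqrt_pos.2 (by exact_mod_cast hn1)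
      have hn0 : (0 : ℝ) < n := by exact_mod_cast hn1
      unfold phi2
      split_ifs with h
      · rw [indicator_of_mem (mem_Ici.2 (by linarith))]
        have e1 : ww (x - Real.log n) = Real.exp (x / 2) / Real.sqrt n + Real.exp (-(x / 2)) * Real.sqrt n := by
          unfold ww
          rw [← hexp n hn1, ← Real.exp_sub, ← Real.exp_add]
          congr 2 <;> ring
        rw [e1]
        have e2 := hsq n hn1
        rw [div_mul_div_comm, div_eq_div_iff (by positivity) hw.ne']
        have e3 : vonMangoldt n / n = vonMangoldt n / (Real.sqrt n * Real.sqrt n) := by rw [e2]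
        rw [e3]
        field_simp
        ring
      · rw [indicator_of_notMem, mul_zero]
        intro h'
        exact h (by have := mem_Ici.1 h'; linarith)
    simp_rw [mul_add]
    rw [Finset.sum_add_distrib, Finset.sum_congr rfl t1, Finset.sum_congr rfl t2, ← Finset.sum_filter, ← Finset.sum_filter,
      ← Finset.sum_div, ← Finset.sum_div, Finset.sum_add_distrib, Finset.sum_add_distrib, ← Finset.sum_mul, ← Finset.sum_mul,
      ← Finset.sum_mul, ← Finset.sum_mul, ← add_div, div_le_iff₀ hw]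
    have k1 := mul_le_mul_of_nonneg_right (hfil x hx1 hx2) (Real.exp_pos (x / 2)).le
    have k2 := mul_le_mul_of_nonneg_right (hfil2 x) (Real.exp_pos (-(x / 2))).le
    have k3 := mul_le_mul_of_nonneg_right (hfil (-x) (by linarith) (by linarith)) (Real.exp_pos (-(x / 2))).le
    have k4 := mul_le_mul_of_nonneg_right (hfil2 (-x)) (Real.exp_pos (x / 2)).le
    have e5 : Real.exp (b - x) * Real.exp (x / 2) = Real.exp b * Real.exp (-(x / 2)) := by
      rw [← Real.exp_add, ← Real.exp_add]; congr 1; ring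
    have e6 : Real.exp (b - -x) * Real.exp (-(x / 2)) = Real.exp b * Real.exp (x / 2) := by
      rw [← Real.exp_add, ← Real.exp_add]; congr 1; ring
    have k5 : (c * Real.exp (b - x) + e0) * Real.exp (x / 2) = c * (Real.exp b * Real.exp (-(x / 2))) + e0 * Real.exp (x / 2) := by
      rw [← e5]; ring
    have k6 : (c * Real.exp (b - -x) + e0) * Real.exp (-(x / 2)) = c * (Real.exp b * Real.exp (x / 2)) + e0 * Real.exp (-(x / 2)) := by
      rw [← e6]; ring
    rw [k5] at k1
    rw [k6] at k3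
    unfold ww
    linarith
  -- the sum of the shifts
  have h3 : 2 * (∑ n ∈ Finset.Icc 1 N, aL (L := zL) n * ∫ x : ℝ, g (x + Real.log n) * conj (g x)).re ≤
      ∑ n ∈ Finset.Icc 1 N, vonMangoldt n / Real.sqrt n * ∫ x : ℝ, (phi1 b (Real.log n) x + phi2 b (Real.log n) x) * ‖g x‖ ^ 2 := by
    rw [Complex.re_sum, Finset.mul_sum]
    refine Finset.sum_le_sum fun n hn => ?_
    have hn1 := (Finset.mem_Icc.1 hn).1
    have hl : 0 ≤ Real.log n := Real.log_nonneg (by exact_mod_cast hn1)
    have hv : 0 ≤ vonMangoldt n / Real.sqrt n := div_nonneg vonMangoldt_nonneg (Real.sqrt_nonneg _)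
    rw [aL_eq hn1, Complex.re_ofReal_mul]
    have k1 := one_shift hl hg
    have k2 := Complex.re_le_norm (∫ x : ℝ, g (x + Real.log n) * conj (g x))
    have k3 : 2 * (∫ x : ℝ, g (x + Real.log n) * conj (g x)).re ≤ ∫ x : ℝ, (phi1 b (Real.log n) x + phi2 b (Real.log n) x) * ‖g x‖ ^ 2 := by
      linarith
    have k4 := mul_le_mul_of_nonneg_left k3 hv
    linarith
  refine h3.trans ?_
  have hint : ∀ n ∈ Finset.Icc 1 N, Integrable (fun x : ℝ => vonMangoldt n / Real.sqrt n *
      ((phi1 b (Real.log n) x + phi2 b (Real.log n) x) * ‖g x‖ ^ 2)) := by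
    intro n hn
    have hn1 := (Finset.mem_Icc.1 hn).1
    have hl : 0 ≤ Real.log n := Real.log_nonneg (by exact_mod_cast hn1)
    refine Integrable.const_mul (((phi1_int hl hg).add (phi2_int hl hg)).congr (Eventually.of_forall fun x => ?_)) _
    simp only [Pi.add_apply]
    ring
  have e7 : ∑ n ∈ Finset.Icc 1 N, vonMangoldt n / Real.sqrt n * ∫ x : ℝ, (phi1 b (Real.log n) x + phi2 b (Real.log n) x) * ‖g x‖ ^ 2 =
      ∫ x : ℝ, ∑ n ∈ Finset.Icc 1 N, vonMangoldt n / Real.sqrt n * ((phi1 b (Real.log n) x + phi2 b (Real.log n) x) * ‖g x‖ ^ 2) := by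
    rw [integral_finsetSum _ hint]
    exact Finset.sum_congr rfl fun n _ => (integral_const_mul _ _).symm
  rw [e7]
  unfold N2
  rw [← integral_const_mul]
  refine integral_mono (integrable_finsetSum _ hint) (hg.sq_int.const_mul _) fun x => ?_
  simp only
  have e8 : ∑ n ∈ Finset.Icc 1 N, vonMangoldt n / Real.sqrt n * ((phi1 b (Real.log n) x + phi2 b (Real.log n) x) * ‖g x‖ ^ 2) =
      (∑ n ∈ Finset.Icc 1 N, vonMangoldt n / Real.sqrt n * (phi1 b (Real.log n) x + phi2 b (Real.log n) x)) * ‖g x‖ ^ 2 := by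
    rw [Finset.sum_mul]
    exact Finset.sum_congr rfl fun n _ => by ring
  rw [e8]
  by_cases hx : |x| ≤ b
  · exact mul_le_mul_of_nonneg_right (hS x hx) (sq_nonneg _)
  · rw [hg.2 x (not_le.1 hx), norm_zero]
    simp

end Pool.Agent.Zk2.LX
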