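import Pool.Agent.Zk2.LX.Q

/-! # Isolated zeros give negative squares: general L-functions, uniformly in the conductor -/

set_option autoImplicit false
set_option linter.unusedSectionVars false
set_option maxHeartbeats 4000000

open Complex Filter Topology Set MeasureTheory
open scoped ComplexConjugate

namespace Pool.Agent.Zk2.LX

namespace P

open Pool.Agent.Y23 (TT Fa N2 TT_sub TT_add TT_smul)
open Pool.Agent.Y23.G
open Pool.Agent.Zk2.WP (zL zero_iff sg Av)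

/-- numerics -/
lemma num_tail' {b E y : ℝ} (hb2 : b ≤ 1) (hE4 : 20 ≤ E) (hy0 : 0 < y) (e2 : y ^ 2 = E * Real.exp (-b)) :
    E / 8 ≤ (y - y⁻¹) ^ 2 := by
  have e3 : 9 / 25 ≤ Real.exp (-b) := by
    have h5 : Real.exp (-1) ≤ Real.exp (-b) := Real.exp_le_exp.2 (by linarith)
    have h6 : 9 / 25 ≤ Real.exp (-1) := by
      have h7 : Real.exp (-1) * Real.exp 1 = 1 := by rw [← Real.exp_add]; norm_num
      have h8 := Real.exp_one_lt_d9
      have h9 := Real.exp_pos (-1)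
      nlinarith only [h7, h8, h9]
    linarith only [h5, h6]
  have e4 : 9 / 25 * E ≤ y ^ 2 := by
    rw [e2]
    have := mul_le_mul_of_nonneg_left e3 (show (0 : ℝ) ≤ E by linarith)
    linarith only [this]
  have e5 : 36 / 5 ≤ y ^ 2 := by linarith only [e4, hE4]
  have e6 : y⁻¹ ≤ y / 5 := by
    rw [inv_le_comm₀ hy0 (by positivity)]
    rw [inv_div, div_le_iff₀ hy0]
    nlinarith only [e5]
  have e7 : 4 / 5 * y ≤ y - y⁻¹ := by linarith only [e6]
  have e8 : (4 / 5 * y) ^ 2 ≤ (y - y⁻¹) ^ 2 := pow_le_pow_left₀ (by positivity) e7 2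
  nlinarith only [e8, e4, hE4]

/-- the value at one zero -/
lemma one_val' {n : ℕ} (hn : 1 ≤ n) {s L b : ℝ} (hs : s = (L - 1) / 2) (hL : 1 ≤ L) (hb : 0 < b) (hb2 : b ≤ 1)
    (hE : 20 ≤ Real.exp (b * L)) (γ : ℝ) {w : ℂ} (hw : w = b + γ * I ∨ w = -conj ((b : ℂ) + γ * I)) :
    (GG (fs n s γ) (fs n s γ) w).re ≤ -(Real.exp (b * L) / 8) ∧
    ‖TT (fs n s γ) w‖ ^ 2 ≤ DD * Real.exp (b * L) ∧ ‖TT (fs n s γ) (-conj w)‖ ^ 2 ≤ DD * Real.exp (b * L) := by
  have hs0 : 0 ≤ s := by rw [hs]; linarith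
  have hre : |w.re| = b ∧ w.im = γ := by
    rcases hw with h | h
    · rw [h]
      simp [abs_of_pos hb]
    · rw [h]
      simp [abs_of_pos hb]
  have hw1 : |w.re| ≤ 1 := by rw [hre.1]; linarith
  have hexp : Real.exp (2 * s * |w.re|) ≤ Real.exp (b * L) := by
    rw [hre.1]
    refine Real.exp_le_exp.2 ?_
    rw [hs]
    nlinarith only [hb]
  have hD := DD_pos
  refine ⟨?_, ?_, ?_⟩
  · have h1 := GG_main hn hs0 hb γ
    have h2 : (GG (fs n s γ) (fs n s γ) w).re = (GG (fs n s γ) (fs n s γ) (b + γ * I)).re := by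
      rcases hw with h | h
      · rw [h]
      · have e2 : GG (fs n s γ) (fs n s γ) w = conj (GG (fs n s γ) (fs n s γ) (b + γ * I)) := by
          rw [h]
          unfold GG
          rw [map_mul, Complex.conj_conj]
          simp only [map_neg, Complex.conj_conj, neg_neg]
          ring
        rw [e2, Complex.conj_re]
    rw [h2]
    refine h1.trans ?_
    have e2 : Real.exp (s * b) ^ 2 = Real.exp (b * L) * Real.exp (-b) := by
      rw [← Real.exp_nat_mul, ← Real.exp_add]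
      congr 1
      rw [hs]
      push_cast
      ring
    have e3 := num_tail' (b := b) (E := Real.exp (b * L)) (y := Real.exp (s * b)) hb2 hE (Real.exp_pos _) e2
    rw [Real.exp_neg]
    linarith only [e3]
  · have h1 := TT_fs_bd hn hs0 γ hw1
    rw [hre.2, sub_self] at h1
    norm_num at h1
    exact h1.trans (mul_le_mul_of_nonneg_left hexp hD.le)
  · have h1 := TT_fs_bd hn hs0 γ (w := -conj w) (by simpa using hw1)
    have e1 : (-conj w).im = w.im := by simp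
    have e2 : |(-conj w).re| = |w.re| := by simp
    rw [e1, e2, hre.2, sub_self] at h1
    norm_num at h1
    exact h1.trans (mul_le_mul_of_nonneg_left hexp hD.le)

/-- the value off the zero -/
lemma off_val' {n : ℕ} (hn : 1 ≤ n) {s L : ℝ} (hs : s = (L - 1) / 2) (hL : 1 ≤ L) (hnL : L ≤ 2 * n) (hn28 : 22 * (n : ℝ) ≤ 33 * L)
    {γ q : ℝ} (hq : 1 ≤ q) {w : ℂ} (hw : |w.re| ≤ 1) (h : |w.im - γ| ≤ 33 * L → Real.exp (|w.re| * L) ≤ q) :
    ‖TT (fs n s γ) w‖ ^ 2 * (1 + (w.im - γ) ^ 2) ^ 3 ≤ DD * q := by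
  have hs0 : 0 ≤ s := by rw [hs]; linarith
  have hw1 : |w.re| ≤ 1 := by linarith
  have hD := DD_pos
  have ha := abs_nonneg w.re
  rcases le_or_gt |w.im - γ| (33 * L) with h1 | h1
  · refine (TT_fs_bd hn hs0 γ hw1).trans (mul_le_mul_of_nonneg_left (le_trans (Real.exp_le_exp.2 ?_) (h h1)) hD.le)
    rw [hs]
    nlinarith only [ha]
  · refine (TT_fs_far hn hs0 γ hw1 (hn28.trans h1.le)).trans (mul_le_mul_of_nonneg_left ?_ hD.le)
    refine le_trans ?_ hq
    rw [← Real.exp_add, Real.exp_le_one_iff]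
    have h2 : 2 * s * |w.re| ≤ L := by
      rw [hs]
      nlinarith only [ha, hw, hL]
    linarith only [h2, hnL]

/-- ISOLATED ZEROS GIVE NEGATIVE SQUARES -/
theorem isolated_gen : ∃ C : ℝ, 0 < C ∧ ∀ (D : ZD) (EC : ZC) (K : ℝ → ℝ), (∀ t, 1 ≤ K t) →
    (∀ t, ∑' ρ : Zt (D := D), (mu (D := D) (ρ : ℂ) : ℝ) * (1 / (1 + ((ρ : ℂ).im - t) ^ 2)) ≤ K t) →
    ∀ L : ℝ, 1 ≤ L → ∀ (ι : Type) [Fintype ι] (z : ι → Zt (D := D)),
    Function.Injective z → (∀ i, 1 / 2 < (z i : ℂ).re) →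
    (∀ i, C * K (z i : ℂ).im ≤ Real.exp (((z i : ℂ).re - 1 / 2) * L)) →
    (∀ i, ∀ ρ : Zt (D := D), |(ρ : ℂ).im - (z i : ℂ).im| ≤ 33 * L →
      (ρ : ℂ) = z i ∨ (ρ : ℂ) = 1 - conj (z i : ℂ) ∨
        C * K (z i : ℂ).im * Real.exp (|(ρ : ℂ).re - 1 / 2| * L) ≤ Real.exp (((z i : ℂ).re - 1 / 2) * L)) →
    ∃ F : ι → ℝ → ℂ, ∀ c : ι → ℂ, c ≠ 0 → Hd (L / 2) (fun x => ∑ i, c i * F i x) ∧
      QQ (D := D) (fun x => ∑ i, c i * F i x) < 0 := by
  classical
  obtain ⟨K2, hK2, hsep⟩ := sep_sum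
  have hD := DD_pos
  set B : ℝ := (16 * DD + 1) * (DD * K2) with hB
  have hB0 : 0 < B := by positivity
  set C : ℝ := 17 * B + 20 with hC
  have hC0 : 0 < C := by rw [hC]; linarith
  have hC4 : 20 ≤ C := by rw [hC]; linarith
  refine ⟨C, hC0, fun D EC K hK1 hz L hL ι _ z hinj hre h1 h2 => ?_⟩
  set γ : ι → ℝ := fun i => (z i : ℂ).im with hγ
  set b : ι → ℝ := fun i => (z i : ℂ).re - 1 / 2 with hb
  set E : ι → ℝ := fun i => Real.exp (b i * L) with hE
  set q : ι → ℝ := fun i => E i / (C * K (γ i)) with hq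
  have hstrip : ∀ ρ : Zt (D := D), |(ρ : ℂ).re - 1 / 2| ≤ 1 := fun ρ => D.strip _ ρ.2
  have hb0 : ∀ i, 0 < b i := fun i => sub_pos.2 (hre i)
  have hb2 : ∀ i, b i ≤ 1 := fun i => (le_abs_self _).trans (hstrip (z i))
  have hE0 : ∀ i, 0 < E i := fun i => Real.exp_pos _
  have hCL : ∀ i, 0 < C * K (γ i) := fun i => mul_pos hC0 (lt_of_lt_of_le one_pos (hK1 _))
  have hCL4 : ∀ i, 20 ≤ C * K (γ i) := fun i => by
    have h3 := mul_le_mul_of_nonneg_left (hK1 (γ i)) hC0.le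
    linarith
  have hE4 : ∀ i, 20 ≤ E i := fun i => (hCL4 i).trans (h1 i)
  have hq1 : ∀ i, 1 ≤ q i := fun i => by
    rw [hq]
    simp only
    rw [le_div_iff₀ (hCL i), one_mul]
    exact h1 i
  -- separation
  have hsepz : ∀ i j, i ≠ j → 1 ≤ |γ i - γ j| := by
    intro i j hij
    by_contra hlt
    rw [not_le] at hlt
    have key : ∀ i j, i ≠ j → |γ i - γ j| ≤ 33 * L → 20 * E i ≤ E j := by
      intro i j hij h3
      rcases h2 j (z i) h3 with h4 | h4 | h4
      · exact absurd (hinj (Subtype.ext h4)) hij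
      · have h5 := congrArg Complex.re h4
        simp only [Complex.sub_re, Complex.one_re, Complex.conj_re] at h5
        have := hre i
        have := hre j
        linarith
      · rw [abs_of_pos (hb0 i)] at h4
        refine le_trans ?_ h4
        exact mul_le_mul_of_nonneg_right (hCL4 j) (hE0 i).le
    have h3 := key i j hij (by linarith)
    have h4 := key j i hij.symm (by rw [abs_sub_comm]; linarith)
    have h5 := hE0 i
    have h6 := hE0 j
    linarith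
  -- parameters
  set n : ℕ := ⌈L / 2⌉₊ with hn'
  have hn : 1 ≤ n := Nat.one_le_iff_ne_zero.2 (Nat.ceil_pos.2 (by linarith)).ne'
  have hn1 : L / 2 ≤ n := Nat.le_ceil _
  have hn2 : (n : ℝ) < L / 2 + 1 := Nat.ceil_lt_add_one (by linarith)
  have hnL : L ≤ 2 * n := by linarith
  have hn28 : 22 * (n : ℝ) ≤ 33 * L := by linarith
  set s : ℝ := (L - 1) / 2 with hs
  have hs0 : 0 ≤ s := by rw [hs]; linarith
  have hsL : s + 1 / 2 = L / 2 := by rw [hs]; ring
  have hF : ∀ i, Hd (L / 2) (fs n s (γ i)) := fun i => by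
    have h3 := fs_Hd hn hs0 (γ i)
    rwa [hsL] at h3
  refine ⟨fun i => fs n s (γ i), fun c hc => ⟨Hd_sum hF c Finset.univ, ?_⟩⟩
  set f : ℝ → ℂ := fun x => ∑ i, c i * fs n s (γ i) x with hf
  have hfHd : Hd (L / 2) f := Hd_sum hF c Finset.univ
  have hTT : ∀ w, TT f w = ∑ i, c i * TT (fs n s (γ i)) w := fun w => TT_sum hF c w Finset.univ
  -- the rest
  have hrest : ∀ (ρ : Zt (D := D)) (T : Finset ι) (w : ℂ), |w.re| = |(ρ : ℂ).re - 1 / 2| → w.im = (ρ : ℂ).im →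
      (∀ i ∈ T, (ρ : ℂ) ≠ z i ∧ (ρ : ℂ) ≠ 1 - conj (z i : ℂ)) →
      ‖∑ i ∈ T, c i * TT (fs n s (γ i)) w‖ ^ 2 ≤
        DD * K2 * ∑ i, ‖c i‖ ^ 2 * (q i * (1 / (1 + ((ρ : ℂ).im - γ i) ^ 2))) := by
    intro ρ T w hw1 hw2 hT
    refine rest_bd T c (fun i => TT (fs n s (γ i)) w) (fun i => 1 + ((ρ : ℂ).im - γ i) ^ 2) q
      (fun i => by nlinarith [sq_nonneg ((ρ : ℂ).im - γ i)]) (fun i => by linarith [hq1 i])
      (hsep ι γ hsepz _) fun i hi => ?_
    have h3 := off_val' hn hs hL hnL hn28 (γ := γ i) (hq1 i) (w := w) (by rw [hw1]; exact hstrip ρ) (fun h4 => ?_)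
    · rw [hw2] at h3
      exact h3
    · rw [hw2] at h4
      have h5 := ((h2 i ρ h4).resolve_left (hT i hi).1).resolve_left (hT i hi).2
      rw [hw1, hq]
      simp only
      rw [le_div_iff₀ (hCL i), mul_comm]
      exact h5
  set V : Zt (D := D) → ℝ := fun ρ => ∑ i, ‖c i‖ ^ 2 * (q i * (1 / (1 + ((ρ : ℂ).im - γ i) ^ 2))) with hV
  have hV0 : ∀ ρ, 0 ≤ V ρ := fun ρ => Finset.sum_nonneg fun i _ => by
    have := hq1 i
    positivity
  -- the pointwise bound
  have hpt0 : ∀ ρ : Zt (D := D), (GG f f ((ρ : ℂ) - 1 / 2)).re ≤ B * V ρ + ∑ j, (if ρ = z j then -(‖c j‖ ^ 2 * E j / 16) else 0) := by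
    intro ρ
    set w : ℂ := (ρ : ℂ) - 1 / 2 with hw
    have wim : w.im = (ρ : ℂ).im := by rw [hw]; simp
    have wre : |w.re| = |(ρ : ℂ).re - 1 / 2| := by rw [hw]; simp
    have wim' : (-conj w).im = (ρ : ℂ).im := by rw [← wim]; simp
    have wre' : |(-conj w).re| = |(ρ : ℂ).re - 1 / 2| := by rw [← wre]; simp
    have hDK : 0 ≤ DD * K2 * V ρ := by
      have := hV0 ρ
      positivity
    have hBV : B * V ρ = (16 * DD + 1) * (DD * K2 * V ρ) := by rw [hB]; ring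
    by_cases hex : ∃ j, (ρ : ℂ) = z j ∨ (ρ : ℂ) = 1 - conj (z j : ℂ)
    · obtain ⟨j, hj⟩ := hex
      have hT : ∀ i ∈ Finset.univ.erase j, (ρ : ℂ) ≠ z i ∧ (ρ : ℂ) ≠ 1 - conj (z i : ℂ) := by
        intro i hi
        have hij : i ≠ j := Finset.ne_of_mem_erase hi
        have hri := hre i
        have hrj := hre j
        rcases hj with h3 | h3
        · refine ⟨fun h4 => hij (hinj (Subtype.ext (h4.symm.trans h3))), fun h4 => ?_⟩
          have h5 := congrArg Complex.re (h3.symm.trans h4)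
          simp only [Complex.sub_re, Complex.one_re, Complex.conj_re] at h5
          linarith
        · refine ⟨fun h4 => ?_, fun h4 => ?_⟩
          · have h5 := congrArg Complex.re (h3.symm.trans h4)
            simp only [Complex.sub_re, Complex.one_re, Complex.conj_re] at h5
            linarith
          · have h5 := h3.symm.trans h4
            have h6 : conj (z j : ℂ) = conj (z i : ℂ) := sub_right_injective h5
            have h7 := congrArg (starRingEnd ℂ) h6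
            rw [Complex.conj_conj, Complex.conj_conj] at h7
            exact hij (hinj (Subtype.ext h7.symm))
      have hwj : w = (b j : ℂ) + γ j * I ∨ w = -conj ((b j : ℂ) + γ j * I) := by
        rcases hj with h3 | h3
        · left
          rw [hw, h3]
          apply Complex.ext <;> simp [hb, hγ]
        · right
          rw [hw, h3]
          apply Complex.ext
          · simp [hb]
            ring
          · simp [hγ]
      obtain ⟨v1, v2, v3⟩ := one_val' hn hs hL (hb0 j) (hb2 j) (hE4 j) (γ j) hwj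
      have hr := hrest ρ (Finset.univ.erase j) w wre wim hT
      have hr' := hrest ρ (Finset.univ.erase j) (-conj w) wre' wim' hT
      set r : ℂ := ∑ i ∈ Finset.univ.erase j, c i * TT (fs n s (γ i)) w with hrd
      set r' : ℂ := ∑ i ∈ Finset.univ.erase j, c i * TT (fs n s (γ i)) (-conj w) with hrd'
      have e1 : TT f w = c j * TT (fs n s (γ j)) w + r := by
        rw [hTT, hrd, Finset.add_sum_erase Finset.univ (fun i => c i * TT (fs n s (γ i)) w) (Finset.mem_univ j)]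
      have e2 : TT f (-conj w) = c j * TT (fs n s (γ j)) (-conj w) + r' := by
        rw [hTT, hrd', Finset.add_sum_erase Finset.univ (fun i => c i * TT (fs n s (γ i)) (-conj w)) (Finset.mem_univ j)]
      have h3 := cross (c j * TT (fs n s (γ j)) w) (c j * TT (fs n s (γ j)) (-conj w)) r r' (α := 1 / (16 * DD)) (by positivity)
      rw [← e1, ← e2] at h3
      have e3 : (c j * TT (fs n s (γ j)) w) * conj (c j * TT (fs n s (γ j)) (-conj w)) =
          ((‖c j‖ ^ 2 : ℝ) : ℂ) * GG (fs n s (γ j)) (fs n s (γ j)) w := by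
        have e4 : ((‖c j‖ ^ 2 : ℝ) : ℂ) = c j * conj (c j) := by
          rw [Complex.mul_conj, Complex.normSq_eq_norm_sq]
        rw [e4, map_mul]
        unfold GG
        ring
      rw [e3, Complex.re_ofReal_mul] at h3
      have h4 : ‖c j‖ ^ 2 * (GG (fs n s (γ j)) (fs n s (γ j)) w).re ≤ ‖c j‖ ^ 2 * (-(E j / 8)) :=
        mul_le_mul_of_nonneg_left v1 (by positivity)
      have h5 : ‖c j * TT (fs n s (γ j)) w‖ ^ 2 ≤ ‖c j‖ ^ 2 * (DD * E j) := by
        rw [norm_mul, mul_pow]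
        exact mul_le_mul_of_nonneg_left v2 (by positivity)
      have h6 : ‖c j * TT (fs n s (γ j)) (-conj w)‖ ^ 2 ≤ ‖c j‖ ^ 2 * (DD * E j) := by
        rw [norm_mul, mul_pow]
        exact mul_le_mul_of_nonneg_left v3 (by positivity)
      have e5 : 1 / (2 * (1 / (16 * DD))) + 1 / 2 = 8 * DD + 1 / 2 := by
        field_simp
        ring
      rw [e5] at h3
      have h7 : 1 / (16 * DD) / 2 * (‖c j * TT (fs n s (γ j)) w‖ ^ 2 + ‖c j * TT (fs n s (γ j)) (-conj w)‖ ^ 2) ≤ ‖c j‖ ^ 2 * E j / 16 := by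
        have h8 : 1 / (16 * DD) / 2 * (‖c j * TT (fs n s (γ j)) w‖ ^ 2 + ‖c j * TT (fs n s (γ j)) (-conj w)‖ ^ 2) ≤
            1 / (16 * DD) / 2 * (‖c j‖ ^ 2 * (DD * E j) + ‖c j‖ ^ 2 * (DD * E j)) :=
          mul_le_mul_of_nonneg_left (add_le_add h5 h6) (by positivity)
        refine h8.trans (le_of_eq ?_)
        field_simp
        ring
      have h8 : (8 * DD + 1 / 2) * (‖r‖ ^ 2 + ‖r'‖ ^ 2) ≤ B * V ρ := by
        rw [hBV]
        have h9 : (8 * DD + 1 / 2) * (‖r‖ ^ 2 + ‖r'‖ ^ 2) ≤ (8 * DD + 1 / 2) * (DD * K2 * V ρ + DD * K2 * V ρ) :=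
          mul_le_mul_of_nonneg_left (add_le_add hr hr') (by positivity)
        linarith only [h9]
      have h9 : (GG f f w).re ≤ B * V ρ - ‖c j‖ ^ 2 * E j / 16 := by
        show (TT f w * conj (TT f (-conj w))).re ≤ _
        linarith only [h3, h4, h7, h8]
      have h10 : -(‖c j‖ ^ 2 * E j / 16) ≤ ∑ j, (if ρ = z j then -(‖c j‖ ^ 2 * E j / 16) else 0) := by
        by_cases hρ : ρ = z j
        · have e6 : ∀ j', (if ρ = z j' then -(‖c j'‖ ^ 2 * E j' / 16) else 0) = if j = j' then -(‖c j'‖ ^ 2 * E j' / 16) else 0 := by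
            intro j'
            by_cases h11 : j = j'
            · rw [if_pos h11, if_pos (by rw [hρ, h11])]
            · rw [if_neg h11, if_neg (fun h12 => h11 (hinj (hρ.symm.trans h12)))]
          simp_rw [e6]
          rw [Finset.sum_ite_eq Finset.univ j, if_pos (Finset.mem_univ _)]
        · have e6 : ∀ j', (if ρ = z j' then -(‖c j'‖ ^ 2 * E j' / 16) else 0) = 0 := by
            intro j'
            refine if_neg fun h11 => ?_
            have h12 : j' ≠ j := fun h => hρ (h ▸ h11)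
            exact (hT j' (Finset.mem_erase.2 ⟨h12, Finset.mem_univ _⟩)).1 (congrArg _ h11)
          simp_rw [e6]
          rw [Finset.sum_const_zero]
          have := hE0 j
          have : 0 ≤ ‖c j‖ ^ 2 * E j / 16 := by positivity
          linarith
      linarith only [h9, h10]
    · rw [not_exists] at hex
      have hex' : ∀ i, (ρ : ℂ) ≠ z i ∧ (ρ : ℂ) ≠ 1 - conj (z i : ℂ) := fun i => not_or.1 (hex i)
      have hr := hrest ρ Finset.univ w wre wim fun i _ => hex' i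
      have hr' := hrest ρ Finset.univ (-conj w) wre' wim' fun i _ => hex' i
      rw [← hTT] at hr hr'
      have e6 : ∀ j', (if ρ = z j' then -(‖c j'‖ ^ 2 * E j' / 16) else 0) = 0 := fun j' =>
        if_neg fun h11 => (hex' j').1 (congrArg _ h11)
      simp_rw [e6]
      rw [Finset.sum_const_zero, add_zero, hBV]
      have h3 : (GG f f w).re ≤ ‖TT f w‖ * ‖TT f (-conj w)‖ := by
        refine (Complex.re_le_norm _).trans (le_of_eq ?_)
        unfold GG
        rw [norm_mul, RCLike.norm_conj]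
      have h4 : ‖TT f w‖ * ‖TT f (-conj w)‖ ≤ (‖TT f w‖ ^ 2 + ‖TT f (-conj w)‖ ^ 2) / 2 := by
        nlinarith only [sq_nonneg (‖TT f w‖ - ‖TT f (-conj w)‖)]
      have h5 : (GG f f w).re ≤ DD * K2 * V ρ := by linarith only [h3, h4, hr, hr']
      have h6 : 0 ≤ DD * (DD * K2 * V ρ) := mul_nonneg hD.le hDK
      linarith only [h5, h6]
  have hpt : ∀ ρ : Zt (D := D), (mu (D := D) (ρ : ℂ) : ℝ) * (GG f f ((ρ : ℂ) - 1 / 2)).re ≤
      B * (∑ i, ‖c i‖ ^ 2 * (q i * ((mu (D := D) (ρ : ℂ) : ℝ) * (1 / (1 + ((ρ : ℂ).im - γ i) ^ 2))))) +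
        ∑ j, (if ρ = z j then -(‖c j‖ ^ 2 * E j / 16) else 0) := by
    intro ρ
    have hμ : (0 : ℝ) ≤ mu (D := D) (ρ : ℂ) := Nat.cast_nonneg _
    have hμ1 : (1 : ℝ) ≤ mu (D := D) (ρ : ℂ) := by exact_mod_cast D.mpos _ ρ.2
    have h3 := mul_le_mul_of_nonneg_left (hpt0 ρ) hμ
    have hneg : ∑ j, (if ρ = z j then -(‖c j‖ ^ 2 * E j / 16) else 0) ≤ 0 := by
      refine Finset.sum_nonpos fun j _ => ?_
      split_ifs
      · have := hE0 j
        have : 0 ≤ ‖c j‖ ^ 2 * E j / 16 := by positivity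
        linarith
      · exact le_rfl
    have h4 : (mu (D := D) (ρ : ℂ) : ℝ) * ∑ j, (if ρ = z j then -(‖c j‖ ^ 2 * E j / 16) else 0) ≤
        ∑ j, (if ρ = z j then -(‖c j‖ ^ 2 * E j / 16) else 0) := by
      have := mul_le_mul_of_nonpos_right hμ1 hneg
      linarith
    have e1 : (mu (D := D) (ρ : ℂ) : ℝ) * (B * V ρ) =
        B * (∑ i, ‖c i‖ ^ 2 * (q i * ((mu (D := D) (ρ : ℂ) : ℝ) * (1 / (1 + ((ρ : ℂ).im - γ i) ^ 2))))) := by
      rw [hV]
      simp only
      rw [Finset.mul_sum, Finset.mul_sum, Finset.mul_sum]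
      exact Finset.sum_congr rfl fun i _ => by ring
    rw [mul_add, e1] at h3
    linarith only [h3, h4]
  -- the sum
  have hsum1 : ∀ i, HasSum (fun ρ : Zt (D := D) => ‖c i‖ ^ 2 * (q i * ((mu (D := D) (ρ : ℂ) : ℝ) * (1 / (1 + ((ρ : ℂ).im - γ i) ^ 2)))))
      (‖c i‖ ^ 2 * (q i * ∑' ρ : Zt (D := D), (mu (D := D) (ρ : ℂ) : ℝ) * (1 / (1 + ((ρ : ℂ).im - γ i) ^ 2)))) := fun i =>
    ((zsummable (D := D) (γ i)).hasSum.mul_left (q i)).mul_left _
  have hsum2 : ∀ j, HasSum (fun ρ : Zt (D := D) => if ρ = z j then -(‖c j‖ ^ 2 * E j / 16) else 0) (-(‖c j‖ ^ 2 * E j / 16)) := fun j =>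
    hasSum_ite_eq (z j) _
  have hsumR := ((hasSum_sum (s := Finset.univ) fun i _ => hsum1 i).mul_left B).add (hasSum_sum (s := Finset.univ) fun j _ => hsum2 j)
  have hdom : Dom (D := D) f := Hd.dom (DZ := D) (EC := EC) (a := L / 2) (by linarith) hfHd
  have hsumQ : Summable (fun ρ : Zt (D := D) => (mu (D := D) (ρ : ℂ) : ℝ) * (GG f f ((ρ : ℂ) - 1 / 2)).re) := by
    have h3 := (Complex.hasSum_re (summable_GG (DZ := D) hdom hdom).hasSum).summable
    refine h3.congr fun ρ => ?_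
    rw [← Complex.ofReal_natCast, Complex.re_ofReal_mul]
  have h3 : QQ (D := D) f ≤ _ := hasSum_le hpt hsumQ.hasSum hsumR
  refine lt_of_le_of_lt h3 ?_
  rw [Finset.mul_sum, ← Finset.sum_add_distrib]
  have hterm : ∀ i, B * (‖c i‖ ^ 2 * (q i * ∑' ρ : Zt (D := D), (mu (D := D) (ρ : ℂ) : ℝ) * (1 / (1 + ((ρ : ℂ).im - γ i) ^ 2)))) +
      -(‖c i‖ ^ 2 * E i / 16) ≤ -(‖c i‖ ^ 2 * (E i / 300)) := by
    intro i
    have h4 : q i * ∑' ρ : Zt (D := D), (mu (D := D) (ρ : ℂ) : ℝ) * (1 / (1 + ((ρ : ℂ).im - γ i) ^ 2)) ≤ q i * K (γ i) :=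
      mul_le_mul_of_nonneg_left (hz (γ i)) (by linarith [hq1 i])
    have h5 : q i * K (γ i) = 1 / C * E i := by
      have := (hCL i).ne'
      have h6 : K (γ i) ≠ 0 := fun h => this (by rw [h, mul_zero])
      rw [hq]
      simp only
      field_simp
    have h6 : B * (1 / C * E i) ≤ E i / 17 := by
      have h7 : B * (1 / C) ≤ 1 / 17 := by
        rw [← mul_div_assoc, div_le_div_iff₀ hC0 (by norm_num), hC]
        linarith
      have := mul_le_mul_of_nonneg_right h7 (hE0 i).le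
      linarith only [this]
    have h8 : B * (‖c i‖ ^ 2 * (q i * ∑' ρ : Zt (D := D), (mu (D := D) (ρ : ℂ) : ℝ) * (1 / (1 + ((ρ : ℂ).im - γ i) ^ 2)))) ≤
        ‖c i‖ ^ 2 * (E i / 17) := by
      have h9 := mul_le_mul_of_nonneg_left (h4.trans_eq h5) hB0.le
      have h10 := mul_le_mul_of_nonneg_left (h9.trans h6) (sq_nonneg ‖c i‖)
      linarith only [h10]
    have h11 : 0 ≤ ‖c i‖ ^ 2 * E i := mul_nonneg (sq_nonneg _) (hE0 i).le
    linarith only [h8, h11]
  refine lt_of_le_of_lt (Finset.sum_le_sum fun i _ => hterm i) ?_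
  rw [Finset.sum_neg_distrib, neg_lt_zero]
  obtain ⟨i, hi⟩ := Function.ne_iff.1 hc
  refine Finset.sum_pos' (fun i _ => ?_) ⟨i, Finset.mem_univ i, ?_⟩
  · have := hE0 i
    positivity
  · have := hE0 i
    have hi' : 0 < ‖c i‖ := norm_pos_iff.2 hi
    positivity

/-- for L-functions -/
theorem isolated_L : ∃ C : ℝ, 0 < C ∧ ∀ (Lf : LFun) (K : ℝ → ℝ), (∀ t, 1 ≤ K t) →
    (∀ t, ∑' ρ : Zt (D := zd (L := Lf)), (mu (D := zd (L := Lf)) (ρ : ℂ) : ℝ) * (1 / (1 + ((ρ : ℂ).im - t) ^ 2)) ≤ K t) →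
    ∀ L : ℝ, 1 ≤ L → ∀ (ι : Type) [Fintype ι] (z : ι → Zt (D := zd (L := Lf))),
    Function.Injective z → (∀ i, 1 / 2 < (z i : ℂ).re) →
    (∀ i, C * K (z i : ℂ).im ≤ Real.exp (((z i : ℂ).re - 1 / 2) * L)) →
    (∀ i, ∀ ρ : Zt (D := zd (L := Lf)), |(ρ : ℂ).im - (z i : ℂ).im| ≤ 33 * L →
      (ρ : ℂ) = z i ∨ (ρ : ℂ) = 1 - conj (z i : ℂ) ∨
        C * K (z i : ℂ).im * Real.exp (|(ρ : ℂ).re - 1 / 2| * L) ≤ Real.exp (((z i : ℂ).re - 1 / 2) * L)) →
    ∃ F : ι → ℝ → ℂ, ∀ c : ι → ℂ, c ≠ 0 → Hd (L / 2) (fun x => ∑ i, c i * F i x) ∧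
      QQ (D := zd (L := Lf)) (fun x => ∑ i, c i * F i x) < 0 := by
  obtain ⟨C, hC, h⟩ := isolated_gen
  exact ⟨C, hC, fun Lf K hK1 hz => h (zd (L := Lf)) (zc (L := Lf)) K hK1 hz⟩

end P

end Pool.Agent.Zk2.LX
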