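import Pool.Agent.Zk2.LX.T

/-! # The Weil index of general L-functions: from symmetric intervals to all intervals, finiteness, the index -/

set_option autoImplicit false
set_option linter.unusedSectionVars false
set_option maxHeartbeats 1000000

open Complex Filter Topology Set MeasureTheory
open scoped ComplexConjugate

namespace Pool.Agent.Zk2.LX

namespace U

open Pool.Agent.Y23 (TT Fa N2)
open Pool.Agent.Y23.G

/-- the test functions: square integrable, zero off an interval of length `l`, finite logarithmic energy -/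
def Te (l : ℝ) (f : ℝ → ℂ) : Prop := MemLp f 2 volume ∧ (∃ c : ℝ, ∀ x : ℝ, x ∉ Icc c (c + l) → f x = 0) ∧
  Integrable fun t : ℝ => Real.log (3 + |t|) * ‖TT f (t * I)‖ ^ 2

section
variable [D : ZD]

/-- the contribution of one zero -/
noncomputable def tm (f : ℝ → ℂ) (ρ : Zt) : ℂ :=
  (mu (ρ : ℂ) : ℂ) * (TT f ((ρ : ℂ) - 1 / 2) * conj (TT f (1 - conj (ρ : ℂ) - 1 / 2)))

variable [EC : ZC]

lemma TT_sh (f : ℝ → ℂ) (η : ℝ) (w : ℂ) : TT (fun x => f (x + η)) w = cexp (-(w * η)) * TT f w := by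
  unfold TT
  rw [← integral_add_right_eq_self (fun x : ℝ => f x * cexp (w * x)) η, ← integral_const_mul]
  refine integral_congr_ae (Eventually.of_forall fun x => ?_)
  simp only
  rw [mul_left_comm, ← Complex.exp_add]
  congr 2
  push_cast
  ring

/-- the translation to a symmetric interval -/
lemma Te.tr {l : ℝ} {f : ℝ → ℂ} (hf : Te l f) : ∃ c : ℝ, Hd (l / 2) (fun x => f (x + c)) ∧
    ∀ w : ℂ, TT (fun x => f (x + c)) w = cexp (-(w * c)) * TT f w := by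
  obtain ⟨h1, ⟨c, h2⟩, h3⟩ := hf
  refine ⟨c + l / 2, ⟨⟨h1.comp_measurePreserving (measurePreserving_add_right volume _), fun x hx => ?_⟩, ?_⟩, fun w => TT_sh _ _ _⟩
  · refine h2 _ fun h => ?_
    have h4 : |x| ≤ l / 2 := abs_le.2 ⟨by linarith [h.1], by linarith [h.2]⟩
    linarith
  · refine h3.congr (Eventually.of_forall fun v => ?_)
    show Real.log (3 + |v|) * ‖TT f (v * I)‖ ^ 2 = Lg v * ‖TT (fun x => f (x + (c + l / 2))) (v * I)‖ ^ 2
    rw [TT_sh, norm_mul]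
    have : -((v * I : ℂ) * ((c + l / 2 : ℝ) : ℂ)) = ((-(v * (c + l / 2)) : ℝ) : ℂ) * I := by push_cast; ring
    rw [this, Complex.norm_exp_ofReal_mul_I, one_mul]
    rfl

lemma tm_sh (f : ℝ → ℂ) (c : ℝ) (ρ : Zt) :
    tm f ρ = (mu (ρ : ℂ) : ℂ) * GG (fun x => f (x + c)) (fun x => f (x + c)) ((ρ : ℂ) - 1 / 2) := by
  unfold tm GG
  rw [TT_sh, TT_sh, map_mul]
  have e1 : -conj ((ρ : ℂ) - 1 / 2) = 1 - conj (ρ : ℂ) - 1 / 2 := by
    rw [map_sub, map_div₀, map_one, map_ofNat]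
    ring
  rw [e1]
  have e2 : cexp (-(((ρ : ℂ) - 1 / 2) * c)) * conj (cexp (-((1 - conj (ρ : ℂ) - 1 / 2) * c))) = 1 := by
    rw [← Complex.exp_conj, ← Complex.exp_add]
    have : -(((ρ : ℂ) - 1 / 2) * c) + conj (-((1 - conj (ρ : ℂ) - 1 / 2) * c)) = 0 := by
      simp only [map_neg, map_mul, map_sub, Complex.conj_conj, Complex.conj_ofReal, map_one, map_div₀, map_ofNat]
      ring
    rw [this, Complex.exp_zero]
  calc (mu (ρ : ℂ) : ℂ) * (TT f ((ρ : ℂ) - 1 / 2) * conj (TT f (1 - conj (ρ : ℂ) - 1 / 2)))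
      = (mu (ρ : ℂ) : ℂ) * (TT f ((ρ : ℂ) - 1 / 2) * conj (TT f (1 - conj (ρ : ℂ) - 1 / 2))) *
        (cexp (-(((ρ : ℂ) - 1 / 2) * c)) * conj (cexp (-((1 - conj (ρ : ℂ) - 1 / 2) * c)))) := by rw [e2, mul_one]
    _ = _ := by ring

/-- absolute convergence -/
theorem Te.sum {l : ℝ} (hl : 0 < l) {f : ℝ → ℂ} (hf : Te l f) : Summable (fun ρ : Zt => tm f ρ) ∧
    ∃ c : ℝ, Hd (l / 2) (fun x => f (x + c)) ∧ (∀ w : ℂ, TT (fun x => f (x + c)) w = cexp (-(w * c)) * TT f w) ∧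
      ∑' ρ : Zt, tm f ρ = (QQ (fun x => f (x + c)) : ℂ) := by
  obtain ⟨c, h1, h2⟩ := hf.tr
  have hdom : Dom (fun x => f (x + c)) := Hd.dom (by linarith) h1
  have hsum := summable_GG hdom hdom
  have hQB := QB_self hdom
  have e : (fun ρ : Zt => tm f ρ) = fun ρ : Zt => (mu (ρ : ℂ) : ℂ) * GG (fun x => f (x + c)) (fun x => f (x + c)) ((ρ : ℂ) - 1 / 2) :=
    funext fun ρ => tm_sh f c ρ
  refine ⟨?_, c, h1, h2, ?_⟩
  · rw [e]
    exact hsum
  · rw [← hQB]
    exact tsum_congr fun ρ => tm_sh f c ρ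

theorem Te.real {l : ℝ} (hl : 0 < l) {f : ℝ → ℂ} (hf : Te l f) : (∑' ρ : Zt, tm f ρ).im = 0 := by
  obtain ⟨_, c, _, _, h⟩ := hf.sum hl
  rw [h, Complex.ofReal_im]

/-- from symmetric intervals to all intervals -/
theorem Te.lower {l ε : ℝ} (hl : 0 < l) {Z : Set ℂ}
    (h : ∀ f : ℝ → ℂ, Hd (l / 2) f → (∀ ρ : Zt, (ρ : ℂ) ∈ Z → TT f ((ρ : ℂ) - 1 / 2) = 0) → ε * N2 f ≤ QQ f)
    {f : ℝ → ℂ} (hf : Te l f) (hz : ∀ ρ : Zt, (ρ : ℂ) ∈ Z → TT f ((ρ : ℂ) - 1 / 2) = 0) :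
    ε * ∫ x, ‖f x‖ ^ 2 ≤ (∑' ρ : Zt, tm f ρ).re := by
  obtain ⟨_, c, h1, h2, h3⟩ := hf.sum hl
  rw [h3, Complex.ofReal_re]
  have h4 : N2 (fun x => f (x + c)) = ∫ x, ‖f x‖ ^ 2 := by
    unfold N2
    exact integral_add_right_eq_self (fun x => ‖f x‖ ^ 2) c
  rw [← h4]
  exact h _ h1 fun ρ hρ => by rw [h2, hz ρ hρ, mul_zero]

/-- the symmetric intervals are intervals -/
theorem Te.of_Hd {l : ℝ} {f : ℝ → ℂ} (hf : Hd (l / 2) f) : Te l f := by
  refine ⟨hf.1.1, ⟨-(l / 2), fun x hx => hf.1.2 x ?_⟩, hf.2⟩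
  by_contra h3
  have h4 := abs_le.1 (not_lt.1 h3)
  exact hx ⟨h4.1, by linarith [h4.2]⟩

theorem sum_Hd {l : ℝ} (hl : 0 < l) {f : ℝ → ℂ} (hf : Hd (l / 2) f) : ∑' ρ : Zt, tm f ρ = (QQ f : ℂ) := by
  have hdom : Dom f := Hd.dom (by linarith) hf
  rw [← QB_self hdom]
  refine tsum_congr fun ρ => ?_
  have := tm_sh f 0 ρ
  simpa only [add_zero] using this

end

/-- square integrable functions which vanish off an interval have transforms -/
lemma Te.int {l : ℝ} {f : ℝ → ℂ} (hf : Te l f) (w : ℂ) : Integrable fun x : ℝ => f x * cexp (w * x) := by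
  obtain ⟨h1, ⟨c, h2⟩, _⟩ := hf
  exact int_Ml h1 h2 w

/-- the zeros up to a height are finite in number -/
lemma fin_L [L : LFun] (T : ℝ) : {ρ : ℂ | L.X ρ = 0 ∧ |ρ.im| ≤ T}.Finite := by
  obtain ⟨N, hN⟩ := exists_nat_ge T
  have h1 : {ρ : ℂ | L.X ρ = 0 ∧ |ρ.im| ≤ T} ⊆ ⋃ k ∈ Finset.Icc (-(N : ℤ)) N, {s : ℂ | L.X s = 0 ∧ |s.im - (k : ℝ)| ≤ 1} := by
    rintro ρ ⟨h3, h2⟩
    obtain ⟨h4, h5⟩ := abs_le.1 h2
    refine mem_iUnion₂.2 ⟨⌊ρ.im⌋, ?_, h3, ?_⟩
    · rw [Finset.mem_Icc]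
      constructor
      · rw [Int.le_floor]
        push_cast
        linarith
      · have : ((⌊ρ.im⌋ : ℤ) : ℝ) ≤ ((N : ℤ) : ℝ) := (Int.floor_le _).trans (by push_cast; linarith)
        exact_mod_cast this
    · rw [abs_le]
      have h6 := Int.floor_le ρ.im
      have h7 := (Int.lt_floor_add_one ρ.im).le
      constructor <;> linarith
  refine Set.Finite.subset ?_ h1
  exact Set.Finite.biUnion (Finset.Icc (-(N : ℤ)) N).finite_toSet fun k _ => win_finite (L := L) ((k : ℤ) : ℝ)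

/-- the number of negative squares is at most the number of conditions -/
theorem index {l : ℝ} {Z : Set ℂ} (hfin : Z.Finite) {n : ℕ} {F : Fin n → ℝ → ℂ}
    (hT : ∀ c : Fin n → ℂ, c ≠ 0 → Te l (∑ i, c i • F i))
    (hno : ∀ c : Fin n → ℂ, c ≠ 0 → ¬ ∀ ρ ∈ Z, TT (∑ i, c i • F i) (ρ - 1 / 2) = 0) : n ≤ Z.ncard := by
  classical
  have : Fintype Z := hfin.fintype
  have hint : ∀ (c : Fin n → ℂ) (w : ℂ), Integrable fun x : ℝ => (∑ i, c i • F i) x * cexp (w * x) := by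
    intro c w
    by_cases hc : c = 0
    · rw [hc]
      simp
    · exact (hT c hc).int w
  let Φ : (Fin n → ℂ) →ₗ[ℂ] (Z → ℂ) :=
    { toFun := fun c ρ => TT (∑ i, c i • F i) ((ρ : ℂ) - 1 / 2)
      map_add' := fun c d => by
        funext ρ
        show TT (∑ i, (c + d) i • F i) _ = TT _ _ + TT _ _
        unfold TT
        rw [← integral_add (hint c _) (hint d _)]
        congr 1
        funext x
        simp only [Pi.add_apply, add_smul, Finset.sum_add_distrib]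
        ring
      map_smul' := fun a c => by
        funext ρ
        show TT (∑ i, (a • c) i • F i) _ = a • TT _ _
        unfold TT
        rw [smul_eq_mul, ← integral_const_mul]
        congr 1
        funext x
        simp only [Pi.smul_apply, smul_eq_mul, mul_smul, ← Finset.smul_sum]
        ring }
  have hinj : Function.Injective Φ := by
    rw [injective_iff_map_eq_zero]
    intro c hc0
    by_contra hne
    exact hno c hne fun ρ hρ => congrFun hc0 ⟨ρ, hρ⟩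
  have h6 := LinearMap.finrank_le_finrank_of_injective hinj
  rw [Module.finrank_fintype_fun_eq_card, Module.finrank_fintype_fun_eq_card, Fintype.card_fin] at h6
  rwa [← Nat.card_coe_set_eq, Nat.card_eq_fintype_card]

end U

end Pool.Agent.Zk2.LX
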