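import Pool.Agent.Zk2.LX.W

/-! # The sharp local Weil criterion: the index -/

set_option autoImplicit false
set_option linter.unusedSectionVars false
set_option maxHeartbeats 1000000

open Complex Filter Topology Set MeasureTheory
open scoped ComplexConjugate

namespace Pool.Agent.Zk2.LX

open Pool.Agent.Y23.G
open Pool.Agent.Zk4.W
open Pool.Agent.Zk2.WP (zL zero_iff)

/-- the zeros up to a height are finite in number -/
lemma fin_zeros (T : ℝ) : {ρ : ℂ | ρ ∈ Zs ∧ |ρ.im| ≤ T}.Finite := by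
  obtain ⟨N, hN⟩ := exists_nat_ge T
  have h1 : {ρ : ℂ | ρ ∈ Zs ∧ |ρ.im| ≤ T} ⊆ ⋃ k ∈ Finset.Icc (-(N : ℤ)) N, {s : ℂ | (zL).X s = 0 ∧ |s.im - (k : ℝ)| ≤ 1} := by
    rintro ρ ⟨h1, h2⟩
    have h3 : (zL).X ρ = 0 := (zero_iff ρ).1 h1
    obtain ⟨h4, h5⟩ := abs_le.1 h2
    refine mem_iUnion₂.2 ⟨⌊ρ.im⌋, ?_, h3, ?_⟩
    · rw [Finset.mem_Icc]
      constructor
      · rw [Int.le_floor]
        push_cast
        linarith
      · have : ((⌊ρ.im⌋ : ℤ) : ℝ) ≤ ((N : ℤ) : ℝ) := (Int.floor_le _).trans (by push_cast; linarith)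
        exact_mod_cast this
    · rw [abs_le]
      have h6 := Int.floor_le ρ.im
      have h7 := (Int.lt_floor_add_one ρ.im).le
      constructor <;> linarith
  refine Set.Finite.subset ?_ h1
  exact Set.Finite.biUnion (Finset.Icc (-(N : ℤ)) N).finite_toSet fun k _ => win_finite (L := zL) ((k : ℤ) : ℝ)

/-- square integrable functions which vanish off an interval have transforms -/
lemma int_Ml {f : ℝ → ℂ} {a b : ℝ} (hf : MemLp f 2 volume) (h0 : ∀ x, x ∉ Icc a b → f x = 0) (w : ℂ) :
    Integrable fun x : ℝ => f x * cexp (w * x) := by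
  have h1 : Pool.Agent.Y23.Fa (|a| + |b|) f := by
    refine ⟨hf, fun x hx => h0 x fun h => ?_⟩
    have h2 : |x| ≤ |a| + |b| := by
      rw [abs_le]
      have := neg_abs_le a
      have := le_abs_self b
      have := abs_nonneg a
      have := abs_nonneg b
      constructor <;> linarith [h.1, h.2]
    linarith
  exact h1.integrable_mul (by fun_prop)

end Pool.Agent.Zk2.LX
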