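import Pool.Agent.Zk2.WP.Lk
import Pool.Agent.H24R2.JP.All
import Pool.Agent.H370R2.Local

/-! # The sharp local Weil criterion: an explicit bound for the sum over the zeros -/

set_option autoImplicit false
set_option maxHeartbeats 1000000

open Complex Filter Topology Set MeasureTheory Metric
open scoped ComplexConjugate

namespace Pool.Agent.Zk2.LX

open Pool.Agent.H24R2.JP (XX gam gamT)
open Pool.Agent.H24R2.JP.B1h (XX_zeta hasSum_XX)
open Pool.Agent.Zk2.WP (XZ XX_XZ zL zero_iff)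
open Pool.Agent.Y23.G (Zt mu zd Xd)

lemma XX_le {z : ℂ} {x : ℝ} (hx : 0 ≤ x) (h : ‖z‖ ≤ x) : ‖XX z‖ ≤ ‖XX (x : ℂ)‖ := by
  have h1 := hasSum_XX z
  have h2 := Complex.hasSum_re (hasSum_XX (x : ℂ))
  have h3 : ∀ k : ℕ, (((gam k : ℝ) : ℂ) / (k.factorial : ℂ) * ((x : ℂ) ^ 2) ^ k).re = gam k / k.factorial * (x ^ 2) ^ k := by
    intro k
    have : ((gam k : ℝ) : ℂ) / (k.factorial : ℂ) * ((x : ℂ) ^ 2) ^ k = ((gam k / k.factorial * (x ^ 2) ^ k : ℝ) : ℂ) := by
      push_cast; rfl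
    rw [this, Complex.ofReal_re]
  simp_rw [h3] at h2
  refine le_trans ?_ ((Complex.re_le_norm _).trans le_rfl)
  rw [← h1.tsum_eq]
  refine tsum_of_norm_bounded h2 fun k => ?_
  have hg := gamT.1 k
  rw [norm_mul, norm_div, norm_pow, norm_pow, Complex.norm_real, Real.norm_of_nonneg hg.le, Complex.norm_natCast]
  gcongr

lemma zeta_even {n : ℕ} (hn : 1 ≤ n) : ‖riemannZeta ((2 * n : ℕ) : ℂ)‖ ≤ 2 := by
  rw [zeta_nat_eq_tsum_of_gt_one (by omega)]
  have h2 : Summable (fun k : ℕ => 1 / (k : ℝ) ^ 2) := Real.summable_one_div_nat_pow.2 (by norm_num)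
  have h4 : ∑' k : ℕ, 1 / (k : ℝ) ^ 2 = Real.pi ^ 2 / 6 := hasSum_zeta_two.tsum_eq
  have h5 : ‖∑' k : ℕ, 1 / (k : ℂ) ^ (2 * n)‖ ≤ ∑' k : ℕ, 1 / (k : ℝ) ^ 2 := by
    refine tsum_of_norm_bounded h2.hasSum fun k => ?_
    rw [norm_div, norm_one, norm_pow, Complex.norm_natCast]
    rcases Nat.eq_zero_or_pos k with h | h
    · subst h
      have e0 : (2 * n) ≠ 0 := by omega
      simp [e0]
    · have : (1 : ℝ) ≤ k := by exact_mod_cast h
      exact div_le_div_of_nonneg_left (by norm_num) (by positivity) (pow_le_pow_right₀ this (by omega))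
  rw [h4] at h5
  have h6 := Real.pi_lt_d2
  have h7 := Real.pi_pos
  nlinarith

lemma XX_even {n : ℕ} (hn : 1 ≤ n) : ‖XX (((2 * n - 1 / 2 : ℝ) : ℝ) : ℂ)‖ ≤ 32 * n * n.factorial := by
  have hn1 : (1 : ℝ) ≤ n := by exact_mod_cast hn
  have hnC : (n : ℂ) ≠ 0 := by
    have : n ≠ 0 := by omega
    exact_mod_cast this
  have h1C : (1 : ℂ) - 2 * n ≠ 0 := by
    intro h
    have h2 : ((1 - 2 * n : ℝ) : ℂ) = 0 := by push_cast; exact h
    have h3 : (1 - 2 * n : ℝ) = 0 := by exact_mod_cast h2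
    linarith
  have h := XX_zeta (((2 * n - 1 / 2 : ℝ) : ℝ) : ℂ) (by rw [Complex.ofReal_re]; linarith)
  have e1 : (1 / 2 + (((2 * n - 1 / 2 : ℝ) : ℝ) : ℂ)) = 2 * n := by push_cast; ring
  rw [e1] at h
  have e2 : (4 * (((2 * n - 1 / 2 : ℝ) : ℝ) : ℂ) ^ 2 - 1) = 8 * n * (2 * n - 1) := by push_cast; ring
  rw [e2] at h
  have e3 : XX (((2 * n - 1 / 2 : ℝ) : ℝ) : ℂ) = 8 * n * (2 * n - 1) * (Gammaℝ (2 * n) * riemannZeta (2 * n)) := by
    rw [h]
    have ha : 2 * (n : ℂ) * (1 / (2 * n)) = 1 := mul_one_div_cancel (mul_ne_zero two_ne_zero hnC)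
    have hb : (1 - 2 * (n : ℂ)) * (1 / (1 - 2 * n)) = 1 := mul_one_div_cancel h1C
    linear_combination 4 * (2 * (n : ℂ) - 1) * ha - 8 * n * hb
  rw [e3, norm_mul, norm_mul (Gammaℝ _)]
  have k1 : ‖(8 * n * (2 * n - 1) : ℂ)‖ ≤ 16 * n * n := by
    have : (8 * n * (2 * n - 1) : ℂ) = ((8 * n * (2 * n - 1) : ℝ) : ℂ) := by push_cast; rfl
    rw [this, Complex.norm_real, Real.norm_of_nonneg (mul_nonneg (by positivity) (by linarith))]
    nlinarith
  have k2 : ‖Gammaℝ (2 * n)‖ ≤ (n - 1).factorial := by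
    unfold Gammaℝ
    have e4 : (2 * n : ℂ) / 2 = ((n - 1 : ℕ) : ℂ) + 1 := by
      rw [Nat.cast_sub hn]
      push_cast
      ring
    have e5 : -(2 * n : ℂ) / 2 = ((-(n : ℝ) : ℝ) : ℂ) := by push_cast; ring
    rw [e4, Complex.Gamma_nat_eq_factorial, e5, norm_mul, Complex.norm_natCast,
      Complex.norm_cpow_eq_rpow_re_of_pos Real.pi_pos, Complex.ofReal_re]
    have : Real.pi ^ (-(n : ℝ)) ≤ 1 := by
      refine Real.rpow_le_one_of_one_le_of_nonpos ?_ (by linarith)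
      linarith [Real.pi_gt_three]
    have h5 : (0 : ℝ) ≤ ((n - 1).factorial : ℝ) := by positivity
    nlinarith
  have k3 : ‖riemannZeta (2 * n)‖ ≤ 2 := by
    have := zeta_even hn
    push_cast at this
    exact this
  have k4 : (n.factorial : ℝ) = n * (n - 1).factorial := by
    have : n.factorial = n * (n - 1).factorial := (Nat.mul_factorial_pred (by omega)).symm
    rw [this]
    push_cast
    rfl
  calc ‖(8 * n * (2 * n - 1) : ℂ)‖ * (‖Gammaℝ (2 * n)‖ * ‖riemannZeta (2 * n)‖) ≤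
        16 * n * n * (((n - 1).factorial : ℝ) * 2) := by gcongr
    _ = 32 * n * n.factorial := by rw [k4]; ring

lemma XZ_one : XZ 1 = 1 := by unfold XZ; ring

lemma XZ_le {s : ℂ} {n : ℕ} (hn : 1 ≤ n) (h : ‖s - 1‖ ≤ 2 * n - 1) : ‖XZ s‖ ≤ 8 * n * n.factorial := by
  have h1 := XX_XZ (s - 1 / 2)
  have e : (1 / 2 + (s - 1 / 2) : ℂ) = s := by ring
  rw [e] at h1
  have hn1 : (1 : ℝ) ≤ n := by exact_mod_cast hn
  have h2 : ‖s - 1 / 2‖ ≤ 2 * n - 1 / 2 := by
    have : s - 1 / 2 = (s - 1) + 1 / 2 := by ring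
    rw [this]
    refine (norm_add_le _ _).trans ?_
    have h3 : ‖(1 / 2 : ℂ)‖ = 1 / 2 := by norm_num
    rw [h3]
    linarith
  have h3 := (XX_le (by linarith) h2).trans (XX_even hn)
  rw [h1, norm_mul] at h3
  have h4 : ‖(4 : ℂ)‖ = 4 := by norm_num
  rw [h4] at h3
  linarith

/-- the number of zeros up to a power of two -/
lemma count (k : ℕ) (S : Finset ℂ) (hS : ∀ s ∈ S, ‖s - 1‖ ≤ 2 ^ k + 1) :
    ∑ s ∈ S, (analyticOrderNatAt XZ s : ℝ) ≤ 13 * 3 ^ k := by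
  have hk1 : (1 : ℝ) ≤ 2 ^ k := one_le_pow₀ (by norm_num)
  have hX : Differentiable ℂ XZ := Xd (L := zL)
  set n : ℕ := 2 ^ (k + 2) with hn
  have hn1 : 1 ≤ n := Nat.one_le_two_pow
  have hnc : (n : ℝ) = 4 * 2 ^ k := by rw [hn]; push_cast; ring
  have hfac : (1 : ℝ) ≤ n.factorial := by exact_mod_cast Nat.one_le_iff_ne_zero.2 n.factorial_ne_zero
  have hM : (1 : ℝ) ≤ 8 * n * n.factorial := by nlinarith
  have h1 := H370.Loc.jensen_mult (f := XZ) (c := 1) (r := 2 ^ k + 1) (R := 3 * (2 ^ k + 1)) (M := 8 * n * n.factorial)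
    (by positivity) (by linarith) hM (fun z _ => hX.analyticAt z) (by rw [XZ_one]; exact one_ne_zero) (fun z hz => by
      refine XZ_le hn1 ?_
      rw [mem_closedBall, dist_eq_norm] at hz
      rw [hnc]
      linarith) S (fun z hz => by
      rw [mem_closedBall, dist_eq_norm]
      exact hS z hz)
  have e0 : ∀ s : ℂ, H370.mult XZ s = analyticOrderNatAt XZ s := fun s => rfl
  simp_rw [e0] at h1
  refine h1.trans ?_
  have e1 : (3 * (2 ^ k + 1) : ℝ) / (2 ^ k + 1) = 3 := by field_simp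
  rw [e1, XZ_one, norm_one, div_one]
  have h3 : 1 ≤ Real.log 3 := by
    rw [Real.le_log_iff_exp_le (by norm_num)]
    linarith [Real.exp_one_lt_d9]
  have h4 : Real.log (8 * n * n.factorial) ≤ 13 * 3 ^ k := by
    have e2 : (n.factorial : ℝ) ≤ (n : ℝ) ^ n := by exact_mod_cast Nat.factorial_le_pow n
    have h5 : Real.log (8 * n * n.factorial) ≤ Real.log (8 * n * (n : ℝ) ^ n) :=
      Real.log_le_log (by positivity) (by gcongr)
    have hn0 : (0 : ℝ) < n := by positivity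
    have h5' : Real.log (8 * n * (n : ℝ) ^ n) = Real.log 8 + Real.log n + n * Real.log n := by
      rw [Real.log_mul (by positivity) (by positivity), Real.log_mul (by norm_num) hn0.ne', Real.log_pow]
    rw [h5'] at h5
    have h6 : Real.log n = (k + 2) * Real.log 2 := by
      rw [hn]
      push_cast
      rw [Real.log_pow]
      push_cast
      ring
    have h7 : Real.log 8 = 3 * Real.log 2 := by
      rw [show (8 : ℝ) = 2 ^ 3 by norm_num, Real.log_pow]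
      push_cast
      ring
    have h8 := Real.log_two_lt_d9
    have h9 : 0 < Real.log 2 := Real.log_pos (by norm_num)
    have h10 : (k : ℝ) + 2 ≤ 2 * (3 / 2) ^ k := by
      have := one_add_mul_le_pow (show (-2 : ℝ) ≤ 1 / 2 by norm_num) k
      have e3 : (1 + 1 / 2 : ℝ) = 3 / 2 := by norm_num
      rw [e3] at this
      linarith
    have h11 : (2 : ℝ) ^ k * (3 / 2) ^ k = 3 ^ k := by rw [← mul_pow]; norm_num
    have h12 : (3 / 2 : ℝ) ^ k ≤ 3 ^ k := pow_le_pow_left₀ (by norm_num) (by norm_num) k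
    have h13 : (1 : ℝ) ≤ 3 ^ k := one_le_pow₀ (by norm_num)
    have h14 : Real.log 8 + Real.log n + n * Real.log n = (3 + ((k : ℝ) + 2) * (1 + 4 * 2 ^ k)) * Real.log 2 := by
      rw [h6, h7, hnc]; ring
    rw [h14] at h5
    refine h5.trans ?_
    have h15 : (3 + ((k : ℝ) + 2) * (1 + 4 * 2 ^ k)) ≤ 13 * 3 ^ k := by
      calc (3 + ((k : ℝ) + 2) * (1 + 4 * 2 ^ k)) ≤ 3 + (2 * (3 / 2) ^ k) * (1 + 4 * 2 ^ k) := by gcongr
        _ = 3 + 2 * (3 / 2) ^ k + 8 * (2 ^ k * (3 / 2) ^ k) := by ring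
        _ ≤ 3 * 3 ^ k + 2 * 3 ^ k + 8 * 3 ^ k := by rw [h11]; linarith
        _ = 13 * 3 ^ k := by ring
    have h16 : 0 ≤ (3 + ((k : ℝ) + 2) * (1 + 4 * 2 ^ k)) := by positivity
    nlinarith
  have h17 : 0 ≤ Real.log (8 * n * n.factorial) := Real.log_nonneg hM
  calc Real.log (8 * n * n.factorial) / Real.log 3 ≤ Real.log (8 * n * n.factorial) / 1 :=
        div_le_div_of_nonneg_left h17 (by norm_num) h3
    _ ≤ _ := by rw [div_one]; exact h4

/-- THE EXPLICIT BOUND -/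
theorem Z_le : ∑' ρ : Zt (D := zd (L := zL)), (mu (D := zd (L := zL)) ρ : ℝ) * (1 / (1 + (ρ : ℂ).im ^ 2)) ≤ 208 := by
  classical
  refine Real.tsum_le_of_sum_le (fun ρ => by positivity) fun S => ?_
  obtain ⟨K, hK⟩ : ∃ K : ℕ, ∀ ρ ∈ S, |(ρ : ℂ).im| ≤ 2 ^ K := by
    obtain ⟨B, hB⟩ := (S.image (fun ρ : Zt (D := zd (L := zL)) => |(ρ : ℂ).im|)).exists_le
    obtain ⟨K, hK⟩ := pow_unbounded_of_one_lt B (show (1 : ℝ) < 2 by norm_num)
    exact ⟨K, fun ρ hρ => (hB _ (Finset.mem_image_of_mem _ hρ)).trans hK.le⟩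
  have hpt : ∀ ρ ∈ S, 1 / (1 + (ρ : ℂ).im ^ 2) ≤ ∑ k ∈ Finset.range (K + 1), 4 * (1 / 4 : ℝ) ^ k * (if |(ρ : ℂ).im| ≤ 2 ^ k then 1 else 0) := by
    intro ρ hρ
    have hex : ∃ k, |(ρ : ℂ).im| ≤ 2 ^ k := ⟨K, hK ρ hρ⟩
    set k := Nat.find hex with hk
    have h1 : |(ρ : ℂ).im| ≤ 2 ^ k := Nat.find_spec hex
    have h2 : k ≤ K := Nat.find_min' hex (hK ρ hρ)
    have h3 : 4 * (1 / 4 : ℝ) ^ k * (if |(ρ : ℂ).im| ≤ 2 ^ k then 1 else 0) ≤
        ∑ k ∈ Finset.range (K + 1), 4 * (1 / 4 : ℝ) ^ k * (if |(ρ : ℂ).im| ≤ 2 ^ k then 1 else 0) :=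
      Finset.single_le_sum (f := fun k : ℕ => 4 * (1 / 4 : ℝ) ^ k * (if |(ρ : ℂ).im| ≤ 2 ^ k then 1 else 0)) (fun k _ => by
        split_ifs <;> positivity) (Finset.mem_range.2 (by omega))
    refine le_trans ?_ h3
    rw [if_pos h1, mul_one]
    rcases Nat.eq_zero_or_pos k with h0 | h0
    · rw [h0, pow_zero, mul_one, div_le_iff₀ (by positivity)]
      nlinarith [sq_nonneg (ρ : ℂ).im]
    · have h4 : ¬ |(ρ : ℂ).im| ≤ 2 ^ (k - 1) := Nat.find_min hex (by omega)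
      rw [not_le] at h4
      have h5 : (2 ^ (k - 1) : ℝ) ^ 2 ≤ (ρ : ℂ).im ^ 2 := by
        rw [← sq_abs (ρ : ℂ).im]
        exact pow_le_pow_left₀ (by positivity) h4.le 2
      have h6 : (2 : ℝ) ^ k = 2 * 2 ^ (k - 1) := by
        rw [← pow_succ']
        congr 1
        omega
      have h7 : (1 / 4 : ℝ) ^ k = 1 / (4 * (2 ^ (k - 1)) ^ 2) := by
        have e : (1 / 4 : ℝ) ^ k = 1 / (2 ^ k) ^ 2 := by
          rw [one_div_pow, ← pow_mul, mul_comm k 2, pow_mul]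
          norm_num
        rw [e, h6]
        congr 1
        ring
      rw [h7, mul_one_div, div_le_div_iff₀ (by positivity) (by positivity)]
      nlinarith
  calc ∑ ρ ∈ S, (mu (D := zd (L := zL)) ρ : ℝ) * (1 / (1 + (ρ : ℂ).im ^ 2))
      ≤ ∑ ρ ∈ S, (mu (D := zd (L := zL)) ρ : ℝ) * ∑ k ∈ Finset.range (K + 1), 4 * (1 / 4 : ℝ) ^ k *
        (if |(ρ : ℂ).im| ≤ 2 ^ k then 1 else 0) :=
        Finset.sum_le_sum fun ρ hρ => mul_le_mul_of_nonneg_left (hpt ρ hρ) (Nat.cast_nonneg _)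
    _ = ∑ k ∈ Finset.range (K + 1), 4 * (1 / 4 : ℝ) ^ k * ∑ ρ ∈ S.filter (fun ρ : Zt (D := zd (L := zL)) => |(ρ : ℂ).im| ≤ 2 ^ k),
        (mu (D := zd (L := zL)) (ρ : ℂ) : ℝ) := by
        simp_rw [Finset.mul_sum]
        rw [Finset.sum_comm]
        refine Finset.sum_congr rfl fun k _ => ?_
        rw [Finset.sum_filter]
        refine Finset.sum_congr rfl fun ρ _ => ?_
        split_ifs <;> ring
    _ ≤ ∑ k ∈ Finset.range (K + 1), 4 * (1 / 4 : ℝ) ^ k * (13 * 3 ^ k) := by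
        refine Finset.sum_le_sum fun k _ => mul_le_mul_of_nonneg_left ?_ (by positivity)
        have h1 := count k ((S.filter (fun ρ : Zt (D := zd (L := zL)) => |(ρ : ℂ).im| ≤ 2 ^ k)).map (Function.Embedding.subtype _)) (by
          intro s hs
          rw [Finset.mem_map] at hs
          obtain ⟨ρ, hρ, rfl⟩ := hs
          have h2 := (Finset.mem_filter.1 hρ).2
          have h3 := (zero_iff (ρ : ℂ)).2 ρ.2
          have h4 : |((ρ : ℂ) - 1).re| ≤ 1 := by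
            simp only [Complex.sub_re, Complex.one_re]
            rw [abs_le]
            exact ⟨by linarith [h3.2.1], by linarith [h3.2.2]⟩
          have h5 : |((ρ : ℂ) - 1).im| ≤ 2 ^ k := by
            simp only [Complex.sub_im, Complex.one_im, sub_zero]
            exact h2
          have h6 := Complex.norm_le_abs_re_add_abs_im ((ρ : ℂ) - 1)
          show ‖(ρ : ℂ) - 1‖ ≤ 2 ^ k + 1
          linarith)
        rw [Finset.sum_map] at h1
        exact h1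
    _ = 52 * ∑ k ∈ Finset.range (K + 1), (3 / 4 : ℝ) ^ k := by
        rw [Finset.mul_sum]
        refine Finset.sum_congr rfl fun k _ => ?_
        have : (3 / 4 : ℝ) ^ k = (1 / 4) ^ k * 3 ^ k := by rw [← mul_pow]; norm_num
        rw [this]
        ring
    _ ≤ 52 * 4 := by
        refine mul_le_mul_of_nonneg_left ?_ (by norm_num)
        rw [geom_sum_eq (by norm_num)]
        have : (0 : ℝ) ≤ (3 / 4) ^ (K + 1) := by positivity
        rw [div_le_iff_of_neg (by norm_num)]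
        linarith
    _ = 208 := by norm_num

end Pool.Agent.Zk2.LX
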