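import Pool.Agent.Cov.PNT
import Pool.Agent.Zk2.LX.G
import Pool.Agent.Zk2.LX.S
import Pool.Agent.Zk2.LX.H
import Pool.Agent.Zk2.LX.Z
import Pool.Agent.Zk2.LW.G

/-! # The sharp local Weil criterion: the asymptotic form -/

set_option autoImplicit false
set_option linter.unusedSectionVars false
set_option maxHeartbeats 4000000

open Complex Filter Topology Set MeasureTheory Metric
open scoped ComplexConjugate

namespace Pool.Agent.Zk2.LX

open Pool.Agent.Y23 (TT Fa N2 plancherel N2_nonneg norm_TT_le)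
open Pool.Agent.Y23.G (Hd GD QQ Zt mu zd aL)
open Pool.Agent.Zk2.WP (zL)
open Pool.Agent.Zk2.LW (Hd_mono cheb_sqrt)
open ArithmeticFunction (vonMangoldt)

/-- the prime number theorem as an upper bound -/
lemma psi_up {δ : ℝ} (hδ : 0 < δ) : ∃ e0 : ℝ, 0 ≤ e0 ∧ ∀ y : ℝ, 1 ≤ y →
    ∑ n ∈ Finset.Icc 1 ⌊y⌋₊, vonMangoldt n ≤ (1 + δ) * y + e0 := by
  have h1 := Pool.Agent.Cov.PNT.psi_div_tendsto
  obtain ⟨Y, hY⟩ := eventually_atTop.1 (h1.eventually (gt_mem_nhds (show (1 : ℝ) < 1 + δ by linarith)))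
  have hpsi : ∀ y : ℝ, Chebyshev.psi y = ∑ n ∈ Finset.Icc 1 ⌊y⌋₊, vonMangoldt n := by
    intro y
    unfold Chebyshev.psi
    refine Finset.sum_congr ?_ fun _ _ => rfl
    ext n
    simp [Finset.mem_Ioc, Finset.mem_Icc, Nat.one_le_iff_ne_zero, Nat.pos_iff_ne_zero]
  refine ⟨Chebyshev.psi (max Y 1), Chebyshev.psi_nonneg _, fun y hy => ?_⟩
  rw [← hpsi]
  rcases le_total (max Y 1) y with h | h
  · have h2 := hY y ((le_max_left _ _).trans h)
    have hy0 : 0 < y := by linarith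
    rw [div_lt_iff₀ hy0] at h2
    have := Chebyshev.psi_nonneg (max Y 1)
    linarith
  · have h2 := Chebyshev.psi_mono h
    have : 0 ≤ (1 + δ) * y := by positivity
    linarith

/-- the sum of `Λ(n)/n` -/
lemma mert_up {δ : ℝ} (hδ : 0 < δ) : ∃ C : ℝ, 0 ≤ C ∧ ∀ N : ℕ,
    ∑ n ∈ Finset.Icc 1 N, vonMangoldt n / n ≤ δ * Real.sqrt N + C := by
  obtain ⟨M, hM⟩ := exists_nat_gt ((12 / δ) ^ 2)
  have hM0 : (0 : ℝ) < M := lt_of_le_of_lt (by positivity) hM
  have hsM : 12 / δ ≤ Real.sqrt M := Real.le_sqrt_of_sq_le hM.le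
  have hsM0 : 0 < Real.sqrt M := Real.sqrt_pos.2 hM0
  refine ⟨12 * Real.sqrt M, by positivity, fun N => ?_⟩
  have hpt : ∀ n ∈ Finset.Icc 1 N, vonMangoldt n / n ≤ (if n ≤ M then vonMangoldt n / Real.sqrt n else 0) +
      1 / Real.sqrt M * (vonMangoldt n / Real.sqrt n) := by
    intro n hn
    have hn1 : (1 : ℝ) ≤ n := by exact_mod_cast (Finset.mem_Icc.1 hn).1
    have hn0 : (0 : ℝ) < n := by linarith
    have hs : 1 ≤ Real.sqrt n := Real.one_le_sqrt.2 hn1
    have hs0 : 0 < Real.sqrt n := by linarith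
    have hss : Real.sqrt n * Real.sqrt n = n := Real.mul_self_sqrt hn0.le
    have hv : 0 ≤ vonMangoldt n := ArithmeticFunction.vonMangoldt_nonneg
    have hvs : 0 ≤ vonMangoldt n / Real.sqrt n := div_nonneg hv hs0.le
    have e : vonMangoldt n / n = vonMangoldt n / Real.sqrt n * (1 / Real.sqrt n) := by
      rw [mul_one_div, div_div, hss]
    split_ifs with h
    · rw [e]
      have h1 : vonMangoldt n / Real.sqrt n * (1 / Real.sqrt n) ≤ vonMangoldt n / Real.sqrt n * 1 := by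
        refine mul_le_mul_of_nonneg_left ?_ hvs
        rw [div_le_one hs0]
        exact hs
      have h2 : 0 ≤ 1 / Real.sqrt M * (vonMangoldt n / Real.sqrt n) := by positivity
      linarith
    · rw [e, zero_add, mul_comm]
      refine mul_le_mul_of_nonneg_right ?_ hvs
      refine div_le_div_of_nonneg_left (by norm_num) hsM0 (Real.sqrt_le_sqrt ?_)
      exact_mod_cast (not_le.1 h).le
  refine (Finset.sum_le_sum hpt).trans ?_
  rw [Finset.sum_add_distrib, ← Finset.sum_filter, ← Finset.mul_sum]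
  have h1 : ∑ n ∈ (Finset.Icc 1 N).filter (fun n => n ≤ M), vonMangoldt n / Real.sqrt n ≤
      ∑ n ∈ Finset.Icc 1 M, vonMangoldt n / Real.sqrt n := by
    refine Finset.sum_le_sum_of_subset_of_nonneg (fun n hn => ?_) fun n _ _ => ?_
    · have h2 := Finset.mem_filter.1 hn
      exact Finset.mem_Icc.2 ⟨(Finset.mem_Icc.1 h2.1).1, h2.2⟩
    · exact div_nonneg ArithmeticFunction.vonMangoldt_nonneg (Real.sqrt_nonneg _)
  have h2 := cheb_sqrt M
  have h3 := mul_le_mul_of_nonneg_left (cheb_sqrt N) (show 0 ≤ 1 / Real.sqrt M by positivity)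
  have h4 : 1 / Real.sqrt M * (12 * Real.sqrt N) ≤ δ * Real.sqrt N := by
    have h5 : 12 / Real.sqrt M ≤ δ := by
      rw [div_le_iff₀ hsM0]
      rw [div_le_iff₀ hδ] at hsM
      linarith
    calc 1 / Real.sqrt M * (12 * Real.sqrt N) = 12 / Real.sqrt M * Real.sqrt N := by ring
      _ ≤ δ * Real.sqrt N := mul_le_mul_of_nonneg_right h5 (Real.sqrt_nonneg _)
  linarith

/-- the bound of the primes -/
lemma schur_up {δ : ℝ} (hδ : 0 < δ) : ∃ C : ℝ, 0 ≤ C ∧ ∀ b : ℝ, 0 < b → ∀ g : ℝ → ℂ, Fa b g →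
    2 * (∑ n ∈ Finset.Icc 1 ⌊Real.exp (2 * b)⌋₊, aL (L := zL) n * ∫ x : ℝ, g (x + Real.log n) * conj (g x)).re ≤
      ((1 + δ) * Real.exp b + C) * N2 g := by
  obtain ⟨e0, he0, h1⟩ := psi_up (δ := δ / 2) (by positivity)
  obtain ⟨C, hC, h2⟩ := mert_up (δ := δ / 2) (by positivity)
  refine ⟨e0 + C, by positivity, fun b hb g hg => ?_⟩
  have h3 : Real.sqrt (⌊Real.exp (2 * b)⌋₊ : ℝ) ≤ Real.exp b := by
    rw [Real.sqrt_le_left (Real.exp_pos _).le]
    refine (Nat.floor_le (Real.exp_pos _).le).trans (le_of_eq ?_)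
    rw [← Real.exp_nat_mul]
    norm_num
  have h4 := schur (c := 1 + δ / 2) (e0 := e0) (d := δ / 2 * Real.exp b + C) hb (fun y hy _ => h1 y hy)
    ((h2 _).trans (by
      have := mul_le_mul_of_nonneg_left h3 (show 0 ≤ δ / 2 by positivity)
      linarith)) hg
  refine h4.trans (le_of_eq ?_)
  ring

/-- the case of large supports -/
lemma asy_large {δ : ℝ} (hδ : 0 < δ) (hδ1 : δ ≤ 1) : ∃ C : ℝ, 0 < C ∧ ∀ a : ℝ, 1 ≤ a → ∃ c : ℝ, 0 < c ∧ ∀ f : ℝ → ℂ, Hd a f →
    (∀ ρ : Zt (D := zd (L := zL)), 1 / 2 < (ρ : ℂ).re → |(ρ : ℂ).im| ≤ C * Real.exp ((1 + δ) * Real.exp a) →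
      TT f ((ρ : ℂ) - 1 / 2) = 0) → c * N2 f ≤ QQ (D := zd (L := zL)) f := by
  obtain ⟨C1, hC1, hS⟩ := schur_up (δ := δ / 8) (by positivity)
  set η : ℝ := δ / 8 with hη
  have hη0 : 0 < η := by positivity
  have hη1 : η ≤ 1 := by rw [hη]; linarith
  -- the exponential beats the powers
  set D : ℝ := 256 * 208 * 16 / η ^ 2 with hD
  have hD0 : 0 < D := by positivity
  have hlim := tendsto_pow_const_div_const_pow_of_one_lt 7 (show (1 : ℝ) < 2 by norm_num)
  obtain ⟨P0, hP0⟩ := eventually_atTop.1 (hlim.eventually (ge_mem_nhds (show (0 : ℝ) < 1 / D by positivity)))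
  set K1 : ℝ := 28 + 22650 / η + P0 + 1 with hK1
  have hP00 : (0 : ℝ) ≤ P0 := Nat.cast_nonneg _
  have hK10 : 0 < K1 := by positivity
  set C0 : ℝ := 51 / η ^ 2 * (2 * K1 + 2) * (7 * Real.exp (2 + C1)) * (12 / δ) with hC0
  have hC00 : 0 < C0 := by positivity
  refine ⟨C0, hC00, fun a ha => ?_⟩
  have ha0 : 0 < a := by linarith
  have hpi := Real.pi_gt_three
  have hpi2 := Real.pi_lt_d2
  -- the parameters
  set θ : ℝ := η / (4 * a + η) with hθ
  have hθ0 : 0 < θ := by positivity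
  have hθ1 : θ ≤ 1 / 4 := by
    rw [hθ, div_le_div_iff₀ (by positivity) (by norm_num)]
    linarith
  have h1θ : 1 - θ = 4 * a / (4 * a + η) := by rw [hθ]; field_simp; ring
  have hb1 : a / (1 - θ) = a + η / 4 := by rw [h1θ]; field_simp
  have hb : a * (1 + 3 * θ) / (1 - θ) = a + η := by
    rw [h1θ, hθ]
    field_simp
    ring
  have hθb : θ * (a / (1 - θ)) = η / 4 := by rw [hb1, hθ]; field_simp
  have hs0 : 47 / 48 ≤ 1 - θ ^ 2 / 3 := by nlinarith only [hθ0, hθ1]
  set M : ℝ := 4 * Real.exp 2 / (θ ^ 2 * (1 - θ ^ 2 / 3)) with hM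
  have hs00 : 0 < θ ^ 2 * (1 - θ ^ 2 / 3) := mul_pos (by positivity) (by linarith)
  have hMeq : M * (θ ^ 2 * (1 - θ ^ 2 / 3)) = 4 * Real.exp 2 := by rw [hM, div_mul_cancel₀ _ hs00.ne']
  have hM0 : 0 < M := div_pos (by positivity) hs00
  have he2' : Real.exp 2 ≤ 739 / 100 := by
    have h1 := Real.exp_one_lt_d9
    have h2 : Real.exp 2 = Real.exp 1 * Real.exp 1 := by rw [← Real.exp_add]; norm_num
    have h3 := Real.exp_pos 1
    rw [h2]
    nlinarith only [h1, h3]
  have hMle : M ≤ 755 * a ^ 2 / η ^ 2 := by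
    have k1 : M * θ ^ 2 * (47 / 48) ≤ M * θ ^ 2 * (1 - θ ^ 2 / 3) := mul_le_mul_of_nonneg_left hs0 (by positivity)
    have k2 : M * θ ^ 2 * (1 - θ ^ 2 / 3) = 4 * Real.exp 2 := by rw [← hMeq]; ring
    have k3 : M * θ ^ 2 ≤ 151 / 5 := by linarith
    have k4 : η / (5 * a) ≤ θ := by
      rw [hθ]
      exact div_le_div_of_nonneg_left hη0.le (by positivity) (by linarith)
    have k5 : M * (η / (5 * a)) ^ 2 ≤ 151 / 5 :=
      (mul_le_mul_of_nonneg_left (pow_le_pow_left₀ (by positivity) k4 2) hM0.le).trans k3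
    rw [le_div_iff₀ (by positivity)]
    have k6 : M * (η / (5 * a)) ^ 2 = M * η ^ 2 / (25 * a ^ 2) := by field_simp; norm_num
    rw [k6, div_le_iff₀ (by positivity)] at k5
    linarith
  set lam : ℝ := (1 + δ / 8) * Real.exp (a + η) + C1 with hlam
  have hea : Real.exp (a + η) ≤ (1 + δ / 4) * Real.exp a := by
    rw [Real.exp_add, mul_comm]
    refine mul_le_mul_of_nonneg_right ?_ (Real.exp_pos a).le
    have := Real.abs_exp_sub_one_le (x := η) (by rw [abs_of_pos hη0]; exact hη1)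
    rw [abs_of_pos hη0] at this
    have h2 := (abs_le.1 this).2
    rw [hη] at h2 ⊢
    linarith
  have hlam_le : lam ≤ (1 + δ / 2) * Real.exp a + C1 := by
    have h1 : (1 + δ / 8) * Real.exp (a + η) ≤ (1 + δ / 8) * ((1 + δ / 4) * Real.exp a) :=
      mul_le_mul_of_nonneg_left hea (by positivity)
    have h2 : (1 + δ / 8) * ((1 + δ / 4) * Real.exp a) ≤ (1 + δ / 2) * Real.exp a := by
      rw [← mul_assoc]
      refine mul_le_mul_of_nonneg_right ?_ (Real.exp_pos a).le
      nlinarith only [hδ, hδ1]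
    linarith
  have hexpa : Real.exp a ≤ lam := by
    have h1 : Real.exp a ≤ Real.exp (a + η) := Real.exp_le_exp.2 (by linarith)
    have h2 := mul_pos hδ (Real.exp_pos (a + η))
    rw [hlam]
    linarith
  have hexp1 : a + 1 ≤ Real.exp a := Real.add_one_le_exp a
  have hlam2 : 2 ≤ lam := by linarith
  set T1 : ℝ := 2 * Real.pi * Real.exp (lam + 2) with hT1
  have hexpl : lam + 3 ≤ Real.exp (lam + 2) := by linarith [Real.add_one_le_exp (lam + 2)]
  have hT1l : 6 * (lam + 3) ≤ T1 := by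
    rw [hT1]
    have : 6 * (lam + 3) ≤ 6 * Real.exp (lam + 2) := by linarith
    have h2 : 6 * Real.exp (lam + 2) ≤ 2 * Real.pi * Real.exp (lam + 2) := by
      refine mul_le_mul_of_nonneg_right (by linarith) (Real.exp_pos _).le
    linarith
  have hT130 : 30 ≤ T1 := by linarith
  have hT10 : 0 < T1 := by linarith
  -- the order
  set X : ℝ := 14 * (a / (1 - θ)) * T1 + 30 * η * M + P0 + 1 with hX
  have hX0 : 0 < X := by
    rw [hX, hb1]
    positivity
  set p : ℕ := 2 * ⌈X⌉₊ with hp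
  have hpX : X ≤ p := by
    rw [hp]
    push_cast
    have := Nat.le_ceil X
    linarith
  have hp1 : 1 ≤ p := by
    have := Nat.ceil_pos.2 hX0
    omega
  have hpc1 : (1 : ℝ) ≤ p := by exact_mod_cast hp1
  have hb1pos : 0 < a / (1 - θ) := by rw [hb1]; positivity
  have hpT1 : 14 * (a / (1 - θ)) * T1 ≤ p := by
    refine le_trans ?_ hpX
    rw [hX]
    have : 0 ≤ 30 * η * M := by positivity
    linarith
  have hT1p : T1 ≤ p := by
    refine le_trans ?_ hpT1
    rw [hb1]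
    nlinarith only [mul_pos hT10 hη0, mul_nonneg hT10.le (sub_nonneg.2 ha), hT10]
  have hpP0 : P0 ≤ p := by
    have : (P0 : ℝ) ≤ p := by
      refine le_trans ?_ hpX
      rw [hX]
      have : 0 ≤ 30 * η * M := by positivity
      have : 0 ≤ 14 * (a / (1 - θ)) * T1 := by positivity
      linarith
    exact_mod_cast this
  have h2p := hP0 p hpP0
  rw [div_le_iff₀ (by positivity), one_div_mul_eq_div, le_div_iff₀ hD0] at h2p
  have h2p' : D * (p : ℝ) ^ 7 ≤ 2 ^ p := by linarith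
  have hDbig : 256 * 208 * 16 ≤ D := by
    rw [hD, le_div_iff₀ (by positivity)]
    have : η ^ 2 ≤ 1 := pow_le_one₀ hη0.le hη1
    linarith
  have hpe : Real.exp a ≤ p := by linarith
  have hae : a * Real.exp a ≤ (p : ℝ) ^ 2 := by
    have : a ≤ p := by linarith
    calc a * Real.exp a ≤ p * p := mul_le_mul this hpe (Real.exp_pos _).le (by positivity)
      _ = (p : ℝ) ^ 2 := by ring
  have hae2 : a * Real.exp (2 * a) ≤ (p : ℝ) ^ 3 := by
    have h1 : Real.exp (2 * a) = Real.exp a * Real.exp a := by rw [← Real.exp_add]; congr 1; ring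
    rw [h1]
    calc a * (Real.exp a * Real.exp a) = (a * Real.exp a) * Real.exp a := by ring
      _ ≤ (p : ℝ) ^ 2 * p := mul_le_mul hae hpe (Real.exp_pos _).le (by positivity)
      _ = (p : ℝ) ^ 3 := by ring
  have hpow : ∀ k : ℕ, k ≤ 7 → (p : ℝ) ^ k ≤ (p : ℝ) ^ 7 := fun k hk => pow_le_pow_right₀ hpc1 hk
  set T : ℝ := 51 * a * p / η ^ 2 with hT
  have hTT : T ≤ C0 * Real.exp ((1 + δ) * Real.exp a) := by
    have k1 : X ≤ K1 * a ^ 2 * T1 := by
      have a2 : a ≤ a ^ 2 := by nlinarith only [ha]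
      have a21 : 1 ≤ a ^ 2 := by nlinarith only [ha]
      have t1 : 14 * (a / (1 - θ)) * T1 ≤ 28 * a ^ 2 * T1 := by
        rw [hb1]
        refine mul_le_mul_of_nonneg_right ?_ hT10.le
        linarith
      have t2 : 30 * η * M ≤ 22650 / η * a ^ 2 * T1 := by
        calc 30 * η * M ≤ 30 * η * (755 * a ^ 2 / η ^ 2) := mul_le_mul_of_nonneg_left hMle (by positivity)
          _ = 22650 / η * a ^ 2 * 1 := by field_simp; norm_num
          _ ≤ 22650 / η * a ^ 2 * T1 := mul_le_mul_of_nonneg_left (by linarith) (by positivity)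
      have t3 : (P0 : ℝ) + 1 ≤ (P0 + 1) * a ^ 2 * T1 := by
        calc (P0 : ℝ) + 1 = (P0 + 1) * 1 * 1 := by ring
          _ ≤ (P0 + 1) * a ^ 2 * T1 := by
              have : (1 : ℝ) ≤ T1 := by linarith
              gcongr
      rw [hX, hK1]
      calc 14 * (a / (1 - θ)) * T1 + 30 * η * M + P0 + 1 = 14 * (a / (1 - θ)) * T1 + 30 * η * M + (P0 + 1) := by ring
        _ ≤ 28 * a ^ 2 * T1 + 22650 / η * a ^ 2 * T1 + (P0 + 1) * a ^ 2 * T1 := by linarith
        _ = _ := by ring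
    have k2 : (p : ℝ) ≤ (2 * K1 + 2) * a ^ 2 * T1 := by
      have h1 := (Nat.ceil_lt_add_one hX0.le).le
      have h2 : (1 : ℝ) ≤ a ^ 2 * T1 := by
        have a21 : 1 ≤ a ^ 2 := by nlinarith only [ha]
        nlinarith only [a21, hT130]
      rw [hp]
      push_cast
      linarith
    have k3 : T1 ≤ 7 * Real.exp (2 + C1) * Real.exp ((1 + δ / 2) * Real.exp a) := by
      rw [hT1]
      have h1 : Real.exp (lam + 2) ≤ Real.exp (2 + C1) * Real.exp ((1 + δ / 2) * Real.exp a) := by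
        rw [← Real.exp_add]
        exact Real.exp_le_exp.2 (by linarith)
      calc 2 * Real.pi * Real.exp (lam + 2) ≤ 7 * Real.exp (lam + 2) :=
            mul_le_mul_of_nonneg_right (by linarith) (Real.exp_pos _).le
        _ ≤ 7 * (Real.exp (2 + C1) * Real.exp ((1 + δ / 2) * Real.exp a)) := by linarith
        _ = _ := by ring
    have k4 : a ^ 3 ≤ 12 / δ * Real.exp (δ / 2 * Real.exp a) := by
      have h1 := Real.pow_div_factorial_le_exp a ha0.le 3
      have h2 : ((3 : ℕ).factorial : ℝ) = 6 := by norm_num [Nat.factorial]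
      rw [h2, div_le_iff₀ (by norm_num)] at h1
      have h3 : δ / 2 * Real.exp a ≤ Real.exp (δ / 2 * Real.exp a) := by linarith [Real.add_one_le_exp (δ / 2 * Real.exp a)]
      have h4 : Real.exp a ≤ 2 / δ * Real.exp (δ / 2 * Real.exp a) := by
        have h5 := mul_le_mul_of_nonneg_left h3 (show 0 ≤ 2 / δ by positivity)
        have h6 : 2 / δ * (δ / 2 * Real.exp a) = Real.exp a := by field_simp
        linarith
      calc a ^ 3 ≤ Real.exp a * 6 := h1
        _ ≤ (2 / δ * Real.exp (δ / 2 * Real.exp a)) * 6 := by linarith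
        _ = _ := by ring
    calc T = 51 / η ^ 2 * a * p := by rw [hT]; ring
      _ ≤ 51 / η ^ 2 * a * ((2 * K1 + 2) * a ^ 2 * T1) := mul_le_mul_of_nonneg_left k2 (by positivity)
      _ = 51 / η ^ 2 * (2 * K1 + 2) * T1 * a ^ 3 := by ring
      _ ≤ 51 / η ^ 2 * (2 * K1 + 2) * (7 * Real.exp (2 + C1) * Real.exp ((1 + δ / 2) * Real.exp a)) *
          (12 / δ * Real.exp (δ / 2 * Real.exp a)) := by gcongr
      _ = C0 * (Real.exp ((1 + δ / 2) * Real.exp a) * Real.exp (δ / 2 * Real.exp a)) := by rw [hC0]; ring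
      _ = C0 * Real.exp ((1 + δ) * Real.exp a) := by
          rw [← Real.exp_add]
          congr 2
          ring
  have hT1' : 1 ≤ T := by
    rw [hT, le_div_iff₀ (by positivity)]
    have h1 : η ^ 2 ≤ 1 := pow_le_one₀ hη0.le hη1
    have h2 := mul_le_mul ha hpc1 zero_le_one ha0.le
    linarith only [h1, h2]
  obtain ⟨c, hc, hmain⟩ := param (L := zL) (a := a) (θ := θ) (M := M) (y := η / (40 * a)) (T := T) (T1 := T1) (lam := lam)
    (κ := 1) (D0 := 7) (Z := 208) (p := p) ha0 hθ0 hθ1 hMeq (by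
      rw [hb]
      exact fun g hg => hS (a + η) (by positivity) g hg) Z_le one_pos (by linarith) hT10.le (fun v hv => by
      have h1 := GD_lower (v := v) (by linarith)
      have h2 : lam + 2 ≤ Real.log (|v| / (2 * Real.pi)) := by
        rw [Real.le_log_iff_exp_le (by
          have : 0 < |v| := by linarith
          positivity), le_div_iff₀ (by positivity)]
        calc Real.exp (lam + 2) * (2 * Real.pi) = T1 := by rw [hT1]; ring
          _ ≤ |v| := hv
      have h3 : 6 / (|v| - 3 / 2) ≤ 1 := by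
        rw [div_le_one (by linarith)]
        linarith
      linarith) GD_lower' ⟨⌈X⌉₊, by rw [hp]; ring⟩ hp1 hpT1 (by
      rw [hθb]
      refine le_trans ?_ hpX
      rw [hX]
      have : 0 ≤ 14 * (a / (1 - θ)) * T1 := by positivity
      have e : 120 * M * (η / 4) = 30 * η * M := by ring
      linarith) (by
      have h1 : 1 + lam + 7 ≤ p := by linarith
      have h2 : (p : ℝ) ^ 2 ≤ 2 ^ p := by
        have h3 : (p : ℝ) ^ 2 ≤ (p : ℝ) ^ 7 := hpow 2 (by norm_num)
        have h4 : (p : ℝ) ^ 7 ≤ D * (p : ℝ) ^ 7 := le_mul_of_one_le_left (by positivity) (by linarith)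
        linarith
      calc (1 + lam + 7) * (p : ℝ) ≤ p * p := mul_le_mul_of_nonneg_right h1 (by positivity)
        _ = (p : ℝ) ^ 2 := by ring
        _ ≤ 7 * 1 * 2 ^ p := by
            have : (0 : ℝ) ≤ 2 ^ p := by positivity
            linarith) (by
      have e : ((zL).r : ℝ) = 1 := Nat.cast_one
      rw [e]
      have h3 : (p : ℝ) ^ 3 ≤ (p : ℝ) ^ 7 := hpow 3 (by norm_num)
      have h7 : (0 : ℝ) ≤ (p : ℝ) ^ 7 := by positivity
      calc 64 * 1 * (a * Real.exp a) * (p : ℝ) ≤ 64 * 1 * (p : ℝ) ^ 2 * p := by gcongr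
        _ = 64 * (p : ℝ) ^ 3 := by ring
        _ ≤ 64 * (p : ℝ) ^ 7 := by linarith
        _ ≤ D * (p : ℝ) ^ 7 := mul_le_mul_of_nonneg_right (by linarith) h7
        _ ≤ 1 * 2 ^ p := by linarith) (by
      rw [hθb]
      have h6 : (p : ℝ) ^ 6 ≤ (p : ℝ) ^ 7 := hpow 6 (by norm_num)
      calc 256 * (a * Real.exp (2 * a)) * 208 * (p : ℝ) ^ 3 ≤ 256 * (p : ℝ) ^ 3 * 208 * (p : ℝ) ^ 3 := by gcongr
        _ = 256 * 208 * (p : ℝ) ^ 6 := by ring
        _ ≤ 256 * 208 * (p : ℝ) ^ 7 := by linarith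
        _ = (η / 4) ^ 2 * (D * (p : ℝ) ^ 7) := by
            rw [hD]
            field_simp
            norm_num
        _ ≤ (η / 4) ^ 2 * 2 ^ p := mul_le_mul_of_nonneg_left h2p' (by positivity)
        _ = 1 * (η / 4) ^ 2 * 2 ^ p := by ring) (by positivity) (by
      have hy1 : η / (40 * a) ≤ 1 := by
        rw [div_le_one (by positivity)]
        linarith
      calc (η / (40 * a)) ^ 3 * (1 + η / (40 * a)) * (256 / 27 * M)
          ≤ (η / (40 * a)) ^ 3 * 2 * (256 / 27 * (755 * a ^ 2 / η ^ 2)) := by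
            gcongr
            linarith
        _ = (2 * 256 * 755 / (27 * 64000)) * (η / a) := by
            field_simp
            norm_num
        _ ≤ (2 * 256 * 755 / (27 * 64000)) * 1 := by
            refine mul_le_mul_of_nonneg_left ?_ (by norm_num)
            rw [div_le_one ha0]
            linarith
        _ ≤ 1 / 2 := by norm_num) hT1' (by
      rw [hθb]
      have h1 : Real.exp (η / 4 / p) ≤ 2 := by
        have h2 : η / 4 / p ≤ 1 / 2 := by
          rw [div_le_iff₀ (by positivity)]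
          linarith
        have h3 : Real.exp (1 / 2) ≤ 2 := by
          have h3 : Real.exp (1 / 2) ^ 2 = Real.exp 1 := by rw [← Real.exp_nat_mul]; norm_num
          have h4 := Real.exp_one_lt_d9
          have h5 := Real.exp_pos (1 / 2)
          nlinarith only [h3, h4, h5]
        exact (Real.exp_le_exp.2 h2).trans h3
      have h2 : (Real.exp (η / 4 / p) * p) ^ 2 ≤ (2 * p) ^ 2 := by gcongr
      refine h2.trans ?_
      have e : η / (40 * a) * (η / 4 * T) ^ 2 = 2601 / 640 * (a * (p : ℝ) ^ 2) / η := by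
        rw [hT]
        field_simp
        norm_num
      rw [e, le_div_iff₀ hη0]
      have h3 : (0 : ℝ) ≤ (p : ℝ) ^ 2 := by positivity
      have h4 := mul_le_mul_of_nonneg_right hη1 h3
      have h5 := mul_le_mul_of_nonneg_right ha h3
      linarith only [h3, h4, h5])
  exact ⟨c, hc, fun f hf hz => hmain f hf fun ρ h1 h2 => hz ρ h1 (h2.trans hTT)⟩

/-- THE SHARP LOCAL CRITERION -/
theorem asy {δ : ℝ} (hδ : 0 < δ) : ∃ C : ℝ, 0 < C ∧ ∀ a : ℝ, 0 < a → ∃ c : ℝ, 0 < c ∧ ∀ f : ℝ → ℂ, Hd a f →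
    (∀ ρ : Zt (D := zd (L := zL)), 1 / 2 < (ρ : ℂ).re → |(ρ : ℂ).im| ≤ C * Real.exp ((1 + δ) * Real.exp a) →
      TT f ((ρ : ℂ) - 1 / 2) = 0) → c * N2 f ≤ QQ (D := zd (L := zL)) f := by
  obtain ⟨C0, hC0, h⟩ := asy_large (δ := min δ 1) (lt_min hδ one_pos) (min_le_right _ _)
  have hm : min δ 1 ≤ δ := min_le_left _ _
  have hm0 : 0 < min δ 1 := lt_min hδ one_pos
  refine ⟨C0 * Real.exp ((1 + min δ 1) * Real.exp 1), by positivity, fun a ha => ?_⟩
  rcases le_total 1 a with h1 | h1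
  · obtain ⟨c, hc, h2⟩ := h a h1
    refine ⟨c, hc, fun f hf hz => h2 f hf fun ρ h3 h4 => hz ρ h3 (h4.trans ?_)⟩
    have k1 : 1 ≤ Real.exp ((1 + min δ 1) * Real.exp 1) := Real.one_le_exp (by positivity)
    have k2 : Real.exp ((1 + min δ 1) * Real.exp a) ≤ Real.exp ((1 + δ) * Real.exp a) :=
      Real.exp_le_exp.2 (mul_le_mul_of_nonneg_right (by linarith) (Real.exp_pos _).le)
    calc C0 * Real.exp ((1 + min δ 1) * Real.exp a) ≤ C0 * 1 * Real.exp ((1 + δ) * Real.exp a) := by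
          rw [mul_one]
          exact mul_le_mul_of_nonneg_left k2 hC0.le
      _ ≤ _ := by gcongr
  · obtain ⟨c, hc, h2⟩ := h 1 le_rfl
    refine ⟨c, hc, fun f hf hz => h2 f (Hd_mono hf h1) fun ρ h3 h4 => hz ρ h3 (h4.trans ?_)⟩
    have k1 : 1 ≤ Real.exp ((1 + δ) * Real.exp a) := Real.one_le_exp (by positivity)
    have k2 : 0 ≤ C0 * Real.exp ((1 + min δ 1) * Real.exp 1) := by positivity
    exact le_mul_of_one_le_right k2 k1

end Pool.Agent.Zk2.LX
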