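import Pool.Agent.Zk2.LX.X
import Pool.Agent.Zk2.LX.Y
import Pool.Agent.Zk17.Psi120

/-! # The sharp local Weil criterion: the forms over the zeros -/

set_option autoImplicit false
set_option linter.unusedSectionVars false
set_option maxHeartbeats 1000000

open Complex Filter Topology Set MeasureTheory
open scoped ComplexConjugate

namespace Pool.Agent.Zk2.LX

open Pool.Agent.Y23 (TT Fa N2)
open Pool.Agent.Y23.G
open Pool.Agent.Zk2.WP (zL eqZ Ml_shift wterm_eq zero_iff)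
open Pool.Agent.Zk4.W

/-- from symmetric intervals to all intervals -/
lemma transfer {a T : ℝ} (ha : 0 < a) (h : ∃ c : ℝ, 0 < c ∧ ∀ f : ℝ → ℂ, Hd a f →
    (∀ ρ : Zt (D := zd (L := zL)), 1 / 2 < (ρ : ℂ).re → |(ρ : ℂ).im| ≤ T → TT f ((ρ : ℂ) - 1 / 2) = 0) →
      c * N2 f ≤ QQ (D := zd (L := zL)) f) : ∃ ε : ℝ, 0 < ε ∧
    ∀ (f : ℝ → ℂ) (c : ℝ), MemLp f 2 volume → (∀ x, x ∉ Icc (c - a) (c + a) → f x = 0) →
      Integrable (fun t : ℝ => Real.log (3 + |t|) * ‖Ml f (t * Complex.I)‖ ^ 2) →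
      (∀ ρ : Zs, 1 / 2 < (ρ : ℂ).re → |(ρ : ℂ).im| ≤ T → Ml f ((ρ : ℂ) - 1 / 2) = 0) →
      ε * ∫ x, ‖f x‖ ^ 2 ≤ (∑' ρ, wterm f ρ).re := by
  obtain ⟨ε, hε, h2⟩ := h
  refine ⟨ε, hε, fun f c hf hsupp hL hz => ?_⟩
  set g : ℝ → ℂ := fun x => f (x + c) with hg
  have hgFa : Fa a g := by
    refine ⟨hf.comp_measurePreserving (measurePreserving_add_right volume c), fun x hx => ?_⟩
    refine hsupp _ fun h => ?_
    have h1 : |x| ≤ a := abs_le.2 ⟨by linarith [h.1], by linarith [h.2]⟩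
    linarith
  have hLg : Integrable (fun v : ℝ => Lg v * ‖TT g (v * I)‖ ^ 2) := by
    refine hL.congr (Eventually.of_forall fun v => ?_)
    show Real.log (3 + |v|) * ‖Ml f (v * I)‖ ^ 2 = Lg v * ‖TT g (v * I)‖ ^ 2
    rw [Ml_shift f c, norm_mul]
    have : (v * I : ℂ) * c = ((v * c : ℝ) : ℂ) * I := by push_cast; ring
    rw [this, Complex.norm_exp_ofReal_mul_I, one_mul]
    rfl
  have hHd : Hd a g := ⟨hgFa, hLg⟩
  have hdom : Pool.Agent.Y23.G.Dom (D := zd (L := zL)) g :=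
    Pool.Agent.Y23.G.Hd.dom (DZ := zd (L := zL)) (EC := zc (L := zL)) ha hHd
  have hsum := summable_GG (DZ := zd (L := zL)) hdom hdom
  have hQB := QB_self (DZ := zd (L := zL)) hdom
  have hw : wterm f = (fun ρ : Zt (D := zd (L := zL)) =>
      (mu (D := zd (L := zL)) (ρ : ℂ) : ℂ) * GG g g ((ρ : ℂ) - 1 / 2)) ∘ eqZ := by
    funext ρ
    exact wterm_eq f c ρ
  have h3 : ∑' ρ, wterm f ρ = (QQ (D := zd (L := zL)) g : ℂ) := by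
    rw [hw, ← hQB]
    exact eqZ.tsum_eq (fun ρ : Zt (D := zd (L := zL)) =>
      (mu (D := zd (L := zL)) (ρ : ℂ) : ℂ) * GG g g ((ρ : ℂ) - 1 / 2))
  rw [h3, Complex.ofReal_re]
  have h4 : N2 g = ∫ x, ‖f x‖ ^ 2 := by
    unfold N2
    exact integral_add_right_eq_self (fun x => ‖f x‖ ^ 2) c
  rw [← h4]
  refine h2 g hHd fun ρ h5 h6 => ?_
  have hρ : (ρ : ℂ) ∈ Zs := (zero_iff (ρ : ℂ)).2 ρ.2
  have h7 := hz ⟨(ρ : ℂ), hρ⟩ h5 h6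
  rw [Ml_shift f c] at h7
  exact (mul_eq_zero.1 h7).resolve_left (Complex.exp_ne_zero _)

/-- THE SHARP LOCAL WEIL CRITERION -/
theorem sharp {δ : ℝ} (hδ : 0 < δ) : ∃ C : ℝ, 0 < C ∧ ∀ a : ℝ, 0 < a → ∃ ε : ℝ, 0 < ε ∧
    ∀ (f : ℝ → ℂ) (c : ℝ), MemLp f 2 volume → (∀ x, x ∉ Icc (c - a) (c + a) → f x = 0) →
      Integrable (fun t : ℝ => Real.log (3 + |t|) * ‖Ml f (t * Complex.I)‖ ^ 2) →
      (∀ ρ : Zs, 1 / 2 < (ρ : ℂ).re → |(ρ : ℂ).im| ≤ C * Real.exp ((1 + δ) * Real.exp a) → Ml f ((ρ : ℂ) - 1 / 2) = 0) →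
      ε * ∫ x, ‖f x‖ ^ 2 ≤ (∑' ρ, wterm f ρ).re := by
  obtain ⟨C, hC, h⟩ := asy hδ
  exact ⟨C, hC, fun a ha => transfer ha (h a ha)⟩

/-- THE EXPLICIT LOCAL WEIL CRITERION -/
theorem sharp100 : ∃ ε : ℝ, 0 < ε ∧
    ∀ (f : ℝ → ℂ) (c : ℝ), MemLp f 2 volume → (∀ x, x ∉ Icc (c - Real.log 10) (c + Real.log 10) → f x = 0) →
      Integrable (fun t : ℝ => Real.log (3 + |t|) * ‖Ml f (t * Complex.I)‖ ^ 2) →
      (∀ ρ : Zs, 1 / 2 < (ρ : ℂ).re → |(ρ : ℂ).im| ≤ 10 ^ 12 → Ml f ((ρ : ℂ) - 1 / 2) = 0) →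
      ε * ∫ x, ‖f x‖ ^ 2 ≤ (∑' ρ, wterm f ρ).re :=
  transfer (Real.log_pos (by norm_num)) (explicit100 Pool.Agent.Zk17.psi120 Pool.Agent.Zk17.mert120)

end Pool.Agent.Zk2.LX
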