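import Pool.Agent.Zk2.LX.G
import Pool.Agent.Zk2.LX.S
import Pool.Agent.Zk2.LX.H
import Pool.Agent.Zk2.LX.Z

/-! # The explicit local Weil criterion -/

set_option autoImplicit false
set_option linter.unusedSectionVars false
set_option maxHeartbeats 4000000

open Complex Filter Topology Set MeasureTheory Metric
open scoped ComplexConjugate

namespace Pool.Agent.Zk2.LX

open Pool.Agent.Y23 (TT Fa N2 plancherel N2_nonneg norm_TT_le)
open Pool.Agent.Y23.G (Hd GD QQ Zt mu zd aL)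
open Pool.Agent.Zk2.WP (zL)
open ArithmeticFunction (vonMangoldt)

lemma log_ten_le : Real.log 10 ≤ 76 / 33 := by
  have h1 := Real.exp_one_gt_d9
  rw [Real.log_le_iff_le_exp (by norm_num)]
  have h2 : Real.exp (76 / 33) ^ 33 = Real.exp 1 ^ 76 := by
    rw [← Real.exp_nat_mul, ← Real.exp_nat_mul]
    norm_num
  have h3 : (10 : ℝ) ^ 33 ≤ Real.exp (76 / 33) ^ 33 := by
    rw [h2]
    have h4 : (2.7182818283 : ℝ) ^ 76 ≤ Real.exp 1 ^ 76 := pow_le_pow_left₀ (by norm_num) h1.le _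
    refine le_trans ?_ h4
    norm_num
  exact le_of_pow_le_pow_left₀ (by norm_num) (Real.exp_pos _).le h3

lemma log_ten_ge : 99 / 43 ≤ Real.log 10 := by
  have h1 := Real.exp_one_lt_d9
  rw [Real.le_log_iff_exp_le (by norm_num)]
  have h2 : Real.exp (99 / 43) ^ 43 = Real.exp 1 ^ 99 := by
    rw [← Real.exp_nat_mul, ← Real.exp_nat_mul]
    norm_num
  have h3 : Real.exp (99 / 43) ^ 43 ≤ (10 : ℝ) ^ 43 := by
    rw [h2]
    have h4 : Real.exp 1 ^ 99 ≤ (2.7182818286 : ℝ) ^ 99 := pow_le_pow_left₀ (Real.exp_pos _).le h1.le _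
    refine le_trans h4 ?_
    norm_num
  exact le_of_pow_le_pow_left₀ (by norm_num) (by norm_num) h3

lemma exp_b_le : Real.exp (Real.log 10 * (1 + 3 * (1 / 100)) / (1 - 1 / 100)) ≤ 11 := by
  have h2 : Real.exp (Real.log 10 * (1 + 3 * (1 / 100)) / (1 - 1 / 100)) ^ 99 = 10 ^ 103 := by
    rw [← Real.exp_nat_mul]
    have : ((99 : ℕ) : ℝ) * (Real.log 10 * (1 + 3 * (1 / 100)) / (1 - 1 / 100)) = ((103 : ℕ) : ℝ) * Real.log 10 := by
      push_cast
      ring
    rw [this, Real.exp_nat_mul, Real.exp_log (by norm_num)]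
  have h3 : Real.exp (Real.log 10 * (1 + 3 * (1 / 100)) / (1 - 1 / 100)) ^ 99 ≤ (11 : ℝ) ^ 99 := by
    rw [h2]
    norm_num
  exact le_of_pow_le_pow_left₀ (by norm_num) (by norm_num) h3

lemma exp_15 : Real.exp (63 / 4) ≤ 6920600 := by
  have h1 := Real.exp_one_lt_d9
  have h2 : Real.exp (63 / 4) ^ 4 = Real.exp 1 ^ 63 := by
    rw [← Real.exp_nat_mul, ← Real.exp_nat_mul]
    norm_num
  have h3 : Real.exp (63 / 4) ^ 4 ≤ (6920600 : ℝ) ^ 4 := by
    rw [h2]
    have h4 : Real.exp 1 ^ 63 ≤ (2.7182818286 : ℝ) ^ 63 := pow_le_pow_left₀ (Real.exp_pos _).le h1.le _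
    refine le_trans h4 ?_
    norm_num
  exact le_of_pow_le_pow_left₀ (by norm_num) (by norm_num) h3

lemma GD_15 {v : ℝ} (hv : 43500000 ≤ |v|) : 787 / 50 + 1 / 100 ≤ GD (L := zL) v := by
  have h1 := GD_lower (v := v) (by linarith)
  have hpi := Real.pi_lt_d4
  have hpi0 := Real.pi_pos
  have h2 : 63 / 4 + 1 / 100000 ≤ Real.log (|v| / (2 * Real.pi)) := by
    rw [Real.le_log_iff_exp_le (by
      have : 0 < |v| := by linarith
      positivity), le_div_iff₀ (by positivity)]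
    have h3 : Real.exp (63 / 4 + 1 / 100000) ≤ 6920600 * (1 + 1 / 50000) := by
      rw [Real.exp_add]
      have h4 : Real.exp (1 / 100000) ≤ 1 + 1 / 50000 := by
        have := Real.abs_exp_sub_one_le (x := (1 / 100000 : ℝ)) (by rw [abs_of_pos (by norm_num)]; norm_num)
        rw [abs_of_pos (show (0 : ℝ) < 1 / 100000 by norm_num)] at this
        have h5 := (abs_le.1 this).2
        linarith
      exact mul_le_mul exp_15 h4 (Real.exp_pos _).le (by norm_num)
    have h6 : Real.exp (63 / 4 + 1 / 100000) * (2 * Real.pi) ≤ 6920600 * (1 + 1 / 50000) * (2 * 3.1416) := by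
      refine mul_le_mul h3 (by linarith) (by positivity) (by norm_num)
    refine h6.trans (le_trans ?_ hv)
    norm_num
  have h3 : 6 / (|v| - 3 / 2) ≤ 1 / 100000 := by
    rw [div_le_iff₀ (by linarith)]
    linarith
  linarith

/-- THE EXPLICIT LOCAL CRITERION -/
theorem explicit100 (hpsi : ∀ N : ℕ, N ≤ 121 → ∑ n ∈ Finset.Icc 1 N, vonMangoldt n ≤ 26 / 25 * (N : ℝ))
    (hmert : ∑ n ∈ Finset.Icc 1 121, vonMangoldt n / n ≤ 43 / 10) : ∃ c : ℝ, 0 < c ∧ ∀ f : ℝ → ℂ, Hd (Real.log 10) f →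
    (∀ ρ : Zt (D := zd (L := zL)), 1 / 2 < (ρ : ℂ).re → |(ρ : ℂ).im| ≤ 10 ^ 12 → TT f ((ρ : ℂ) - 1 / 2) = 0) →
      c * N2 f ≤ QQ (D := zd (L := zL)) f := by
  have hl1 := log_ten_le
  have hl2 := log_ten_ge
  have hl0 : 0 < Real.log 10 := by linarith
  set a : ℝ := Real.log 10 with ha
  have hexpa : Real.exp a = 10 := Real.exp_log (by norm_num)
  have hexp2a : Real.exp (2 * a) = 100 := by
    have : Real.exp (2 * a) = Real.exp a * Real.exp a := by rw [← Real.exp_add]; congr 1; ring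
    rw [this, hexpa]
    norm_num
  set θ : ℝ := 1 / 100 with hθ
  have hb1 : a / (1 - θ) = a * (100 / 99) := by rw [hθ]; ring
  have he2' : Real.exp 2 ≤ 73891 / 10000 := by
    have h1 := Real.exp_one_lt_d9
    have h2 : Real.exp 2 = Real.exp 1 * Real.exp 1 := by rw [← Real.exp_add]; norm_num
    have h3 := Real.exp_pos 1
    rw [h2]
    nlinarith
  have he2p := Real.exp_pos 2
  set M : ℝ := 4 * Real.exp 2 / (θ ^ 2 * (1 - θ ^ 2 / 3)) with hM
  have hMeq : M * (θ ^ 2 * (1 - θ ^ 2 / 3)) = 4 * Real.exp 2 := by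
    rw [hM, div_mul_cancel₀]
    rw [hθ]
    norm_num
  have hMle : M ≤ 295580 := by
    rw [hM, hθ, div_le_iff₀ (by norm_num)]
    norm_num
    linarith
  have hM0 : 0 < M := by
    rw [hM, hθ]
    refine div_pos (by positivity) (by norm_num)
  have hbe : Real.exp (a * (1 + 3 * θ) / (1 - θ)) ≤ 11 := exp_b_le
  have hb0 : 0 < a * (1 + 3 * θ) / (1 - θ) := by
    rw [hθ]
    refine div_pos (mul_pos hl0 (by norm_num)) (by norm_num)
  have hb2 : Real.exp (2 * (a * (1 + 3 * θ) / (1 - θ))) ≤ 121 := by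
    have : Real.exp (2 * (a * (1 + 3 * θ) / (1 - θ))) =
        Real.exp (a * (1 + 3 * θ) / (1 - θ)) * Real.exp (a * (1 + 3 * θ) / (1 - θ)) := by
      rw [← Real.exp_add]; congr 1; ring
    rw [this]
    have h0 := Real.exp_pos (a * (1 + 3 * θ) / (1 - θ))
    nlinarith
  have hfl : ⌊Real.exp (2 * (a * (1 + 3 * θ) / (1 - θ)))⌋₊ ≤ 121 := by
    refine Nat.floor_le_of_le ?_
    exact_mod_cast hb2
  have hS : ∀ g : ℝ → ℂ, Fa (a * (1 + 3 * θ) / (1 - θ)) g →
      2 * (∑ n ∈ Finset.Icc 1 ⌊Real.exp (2 * (a * (1 + 3 * θ) / (1 - θ)))⌋₊, aL (L := zL) n *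
      ∫ x : ℝ, g (x + Real.log n) * conj (g x)).re ≤ 787 / 50 * N2 g := by
    intro g hg
    have h1 := schur (c := 26 / 25) (e0 := 0) (d := 43 / 10) hb0 (fun y hy hy2 => by
      have hyN : ⌊y⌋₊ ≤ 121 := by
        refine Nat.floor_le_of_le ?_
        have := hy2.trans hb2
        exact_mod_cast this
      refine (hpsi _ hyN).trans ?_
      have := Nat.floor_le (show 0 ≤ y by linarith)
      linarith) (by
      refine le_trans (Finset.sum_le_sum_of_subset_of_nonneg (Finset.Icc_subset_Icc_right hfl) fun n _ _ => ?_) hmert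
      exact div_nonneg ArithmeticFunction.vonMangoldt_nonneg (Nat.cast_nonneg _)) hg
    refine h1.trans (mul_le_mul_of_nonneg_right ?_ (N2_nonneg g))
    linarith
  obtain ⟨p, hp⟩ : ∃ p : ℕ, p = 2 * 710000000 := ⟨_, rfl⟩
  have hpc : (p : ℝ) = 1420000000 := by
    rw [hp]
    push_cast
    norm_num
  have h2p : (2 : ℝ) ^ 200 ≤ 2 ^ p := pow_le_pow_right₀ (by norm_num) (by omega)
  have hθb : θ * (a / (1 - θ)) = a / 99 := by rw [hb1, hθ]; ring
  refine param (L := zL) (a := a) (θ := θ) (M := M) (y := 56 / 10000) (T := 10 ^ 12) (T1 := 43500000) (lam := 787 / 50)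
    (κ := 1 / 100) (D0 := 7) (Z := 208) (p := p) hl0 (by rw [hθ]; norm_num) (by rw [hθ]; norm_num) hMeq hS Z_le
    (by norm_num) (by norm_num) (by norm_num) (fun v hv => GD_15 hv) GD_lower' ⟨710000000, by omega⟩ (by omega) ?_ ?_ ?_ ?_ ?_
    (by norm_num) ?_ (by norm_num) ?_
  · rw [hb1, hpc]
    nlinarith
  · rw [hθb, hpc]
    have : M * a ≤ 295580 * (76 / 33) := mul_le_mul hMle hl1 hl0.le (by norm_num)
    linarith
  · rw [hpc]
    have h0 : (0 : ℝ) < 7 * (1 / 100) := by norm_num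
    refine le_trans ?_ (mul_le_mul_of_nonneg_left h2p h0.le)
    norm_num
  · have e : ((zL).r : ℝ) = 1 := Nat.cast_one
    rw [e, hpc, hexpa]
    refine le_trans ?_ (mul_le_mul_of_nonneg_left h2p (by norm_num))
    have h3 : 64 * 1 * (a * 10) * 1420000000 ≤ 64 * 1 * (76 / 33 * 10) * (1420000000 : ℝ) := by
      have : a * 10 ≤ 76 / 33 * 10 := by linarith
      linarith
    refine h3.trans ?_
    norm_num
  · rw [hpc, hexp2a, hθb]
    have h3 : (99 / 43 / 99) ^ 2 ≤ (a / 99) ^ 2 := by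
      refine pow_le_pow_left₀ (by norm_num) ?_ 2
      linarith
    have h4 : (1 : ℝ) / 100 * (99 / 43 / 99) ^ 2 * 2 ^ 200 ≤ 1 / 100 * (a / 99) ^ 2 * 2 ^ p := by
      refine mul_le_mul (by linarith) h2p (by positivity) (by positivity)
    refine le_trans ?_ h4
    have h5 : 256 * (a * 100) * 208 * (1420000000 : ℝ) ^ 3 ≤ 256 * (76 / 33 * 100) * 208 * (1420000000 : ℝ) ^ 3 := by
      refine mul_le_mul_of_nonneg_right ?_ (by norm_num)
      linarith
    refine h5.trans ?_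
    norm_num
  · have h3 : (56 / 10000 : ℝ) ^ 3 * (1 + 56 / 10000) * (256 / 27 * M) ≤
        (56 / 10000 : ℝ) ^ 3 * (1 + 56 / 10000) * (256 / 27 * 295580) := by
      refine mul_le_mul_of_nonneg_left ?_ (by norm_num)
      linarith
    refine h3.trans ?_
    norm_num
  · rw [hpc, hθb]
    have h3 : Real.exp (a / 99 / 1420000000) ≤ 1 + 1 / 1000 := by
      have h4 : a / 99 / 1420000000 ≤ 1 / 2000 := by linarith
      have h5 : 0 ≤ a / 99 / 1420000000 := by positivity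
      have := Real.abs_exp_sub_one_le (x := a / 99 / 1420000000) (by rw [abs_of_nonneg h5]; linarith)
      rw [abs_of_nonneg h5] at this
      have h6 := (abs_le.1 this).2
      linarith
    have h4 : (Real.exp (a / 99 / 1420000000) * 1420000000) ^ 2 ≤ ((1 + 1 / 1000) * 1420000000) ^ 2 := by
      have := Real.exp_pos (a / 99 / 1420000000)
      gcongr
    have h5 : (56 / 10000 : ℝ) * (99 / 43 / 99 * 10 ^ 12) ^ 2 ≤ 56 / 10000 * (a / 99 * 10 ^ 12) ^ 2 := by
      have : 99 / 43 / 99 ≤ a / 99 := by linarith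
      gcongr
    refine h4.trans (le_trans ?_ h5)
    norm_num

end Pool.Agent.Zk2.LX
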